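import Mathlib

/-! Families on a cube in which every non-member has at most one lower neighbour in the family,
built from disjoint blocks. -/

namespace Pool.Agent.H153_MeetIrr

open Finset

/-- every set outside `U` has at most one lower neighbour in `U` -/
def Ok {M : Type} [DecidableEq M] (U : Finset (Finset M)) : Prop :=
  ∀ W, W ∉ U → ∀ x ∈ W, ∀ y ∈ W, W.erase x ∈ U → W.erase y ∈ U → x = y

/-- the weight of a family -/
def wt {M : Type} [Fintype M] (U : Finset (Finset M)) : ℤ :=
  ∑ A ∈ U, ((Fintype.card M : ℤ) - 2 * A.card - 1)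

/-- add a block of size `s` -/
def addBlock {M : Type} [DecidableEq M] [Fintype M] (s : ℕ) (U : Finset (Finset M)) :
    Finset (Finset (Fin s ⊕ M)) :=
  Finset.univ.filter (fun W => W.toLeft = ∅ ∨ (2 ≤ W.toLeft.card ∧ W.toRight ∈ U))

theorem ok_addBlock {M : Type} [DecidableEq M] [Fintype M] (s : ℕ) {U : Finset (Finset M)}
    (hU : Ok U) : Ok (addBlock s U) := by
  have hL1 : ∀ (W : Finset (Fin s ⊕ M)) (b : Fin s),
      (W.erase (Sum.inl b)).toLeft = W.toLeft.erase b := by
    intro W b
    ext z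
    simp
  have hL2 : ∀ (W : Finset (Fin s ⊕ M)) (b : M),
      (W.erase (Sum.inr b)).toLeft = W.toLeft := by
    intro W b
    ext z
    simp
  have hR1 : ∀ (W : Finset (Fin s ⊕ M)) (b : Fin s),
      (W.erase (Sum.inl b)).toRight = W.toRight := by
    intro W b
    ext z
    simp
  have hR2 : ∀ (W : Finset (Fin s ⊕ M)) (b : M),
      (W.erase (Sum.inr b)).toRight = W.toRight.erase b := by
    intro W b
    ext z
    simp
  intro W hW
  have hW' : ¬ (W.toLeft = ∅ ∨ (2 ≤ W.toLeft.card ∧ W.toRight ∈ U)) := fun h =>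
    hW (Finset.mem_filter.2 ⟨Finset.mem_univ _, h⟩)
  rw [not_or] at hW'
  obtain ⟨h1, h2⟩ := hW'
  have hmem : ∀ x ∈ W, W.erase x ∈ addBlock s U →
      (W.toLeft.card = 1 ∧ ∃ b, x = Sum.inl b ∧ b ∈ W.toLeft) ∨
      (2 ≤ W.toLeft.card ∧ ∃ b, x = Sum.inr b ∧ b ∈ W.toRight ∧ W.toRight.erase b ∈ U) := by
    intro x hx hxU
    have h3 := (Finset.mem_filter.1 hxU).2
    have hpos : 1 ≤ W.toLeft.card := Finset.card_pos.2 (Finset.nonempty_iff_ne_empty.2 h1)
    rcases x with b | b
    · rw [hL1, hR1] at h3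
      have hb : b ∈ W.toLeft := Finset.mem_toLeft.2 hx
      have hc := Finset.card_erase_of_mem hb
      rcases h3 with h3 | h3
      · left
        rw [h3, Finset.card_empty] at hc
        exact ⟨by omega, b, rfl, hb⟩
      · exfalso
        exact h2 ⟨by omega, h3.2⟩
    · rw [hL2, hR2] at h3
      rcases h3 with h3 | h3
      · exact absurd h3 h1
      · right
        exact ⟨h3.1, b, rfl, Finset.mem_toRight.2 hx, h3.2⟩
  intro x hx y hy hxU hyU
  rcases hmem x hx hxU with ⟨c1, b, rfl, hb⟩ | ⟨c1, b, rfl, hb, hbU⟩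
  · rcases hmem y hy hyU with ⟨c2, d, rfl, hd⟩ | ⟨c2, d, rfl, hd, hdU⟩
    · obtain ⟨e, he⟩ := Finset.card_eq_one.1 c1
      rw [he, Finset.mem_singleton] at hb hd
      rw [hb, hd]
    · omega
  · rcases hmem y hy hyU with ⟨c2, d, rfl, hd⟩ | ⟨c2, d, rfl, hd, hdU⟩
    · omega
    · rw [hU W.toRight (fun h => h2 ⟨c1, h⟩) b hb d hd hbU hdU]

/-- sums over all sets of the signed excess vanish -/
theorem sum_excess (M : Type) [DecidableEq M] [Fintype M] :
    ∑ A : Finset M, ((Fintype.card M : ℤ) - 2 * A.card) = 0 := by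
  have h1 : ∑ A : Finset M, ((Fintype.card M : ℤ) - 2 * A.card) =
      ∑ A : Finset M, ((Fintype.card M : ℤ) - 2 * (Aᶜ).card) :=
    Fintype.sum_equiv (Function.Involutive.toPerm (compl : Finset M → Finset M)
      compl_involutive) _ _ (fun A => by
        simp [Function.Involutive.toPerm])
  have h2 : ∑ A : Finset M, ((Fintype.card M : ℤ) - 2 * (Aᶜ).card) =
      - ∑ A : Finset M, ((Fintype.card M : ℤ) - 2 * A.card) := by
    rw [← Finset.sum_neg_distrib]
    apply Finset.sum_congr rfl
    intro A _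
    rw [Finset.card_compl, Nat.cast_sub (Finset.card_le_univ A)]
    ring
  rw [h2] at h1
  linarith

theorem big_split {s : ℕ} (g : Finset (Fin s) → ℤ) :
    ∑ V : Finset (Fin s), g V = g ∅ + ∑ b : Fin s, g {b} +
      ∑ V ∈ Finset.univ.filter (fun V : Finset (Fin s) => 2 ≤ V.card), g V := by
  have h1 : (Finset.univ : Finset (Finset (Fin s))).filter (fun V => ¬ 2 ≤ V.card) =
      insert ∅ (Finset.univ.image (fun b : Fin s => ({b} : Finset (Fin s)))) := by
    ext V
    simp only [Finset.mem_filter, Finset.mem_univ, true_and, Finset.mem_insert,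
      Finset.mem_image, not_le]
    constructor
    · intro h
      rcases Nat.lt_or_ge V.card 1 with h2 | h2
      · left
        exact Finset.card_eq_zero.1 (by omega)
      · right
        obtain ⟨b, hb⟩ := Finset.card_eq_one.1 (by omega : V.card = 1)
        exact ⟨b, hb.symm⟩
    · rintro (h | ⟨b, h⟩)
      · rw [h]
        simp
      · rw [← h]
        simp
  rw [← Finset.sum_filter_add_sum_filter_not Finset.univ
    (fun V : Finset (Fin s) => 2 ≤ V.card), h1, Finset.sum_insert, Finset.sum_image]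
  · ring
  · intro a _ b _ h
    exact Finset.singleton_injective h
  · simp only [Finset.mem_image, Finset.mem_univ, true_and, not_exists]
    intro b h
    exact Finset.singleton_ne_empty b h

theorem big_card (s : ℕ) :
    ((Finset.univ.filter (fun V : Finset (Fin s) => 2 ≤ V.card)).card : ℤ) =
      2 ^ s - s - 1 := by
  have h1 := big_split (s := s) (fun _ => (1 : ℤ))
  simp only [Finset.sum_const, Finset.card_univ, Fintype.card_finset, Fintype.card_fin,
    nsmul_eq_mul, mul_one] at h1
  push_cast at h1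
  linarith

theorem big_excess (s : ℕ) :
    ∑ V ∈ Finset.univ.filter (fun V : Finset (Fin s) => 2 ≤ V.card),
      ((s : ℤ) - 2 * V.card) = - (s * (s - 1)) := by
  have h1 := big_split (s := s) (fun V => (s : ℤ) - 2 * V.card)
  have h2 := sum_excess (Fin s)
  rw [Fintype.card_fin] at h2
  rw [h2] at h1
  simp only [Finset.card_empty, Finset.card_singleton, Finset.sum_const, Finset.card_univ,
    Fintype.card_fin, nsmul_eq_mul] at h1
  push_cast at h1
  linarith

/-- sum over the extended family -/
theorem sum_addBlock {M : Type} [DecidableEq M] [Fintype M] (s : ℕ) (U : Finset (Finset M))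
    (g : ℕ → ℤ) :
    ∑ W ∈ addBlock s U, g W.card = ∑ A : Finset M, g A.card +
      ∑ V ∈ Finset.univ.filter (fun V : Finset (Fin s) => 2 ≤ V.card),
        ∑ A ∈ U, g (V.card + A.card) := by
  have h1 : ∑ W ∈ addBlock s U, g W.card =
      ∑ p : Finset (Fin s) × Finset M,
        if (p.1 = ∅ ∨ (2 ≤ p.1.card ∧ p.2 ∈ U)) then g (p.1.card + p.2.card) else 0 := by
    rw [addBlock, Finset.sum_filter]
    refine Fintype.sum_equiv Finset.sumEquiv.toEquiv _ _ ?_
    intro W
    have : (Finset.sumEquiv.toEquiv W : Finset (Fin s) × Finset M) = (W.toLeft, W.toRight) := rfl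
    rw [this]
    simp only
    rw [Finset.card_toLeft_add_card_toRight]
  rw [h1, Fintype.sum_prod_type, big_split]
  simp only [Finset.card_empty, Finset.card_singleton, true_or, if_true, zero_add]
  have h2 : ∑ b : Fin s, ∑ A : Finset M, (if (({b} : Finset (Fin s)) = ∅ ∨
      ((2 : ℕ) ≤ 1 ∧ A ∈ U)) then g (1 + A.card) else 0) = 0 := by
    apply Finset.sum_eq_zero
    intro b _
    apply Finset.sum_eq_zero
    intro A _
    rw [if_neg]
    rintro (h | h)
    · exact Finset.singleton_ne_empty b h
    · omega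
  rw [h2, add_zero]
  congr 1
  apply Finset.sum_congr rfl
  intro V hV
  have hV2 := (Finset.mem_filter.1 hV).2
  rw [← Finset.sum_filter]
  apply Finset.sum_congr _ (fun _ _ => rfl)
  ext A
  simp only [Finset.mem_filter, Finset.mem_univ, true_and]
  constructor
  · rintro (h | h)
    · rw [h] at hV2
      simp at hV2
    · exact h.2
  · intro h
    exact Or.inr ⟨hV2, h⟩

theorem card_addBlock {M : Type} [DecidableEq M] [Fintype M] (s : ℕ) (U : Finset (Finset M)) :
    ((addBlock s U).card : ℤ) = 2 ^ Fintype.card M + (2 ^ s - s - 1) * U.card := by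
  have h1 := sum_addBlock s U (fun _ => 1)
  simp only [Finset.sum_const, nsmul_eq_mul, mul_one, Finset.card_univ,
    Fintype.card_finset] at h1
  rw [h1, big_card]
  push_cast
  ring

theorem wt_addBlock {M : Type} [DecidableEq M] [Fintype M] (s : ℕ) (U : Finset (Finset M)) :
    wt (addBlock s U) = 2 ^ Fintype.card M * ((s : ℤ) - 1) +
      (2 ^ s - s - 1) * wt U - s * (s - 1) * U.card := by
  have h1 := sum_addBlock s U (fun c => ((Fintype.card (Fin s ⊕ M) : ℤ) - 2 * c - 1))
  have hc : (Fintype.card (Fin s ⊕ M) : ℤ) = s + Fintype.card M := by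
    rw [Fintype.card_sum, Fintype.card_fin]
    push_cast
    ring
  rw [wt, h1, hc]
  have h2 : ∑ A : Finset M, ((s : ℤ) + Fintype.card M - 2 * A.card - 1) =
      2 ^ Fintype.card M * ((s : ℤ) - 1) := by
    have h3 : ∀ A : Finset M, ((s : ℤ) + Fintype.card M - 2 * A.card - 1) =
        ((Fintype.card M : ℤ) - 2 * A.card) + (s - 1) := fun A => by ring
    rw [Finset.sum_congr rfl (fun A _ => h3 A), Finset.sum_add_distrib, sum_excess,
      Finset.sum_const, Finset.card_univ, Fintype.card_finset, nsmul_eq_mul]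
    push_cast
    ring
  rw [h2]
  have h4 : ∀ V : Finset (Fin s), ∑ A ∈ U, ((s : ℤ) + Fintype.card M -
      2 * ((V.card + A.card : ℕ) : ℤ) - 1) = wt U + ((s : ℤ) - 2 * V.card) * U.card := by
    intro V
    rw [wt, mul_comm _ (U.card : ℤ), ← nsmul_eq_mul, ← Finset.sum_const,
      ← Finset.sum_add_distrib]
    apply Finset.sum_congr rfl
    intro A _
    push_cast
    ring
  rw [Finset.sum_congr rfl (fun V _ => h4 V), Finset.sum_add_distrib, Finset.sum_const,
    nsmul_eq_mul, big_card, ← Finset.sum_mul, big_excess]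
  ring

/-- pairs (normalised weight, density) realised by some family -/
def Good (a μ : ℝ) : Prop :=
  ∃ (M : Type) (_ : Fintype M) (_ : DecidableEq M) (U : Finset (Finset M)), Ok U ∧
    (wt U : ℝ) = a * 2 ^ Fintype.card M ∧ (U.card : ℝ) = μ * 2 ^ Fintype.card M

theorem good_zero : Good 0 0 := by
  refine ⟨Fin 0, inferInstance, inferInstance, ∅, ?_, ?_, ?_⟩
  · intro W _ x _ y _ h
    exact absurd h (Finset.notMem_empty _)
  · simp [wt]
  · simp

theorem good_step {a μ : ℝ} (h : Good a μ) (s : ℕ) :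
    Good (a + ((s - 1) - (1 + s) * a - s * (s - 1) * μ) / 2 ^ s)
      (μ + (1 - (1 + s) * μ) / 2 ^ s) := by
  obtain ⟨M, _, _, U, h1, h2, h3⟩ := h
  refine ⟨Fin s ⊕ M, inferInstance, inferInstance, addBlock s U, ok_addBlock s h1, ?_, ?_⟩
  · rw [wt_addBlock, Fintype.card_sum, Fintype.card_fin]
    push_cast
    rw [h2, h3, pow_add]
    field_simp
    ring
  · have h4 : ((addBlock s U).card : ℝ) = (((addBlock s U).card : ℤ) : ℝ) := by
      push_cast
      rfl
    rw [h4, card_addBlock, Fintype.card_sum, Fintype.card_fin]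
    push_cast
    rw [h3, pow_add]
    field_simp
    ring

end Pool.Agent.H153_MeetIrr
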