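import Pool.Agent.H153_MeetIrr.Extremal

/-! Lower bounds: a code of sets of size `m - 1` below all sets of size `m`, and the extension by
one point. -/

namespace Pool.Agent.H153_MeetIrr

open Finset

/-- Extension by one point: keep the family and add all sets of size `t` together with the new
point. -/
theorem exists_extend {α : Type} [DecidableEq α] [Fintype α] {F : Finset (Finset α)}
    (hF : Priv F) (t : ℕ) :
    ∃ G : Finset (Finset (Option α)), Priv G ∧
      G.card = F.card + (Fintype.card α).choose t := by
  classical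
  let G1 : Finset (Finset (Option α)) := F.map ⟨fun A => A.map Function.Embedding.some, by
    intro A B h
    exact Finset.map_injective _ h⟩
  let G2 : Finset (Finset (Option α)) :=
    (Finset.powersetCard t (Finset.univ : Finset α)).map ⟨fun A => Finset.insertNone A, by
      intro A B h
      exact Finset.insertNone.injective h⟩
  have h1 : ∀ A, A ∈ G1 ↔ ∃ B ∈ F, B.map Function.Embedding.some = A := by
    intro A
    simp only [G1, Finset.mem_map]
    exact Iff.rfl
  have h2 : ∀ A, A ∈ G2 ↔ ∃ B : Finset α, B.card = t ∧ Finset.insertNone B = A := by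
    intro A
    simp only [G2, Finset.mem_map, Finset.mem_powersetCard, Finset.subset_univ, true_and]
    exact Iff.rfl
  have hnone1 : ∀ A ∈ G1, none ∉ A := by
    intro A hA
    obtain ⟨B, _, rfl⟩ := (h1 A).1 hA
    simp
  have hnone2 : ∀ A ∈ G2, none ∈ A := by
    intro A hA
    obtain ⟨B, _, rfl⟩ := (h2 A).1 hA
    simp
  refine ⟨G1 ∪ G2, ?_, ?_⟩
  · intro A hA
    rcases Finset.mem_union.1 hA with hA | hA
    · obtain ⟨B, hB, rfl⟩ := (h1 A).1 hA
      obtain ⟨x, hx, hx2⟩ := hF B hB
      refine ⟨some x, by simp [hx], ?_⟩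
      intro C hC hCA
      rcases Finset.mem_union.1 hC with hC | hC
      · obtain ⟨D, hD, rfl⟩ := (h1 C).1 hC
        have h3 : D ⊂ B := by
          rw [Finset.ssubset_iff_subset_ne] at hCA ⊢
          refine ⟨Finset.map_subset_map.1 hCA.1, ?_⟩
          rintro rfl
          exact hCA.2 rfl
        have := hx2 D hD h3
        simpa using this
      · have h3 := hCA.subset (hnone2 C hC)
        simp at h3
    · refine ⟨none, hnone2 A hA, ?_⟩
      intro C hC hCA
      rcases Finset.mem_union.1 hC with hC | hC
      · exact hnone1 C hC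
      · obtain ⟨B, hB, rfl⟩ := (h2 A).1 hA
        obtain ⟨D, hD, rfl⟩ := (h2 C).1 hC
        have h3 := Finset.card_lt_card hCA
        rw [Finset.card_insertNone, Finset.card_insertNone, hB, hD] at h3
        exact absurd h3 (lt_irrefl _)
  · rw [Finset.card_union_of_disjoint, Finset.card_map, Finset.card_map,
      Finset.card_powersetCard, Finset.card_univ]
    rw [Finset.disjoint_left]
    intro A hA hA2
    exact hnone1 A hA (hnone2 A hA2)

/-- **Recursion.** `f (n+1) ≥ f n + C(n, t)` for every `t`. -/
theorem f_succ {n : ℕ} (hn : 2 ≤ n) (t : ℕ) : f n + n.choose t ≤ f (n + 1) := by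
  obtain ⟨α, _, _, F, hα, hF, hc⟩ := exists_priv_card_f hn
  obtain ⟨G, hG, hGc⟩ := exists_extend hF t
  have h1 := le_f_of_priv (n := n + 1) (by omega) (by rw [Fintype.card_option, hα]) hG
  rw [hGc, hc, hα] at h1
  exact h1

/-- All `m`-sets together with a code of `(m-1)`-sets. -/
theorem priv_code {α : Type} [DecidableEq α] [Fintype α] {m : ℕ} (hm : 2 ≤ m)
    (C : Finset (Finset α)) (hC1 : ∀ A ∈ C, A.card = m - 1)
    (hC2 : ∀ A ∈ C, ∀ B ∈ C, A ≠ B → m < (A ∪ B).card) :
    Priv (Finset.powersetCard m (Finset.univ : Finset α) ∪ C) := by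
  intro A hA
  rcases Finset.mem_union.1 hA with hA | hA
  · have hAc := (Finset.mem_powersetCard.1 hA).2
    by_cases h : ∃ B ∈ C, B ⊂ A
    · obtain ⟨B, hB, hBA⟩ := h
      obtain ⟨x, hxA, hxB⟩ := Finset.exists_of_ssubset hBA
      refine ⟨x, hxA, ?_⟩
      intro D hD hDA
      rcases Finset.mem_union.1 hD with hD | hD
      · have h1 := Finset.card_lt_card hDA
        have h2 := (Finset.mem_powersetCard.1 hD).2
        omega
      · by_cases hDB : D = B
        · rw [hDB]
          exact hxB
        · have h1 := hC2 D hD B hB hDB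
          have h2 := Finset.card_le_card (Finset.union_subset hDA.subset hBA.subset)
          omega
    · have : A.Nonempty := Finset.card_pos.1 (by omega)
      obtain ⟨x, hx⟩ := this
      refine ⟨x, hx, ?_⟩
      intro D hD hDA
      rcases Finset.mem_union.1 hD with hD | hD
      · have h1 := Finset.card_lt_card hDA
        have h2 := (Finset.mem_powersetCard.1 hD).2
        omega
      · exact absurd ⟨D, hD, hDA⟩ h
  · have hAc := hC1 A hA
    have : A.Nonempty := Finset.card_pos.1 (by omega)
    obtain ⟨x, hx⟩ := this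
    refine ⟨x, hx, ?_⟩
    intro D hD hDA
    have h1 := Finset.card_lt_card hDA
    rcases Finset.mem_union.1 hD with hD | hD
    · have h2 := (Finset.mem_powersetCard.1 hD).2
      omega
    · have h2 := hC1 D hD
      omega

/-- The Graham-Sloane code: a residue class of the sum. -/
theorem exists_code {N m : ℕ} [NeZero N] (hm : 1 ≤ m) :
    ∃ C : Finset (Finset (ZMod N)), (∀ A ∈ C, A.card = m - 1) ∧
      (∀ A ∈ C, ∀ B ∈ C, A ≠ B → m < (A ∪ B).card) ∧
      N.choose (m - 1) ≤ N * C.card := by
  classical
  let P : Finset (Finset (ZMod N)) := Finset.powersetCard (m - 1) Finset.univ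
  let s : Finset (ZMod N) → ZMod N := fun A => ∑ a ∈ A, a
  have hP : P.card = N.choose (m - 1) := by
    rw [Finset.card_powersetCard, Finset.card_univ, ZMod.card]
  have hex : ∃ r : ZMod N, N.choose (m - 1) ≤ N * (P.filter (fun A => s A = r)).card := by
    by_contra hcon
    push Not at hcon
    have h1 : P.card = ∑ r : ZMod N, (P.filter (fun A => s A = r)).card :=
      Finset.card_eq_sum_card_fiberwise (fun _ _ => Finset.mem_coe.2 (Finset.mem_univ _))
    have h2 : ∑ r : ZMod N, N * (P.filter (fun A => s A = r)).card <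
        ∑ _r : ZMod N, N.choose (m - 1) := by
      apply Finset.sum_lt_sum_of_nonempty Finset.univ_nonempty
      intro r _
      exact hcon r
    rw [← Finset.mul_sum, ← h1, Finset.sum_const, Finset.card_univ, ZMod.card, smul_eq_mul,
      hP] at h2
    exact absurd h2 (lt_irrefl _)
  obtain ⟨r, hr⟩ := hex
  refine ⟨P.filter (fun A => s A = r), ?_, ?_, hr⟩
  · intro A hA
    exact (Finset.mem_powersetCard.1 (Finset.mem_filter.1 hA).1).2
  · intro A hA B hB hAB
    have hA1 := (Finset.mem_powersetCard.1 (Finset.mem_filter.1 hA).1).2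
    have hB1 := (Finset.mem_powersetCard.1 (Finset.mem_filter.1 hB).1).2
    have hA2 := (Finset.mem_filter.1 hA).2
    have hB2 := (Finset.mem_filter.1 hB).2
    by_contra hcon
    push Not at hcon
    -- the difference sets have one element each
    have hne : ¬ A ⊆ B := fun h => hAB (Finset.eq_of_subset_of_card_le h (by omega))
    have hne' : ¬ B ⊆ A := fun h => hAB (Finset.eq_of_subset_of_card_le h (by omega)).symm
    have h1 : (A \ B).card + B.card = (A ∪ B).card := Finset.card_sdiff_add_card A B
    have h2 : (B \ A).card + A.card = (A ∪ B).card := by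
      rw [Finset.union_comm]
      exact Finset.card_sdiff_add_card B A
    have h3 : 0 < (A \ B).card := Finset.card_pos.2 (Finset.sdiff_nonempty.2 hne)
    have h4 : (A \ B).card = 1 := by omega
    have h5 : (B \ A).card = 1 := by omega
    obtain ⟨a, ha⟩ := Finset.card_eq_one.1 h4
    obtain ⟨b, hb⟩ := Finset.card_eq_one.1 h5
    have h6 : s A = (∑ x ∈ A ∩ B, x) + a := by
      have := Finset.sum_inter_add_sum_sdiff A B (fun x : ZMod N => x)
      simp only [s]
      rw [← this, ha, Finset.sum_singleton]
    have h7 : s B = (∑ x ∈ A ∩ B, x) + b := by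
      have := Finset.sum_inter_add_sum_sdiff B A (fun x : ZMod N => x)
      simp only [s]
      rw [← this, hb, Finset.sum_singleton, Finset.inter_comm]
    have h8 : a = b := by
      rw [hA2] at h6
      rw [hB2] at h7
      have := h6.symm.trans h7
      exact add_left_cancel this
    have h9 : a ∈ A \ B := by
      rw [ha]
      exact Finset.mem_singleton_self a
    have h10 : b ∈ B \ A := by
      rw [hb]
      exact Finset.mem_singleton_self b
    rw [Finset.mem_sdiff] at h9 h10
    rw [h8] at h9
    exact h9.2 h10.1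

/-- `2m (f(2m) - C(2m,m)) ≥ C(2m,m-1)` -/
theorem f_even_lower {m : ℕ} (hm : 2 ≤ m) :
    2 * m * (2 * m).choose m + (2 * m).choose (m - 1) ≤ 2 * m * f (2 * m) := by
  have : NeZero (2 * m) := ⟨by omega⟩
  obtain ⟨C, h1, h2, h3⟩ := exists_code (N := 2 * m) (m := m) (by omega)
  have h4 := le_f_of_priv (n := 2 * m) (by omega) (ZMod.card (2 * m)) (priv_code hm C h1 h2)
  have h5 : Disjoint (Finset.powersetCard m (Finset.univ : Finset (ZMod (2 * m)))) C := by
    rw [Finset.disjoint_left]
    intro A hA hA2
    have := (Finset.mem_powersetCard.1 hA).2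
    have := h1 A hA2
    omega
  rw [Finset.card_union_of_disjoint h5, Finset.card_powersetCard, Finset.card_univ,
    ZMod.card] at h4
  calc 2 * m * (2 * m).choose m + (2 * m).choose (m - 1)
      ≤ 2 * m * (2 * m).choose m + 2 * m * C.card := by omega
    _ = 2 * m * ((2 * m).choose m + C.card) := by ring
    _ ≤ 2 * m * f (2 * m) := Nat.mul_le_mul_left _ h4

end Pool.Agent.H153_MeetIrr
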