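import Pool.Agent.H153_MeetIrr.AsymReal
import Pool.Agent.H153_MeetIrr.Lower

/-! From a family on a cube to a large family with private elements on `2 k` points. -/

namespace Pool.Agent.H153_MeetIrr

open Finset

/-- the family on `M ⊕ Fin r` -/
def fam2 {M : Type} [DecidableEq M] [Fintype M] (U : Finset (Finset M)) (r k : ℕ) :
    Finset (Finset (M ⊕ Fin r)) :=
  Finset.univ.filter (fun A => A.card = if A.toLeft ∈ U then k - 1 else k)

theorem priv_fam2 {M : Type} [DecidableEq M] [Fintype M] {U : Finset (Finset M)} (hU : Ok U)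
    (r : ℕ) {k : ℕ} (hk : 2 ≤ k) : Priv (fam2 U r k) := by
  have hL1 : ∀ (W : Finset (M ⊕ Fin r)) (b : M),
      (W.erase (Sum.inl b)).toLeft = W.toLeft.erase b := by
    intro W b
    ext z
    simp
  have hL2 : ∀ (W : Finset (M ⊕ Fin r)) (b : Fin r),
      (W.erase (Sum.inr b)).toLeft = W.toLeft := by
    intro W b
    ext z
    simp
  have herase : ∀ (A B : Finset (M ⊕ Fin r)), B ⊆ A → B.card + 1 = A.card →
      ∃ x ∈ A, B = A.erase x := by
    intro A B h1 h2
    have h3 : (A \ B).card = 1 := by
      rw [Finset.card_sdiff_of_subset h1]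
      omega
    obtain ⟨x, hx⟩ := Finset.card_eq_one.1 h3
    have hxA : x ∈ A \ B := by rw [hx]; exact Finset.mem_singleton_self x
    rw [Finset.mem_sdiff] at hxA
    refine ⟨x, hxA.1, ?_⟩
    apply Finset.eq_of_subset_of_card_le
    · intro z hz
      exact Finset.mem_erase.2 ⟨fun h => hxA.2 (h ▸ hz), h1 hz⟩
    · rw [Finset.card_erase_of_mem hxA.1]
      omega
  have hcard : ∀ B ∈ fam2 U r k, B.card = if B.toLeft ∈ U then k - 1 else k := fun B hB =>
    (Finset.mem_filter.1 hB).2
  -- description of a member strictly below another one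
  have hbelow : ∀ A ∈ fam2 U r k, ∀ B ∈ fam2 U r k, B ⊂ A →
      A.toLeft ∉ U ∧ ∃ b ∈ A.toLeft, B = A.erase (Sum.inl b) ∧ A.toLeft.erase b ∈ U := by
    intro A hA B hB hBA
    have h1 := hcard A hA
    have h2 := hcard B hB
    have h3 := Finset.card_lt_card hBA
    by_cases hAU : A.toLeft ∈ U
    · rw [if_pos hAU] at h1
      split_ifs at h2 <;> omega
    · rw [if_neg hAU] at h1
      by_cases hBU : B.toLeft ∈ U
      · rw [if_pos hBU] at h2
        refine ⟨hAU, ?_⟩
        obtain ⟨x, hx, hxe⟩ := herase A B hBA.subset (by omega)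
        rcases x with b | b
        · refine ⟨b, Finset.mem_toLeft.2 hx, hxe, ?_⟩
          rw [← hL1, ← hxe]
          exact hBU
        · exfalso
          rw [hxe, hL2] at hBU
          exact hAU hBU
      · rw [if_neg hBU] at h2
        omega
  intro A hA
  by_cases hex : ∃ B ∈ fam2 U r k, B ⊂ A
  · obtain ⟨B, hB, hBA⟩ := hex
    obtain ⟨h1, b, hb, hBe, hbU⟩ := hbelow A hA B hB hBA
    refine ⟨Sum.inl b, Finset.mem_toLeft.1 hb, ?_⟩
    intro D hD hDA
    obtain ⟨_, d, hd, hDe, hdU⟩ := hbelow A hA D hD hDA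
    have h2 := hU A.toLeft h1 b hb d hd hbU hdU
    rw [hDe, ← h2]
    exact Finset.notMem_erase _ A
  · have h1 := hcard A hA
    have h2 : 0 < A.card := by
      split_ifs at h1 <;> omega
    obtain ⟨x, hx⟩ := Finset.card_pos.1 h2
    exact ⟨x, hx, fun D hD hDA => absurd ⟨D, hD, hDA⟩ hex⟩

theorem card_len (r j : ℕ) :
    ((Finset.univ : Finset (Finset (Fin r))).filter (fun W => W.card = j)).card =
      r.choose j := by
  have h1 : (Finset.univ : Finset (Finset (Fin r))).filter (fun W => W.card = j) =
      Finset.powersetCard j Finset.univ := by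
    ext W
    simp [Finset.mem_powersetCard]
  rw [h1, Finset.card_powersetCard, Finset.card_univ, Fintype.card_fin]

/-- counting sets whose size is prescribed by the trace on `M` -/
theorem card_by_trace {M : Type} [DecidableEq M] [Fintype M] (r : ℕ) (c : Finset M → ℕ)
    (hc : ∀ V, V.card ≤ c V) :
    ((Finset.univ : Finset (Finset (M ⊕ Fin r))).filter
      (fun A => A.card = c A.toLeft)).card = ∑ V : Finset M, r.choose (c V - V.card) := by
  rw [Finset.card_filter]
  have h1 : ∑ A : Finset (M ⊕ Fin r), (if A.card = c A.toLeft then 1 else 0) =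
      ∑ p : Finset M × Finset (Fin r), (if p.1.card + p.2.card = c p.1 then 1 else 0) := by
    refine Fintype.sum_equiv Finset.sumEquiv.toEquiv _ _ ?_
    intro W
    have : (Finset.sumEquiv.toEquiv W : Finset M × Finset (Fin r)) = (W.toLeft, W.toRight) := rfl
    rw [this]
    simp only
    rw [Finset.card_toLeft_add_card_toRight]
  rw [h1, Fintype.sum_prod_type]
  apply Finset.sum_congr rfl
  intro V _
  rw [← card_len, Finset.card_filter]
  apply Finset.sum_congr rfl
  intro W _
  have := hc V
  by_cases h : W.card = c V - V.card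
  · rw [if_pos h, if_pos]
    simp only
    omega
  · rw [if_neg h, if_neg]
    simp only
    omega

theorem card_fam2 {M : Type} [DecidableEq M] [Fintype M] (U : Finset (Finset M)) {r k : ℕ}
    (hr : r + Fintype.card M = 2 * k) (hk : Fintype.card M + 1 ≤ k) :
    ((fam2 U r k).card : ℝ) = (2 * k).choose k +
      ∑ V ∈ U, ((r.choose (k - 1 - V.card) : ℝ) - r.choose (k - V.card)) := by
  have hle : ∀ V : Finset M, V.card ≤ Fintype.card M := fun V => Finset.card_le_univ V
  have h1 := card_by_trace r (fun V : Finset M => if V ∈ U then k - 1 else k) (fun V => by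
    have := hle V
    split_ifs <;> omega)
  have h2 := card_by_trace r (fun _ : Finset M => k) (fun V => by
    have := hle V
    omega)
  have h3 : ((Finset.univ : Finset (Finset (M ⊕ Fin r))).filter
      (fun A => A.card = k)).card = (2 * k).choose k := by
    have h4 : (Finset.univ : Finset (Finset (M ⊕ Fin r))).filter (fun W => W.card = k) =
        Finset.powersetCard k Finset.univ := by
      ext W
      simp [Finset.mem_powersetCard]
    rw [h4, Finset.card_powersetCard, Finset.card_univ, Fintype.card_sum, Fintype.card_fin]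
    congr 1
    omega
  rw [h3] at h2
  rw [fam2, h1, h2]
  push_cast
  rw [← Finset.sum_filter_add_sum_filter_not Finset.univ (fun V => V ∈ U)
    (fun V => ((r.choose ((if V ∈ U then k - 1 else k) - V.card) : ℕ) : ℝ)),
    ← Finset.sum_filter_add_sum_filter_not Finset.univ (fun V => V ∈ U)
    (fun V => ((r.choose (k - V.card) : ℕ) : ℝ)), Finset.sum_sub_distrib]
  have h5 : (Finset.univ : Finset (Finset M)).filter (fun V => V ∈ U) = U := by
    ext V
    simp
  rw [h5]
  have h6 : ∑ V ∈ U, ((r.choose ((if V ∈ U then k - 1 else k) - V.card) : ℕ) : ℝ) =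
      ∑ V ∈ U, ((r.choose (k - 1 - V.card) : ℕ) : ℝ) := by
    apply Finset.sum_congr rfl
    intro V hV
    rw [if_pos hV]
  have h7 : ∑ V ∈ Finset.univ.filter (fun V => ¬ V ∈ U),
      ((r.choose ((if V ∈ U then k - 1 else k) - V.card) : ℕ) : ℝ) =
      ∑ V ∈ Finset.univ.filter (fun V => ¬ V ∈ U), ((r.choose (k - V.card) : ℕ) : ℝ) := by
    apply Finset.sum_congr rfl
    intro V hV
    rw [if_neg (Finset.mem_filter.1 hV).2]
  rw [h6, h7]
  ring

end Pool.Agent.H153_MeetIrr
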