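import Pool.Agent.H153_MeetIrr.AsymFamily

/-! The sharp second-order asymptotics of `f`. -/

namespace Pool.Agent.H153_MeetIrr

open Finset Filter Topology

theorem ratio_base (b : ℕ) :
    Tendsto (fun k : ℕ => (((2 * k).choose (k - b) : ℕ) : ℝ) / (((2 * k).choose k : ℕ) : ℝ))
      atTop (𝓝 1) := by
  induction b with
  | zero =>
    refine tendsto_const_nhds.congr (fun k => ?_)
    have : 0 < (2 * k).choose k := Nat.choose_pos (by omega)
    have h : (((2 * k).choose k : ℕ) : ℝ) ≠ 0 := by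
      exact_mod_cast this.ne'
    rw [Nat.sub_zero, div_self h]
  | succ b ih =>
    have h1 := tendsto_add_mul_div_add_mul_atTop_nhds (-(b : ℝ)) ((b : ℝ) + 1) 1
      (one_ne_zero : (1 : ℝ) ≠ 0)
    have h2 := ih.mul h1
    rw [div_one, mul_one] at h2
    refine h2.congr' ?_
    filter_upwards [eventually_ge_atTop (b + 1)] with k hk
    have h3 := Nat.choose_succ_right_eq (2 * k) (k - (b + 1))
    have h4 : k - (b + 1) + 1 = k - b := by omega
    have h5 : 2 * k - (k - (b + 1)) = k + b + 1 := by omega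
    rw [h4, h5] at h3
    have h6 : (((2 * k).choose (k - b) : ℕ) : ℝ) * ((k : ℝ) - b) =
        (((2 * k).choose (k - (b + 1)) : ℕ) : ℝ) * (k + b + 1) := by
      have : (((2 * k).choose (k - b) * (k - b) : ℕ) : ℝ) =
        (((2 * k).choose (k - (b + 1)) * (k + b + 1) : ℕ) : ℝ) := by exact_mod_cast h3
      rw [Nat.cast_mul, Nat.cast_mul, Nat.cast_sub (by omega)] at this
      push_cast at this
      exact this
    have h7 : (0 : ℝ) < (b : ℝ) + 1 + 1 * k := by positivity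
    have h8 : (((2 * k).choose (k - (b + 1)) : ℕ) : ℝ) =
        (((2 * k).choose (k - b) : ℕ) : ℝ) * ((-(b : ℝ) + 1 * k) / ((b : ℝ) + 1 + 1 * k)) := by
      rw [mul_div_assoc', eq_div_iff h7.ne']
      linarith
    rw [h8]
    ring

theorem ratio_lim (m b : ℕ) :
    Tendsto (fun k : ℕ => (((2 * k - m).choose (k - b) : ℕ) : ℝ) /
      (((2 * k).choose k : ℕ) : ℝ)) atTop (𝓝 (1 / 2 ^ m)) := by
  induction m with
  | zero =>
    rw [pow_zero, div_one]
    exact ratio_base b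
  | succ m ih =>
    have h1 := tendsto_add_mul_div_add_mul_atTop_nhds ((b : ℝ) - m) (-(m : ℝ)) 1
      (two_ne_zero : (2 : ℝ) ≠ 0)
    have h2 := ih.mul h1
    have h0 : (1 : ℝ) / 2 ^ m * (1 / 2) = 1 / 2 ^ (m + 1) := by
      rw [pow_succ]
      field_simp
    rw [h0] at h2
    refine h2.congr' ?_
    filter_upwards [eventually_ge_atTop (b + m + 2)] with k hk
    have h3 := Nat.choose_mul_succ_eq (2 * k - (m + 1)) (k - b)
    have h4 : 2 * k - (m + 1) + 1 = 2 * k - m := by omega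
    rw [h4] at h3
    have h5 : 2 * k - m - (k - b) = k - m + b := by omega
    rw [h5] at h3
    have h6 : (((2 * k - (m + 1)).choose (k - b) : ℕ) : ℝ) * (2 * k - m) =
        (((2 * k - m).choose (k - b) : ℕ) : ℝ) * (k - m + b) := by
      have : (((2 * k - (m + 1)).choose (k - b) * (2 * k - m) : ℕ) : ℝ) =
        (((2 * k - m).choose (k - b) * (k - m + b) : ℕ) : ℝ) := by exact_mod_cast h3
      rw [Nat.cast_mul, Nat.cast_mul, Nat.cast_sub (by omega), Nat.cast_add,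
        Nat.cast_sub (by omega)] at this
      push_cast at this
      exact this
    have hk' : (m : ℝ) + 2 ≤ k := by
      have : m + 2 ≤ k := by omega
      exact_mod_cast this
    have h7 : (0 : ℝ) < -(m : ℝ) + 2 * k := by linarith
    have h8 : (((2 * k - (m + 1)).choose (k - b) : ℕ) : ℝ) =
        (((2 * k - m).choose (k - b) : ℕ) : ℝ) *
          (((b : ℝ) - m + 1 * k) / (-(m : ℝ) + 2 * k)) := by
      rw [mul_div_assoc', eq_div_iff h7.ne']
      linarith
    rw [h8]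
    ring

theorem diff_lim (m a : ℕ) :
    Tendsto (fun k : ℕ => (k : ℝ) * ((((2 * k - m).choose (k - 1 - a) : ℕ) : ℝ) -
      (((2 * k - m).choose (k - a) : ℕ) : ℝ)) / (((2 * k).choose k : ℕ) : ℝ)) atTop
        (𝓝 (((m : ℝ) - 2 * a - 1) / 2 ^ m)) := by
  have h1 := tendsto_add_mul_div_add_mul_atTop_nhds (0 : ℝ) (-(a : ℝ)) 1
      (one_ne_zero : (1 : ℝ) ≠ 0)
  have h2 := ((ratio_lim m (a + 1)).mul h1).mul_const ((m : ℝ) - 2 * a - 1)
  have h0 : (1 : ℝ) / 2 ^ m * (1 / 1) * ((m : ℝ) - 2 * a - 1) =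
      ((m : ℝ) - 2 * a - 1) / 2 ^ m := by
    field_simp
  rw [h0] at h2
  refine h2.congr' ?_
  filter_upwards [eventually_ge_atTop (a + m + 2)] with k hk
  have h3 := Nat.choose_succ_right_eq (2 * k - m) (k - (a + 1))
  have h4 : k - (a + 1) + 1 = k - a := by omega
  have h5 : 2 * k - m - (k - (a + 1)) = k - m + a + 1 := by omega
  rw [h4, h5] at h3
  have h6 : (((2 * k - m).choose (k - a) : ℕ) : ℝ) * ((k : ℝ) - a) =
      (((2 * k - m).choose (k - (a + 1)) : ℕ) : ℝ) * (k - m + a + 1) := by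
    have : (((2 * k - m).choose (k - a) * (k - a) : ℕ) : ℝ) =
      (((2 * k - m).choose (k - (a + 1)) * (k - m + a + 1) : ℕ) : ℝ) := by exact_mod_cast h3
    rw [Nat.cast_mul, Nat.cast_mul, Nat.cast_sub (by omega), Nat.cast_add, Nat.cast_add,
      Nat.cast_sub (by omega)] at this
    push_cast at this
    exact this
  have h9 : k - 1 - a = k - (a + 1) := by omega
  rw [h9]
  have hk' : (a : ℝ) + 2 ≤ k := by
    have : a + 2 ≤ k := by omega
    exact_mod_cast this
  have h7 : (0 : ℝ) < (k : ℝ) - a := by linarith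
  have h8 : (((2 * k - m).choose (k - a) : ℕ) : ℝ) =
      (((2 * k - m).choose (k - (a + 1)) : ℕ) : ℝ) * (k - m + a + 1) / (k - a) := by
    rw [eq_div_iff h7.ne']
    exact h6
  rw [h8]
  have h10 : -(a : ℝ) + 1 * k = k - a := by ring
  rw [h10]
  have hC : (((2 * k).choose k : ℕ) : ℝ) ≠ 0 := by
    have : 0 < (2 * k).choose k := Nat.choose_pos (by omega)
    exact_mod_cast this.ne'
  field_simp
  ring

theorem even_lower_of_good {a μ : ℝ} (h : Good a μ) {ε : ℝ} (hε : 0 < ε) :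
    ∀ᶠ k : ℕ in atTop, a - ε ≤ (k : ℝ) * ((f (2 * k) : ℝ) / (((2 * k).choose k : ℕ) : ℝ) - 1) := by
  obtain ⟨M, _, _, U, h1, h2, h3⟩ := h
  have hsum : Tendsto (fun k : ℕ => ∑ V ∈ U, (k : ℝ) *
      ((((2 * k - Fintype.card M).choose (k - 1 - V.card) : ℕ) : ℝ) -
      (((2 * k - Fintype.card M).choose (k - V.card) : ℕ) : ℝ)) /
        (((2 * k).choose k : ℕ) : ℝ)) atTop
        (𝓝 (∑ V ∈ U, ((Fintype.card M : ℝ) - 2 * V.card - 1) / 2 ^ Fintype.card M)) :=
    tendsto_finsetSum _ (fun V _ => diff_lim (Fintype.card M) V.card)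
  have h4 : ∑ V ∈ U, ((Fintype.card M : ℝ) - 2 * V.card - 1) / 2 ^ Fintype.card M = a := by
    rw [← Finset.sum_div, div_eq_iff (by positivity), ← h2, wt]
    push_cast
    rfl
  rw [h4] at hsum
  filter_upwards [hsum.eventually_const_lt (show a - ε < a by linarith),
    eventually_ge_atTop (Fintype.card M + 2)] with k hk1 hk2
  refine hk1.le.trans ?_
  have h5 := priv_fam2 h1 (2 * k - Fintype.card M) (k := k) (by omega)
  have h6 := le_f_of_priv (n := 2 * k) (by omega) (by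
    rw [Fintype.card_sum, Fintype.card_fin]
    omega) h5
  have h7 := card_fam2 U (r := 2 * k - Fintype.card M) (k := k) (by omega) (by omega)
  have h8 : ((fam2 U (2 * k - Fintype.card M) k).card : ℝ) ≤ f (2 * k) := by
    exact_mod_cast h6
  rw [h7] at h8
  have hC : (0 : ℝ) < (((2 * k).choose k : ℕ) : ℝ) := by
    have : 0 < (2 * k).choose k := Nat.choose_pos (by omega)
    exact_mod_cast this
  have h9 : ∑ V ∈ U, (k : ℝ) *
      ((((2 * k - Fintype.card M).choose (k - 1 - V.card) : ℕ) : ℝ) -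
      (((2 * k - Fintype.card M).choose (k - V.card) : ℕ) : ℝ)) /
        (((2 * k).choose k : ℕ) : ℝ) = (k : ℝ) * ((∑ V ∈ U,
      ((((2 * k - Fintype.card M).choose (k - 1 - V.card) : ℕ) : ℝ) -
      (((2 * k - Fintype.card M).choose (k - V.card) : ℕ) : ℝ))) /
        (((2 * k).choose k : ℕ) : ℝ)) := by
    rw [← Finset.sum_div, ← Finset.mul_sum, mul_div_assoc]
  rw [h9]
  apply mul_le_mul_of_nonneg_left _ (Nat.cast_nonneg k)
  rw [le_sub_iff_add_le, div_add_one hC.ne']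
  apply div_le_div_of_nonneg_right _ hC.le
  linarith

theorem even_lower {ε : ℝ} (hε : 0 < ε) :
    ∀ᶠ k : ℕ in atTop, 1 - ε ≤
      (k : ℝ) * ((f (2 * k) : ℝ) / (((2 * k).choose k : ℕ) : ℝ) - 1) := by
  obtain ⟨a, μ, h1, h2⟩ := exists_good (half_pos hε)
  filter_upwards [even_lower_of_good h1 (half_pos hε)] with k hk
  linarith

theorem odd_from_even {k : ℕ} (hk : 1 ≤ k) {y : ℝ} (hy : 0 ≤ y)
    (h : y ≤ (k : ℝ) * ((f (2 * k) : ℝ) / (((2 * k).choose k : ℕ) : ℝ) - 1)) :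
    1 + y ≤ ((2 * k + 1 : ℕ) : ℝ) *
      ((f (2 * k + 1) : ℝ) / (((2 * k + 1).choose k : ℕ) : ℝ) - 1) := by
  have h1 := f_succ (n := 2 * k) (by omega) k
  have h2 := Nat.choose_mul_succ_eq (2 * k) k
  have h3 : 2 * k + 1 - k = k + 1 := by omega
  rw [h3] at h2
  have hk0 : (0 : ℝ) < k := by exact_mod_cast hk
  obtain ⟨C, hC⟩ : ∃ C : ℝ, C = (((2 * k).choose k : ℕ) : ℝ) := ⟨_, rfl⟩
  obtain ⟨D, hD⟩ : ∃ D : ℝ, D = (((2 * k + 1).choose k : ℕ) : ℝ) := ⟨_, rfl⟩
  have hCpos : 0 < C := by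
    rw [hC]
    have : 0 < (2 * k).choose k := Nat.choose_pos (by omega)
    exact_mod_cast this
  have hDpos : 0 < D := by
    rw [hD]
    have : 0 < (2 * k + 1).choose k := Nat.choose_pos (by omega)
    exact_mod_cast this
  have h4 : C * (2 * k + 1) = D * (k + 1) := by
    rw [hC, hD]
    exact_mod_cast h2
  have h5 : (f (2 * k) : ℝ) + C ≤ f (2 * k + 1) := by
    rw [hC]
    exact_mod_cast h1
  rw [← hC] at h
  rw [← hD]
  have h6 : y * C ≤ k * (f (2 * k) - C) := by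
    have h7 : (k : ℝ) * ((f (2 * k) : ℝ) / C - 1) * C = k * (f (2 * k) - C) := by
      field_simp
    rw [← h7]
    exact mul_le_mul_of_nonneg_right h hCpos.le
  have h8 : (1 + y) * D ≤ ((2 * k + 1 : ℕ) : ℝ) * (f (2 * k + 1) - D) := by
    push_cast
    -- multiply by k * C
    have h9 : k * ((1 + y) * D) * C ≤ k * ((2 * k + 1) * (f (2 * k + 1) - D)) * C := by
      have h10 : (k : ℝ) * ((2 * k + 1) * (f (2 * k + 1) - D)) * C =
          D * (k + 1) * (k * f (2 * k + 1)) - k * (2 * k + 1) * D * C := by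
        have : (k : ℝ) * ((2 * k + 1) * (f (2 * k + 1) - D)) * C =
          (C * (2 * k + 1)) * (k * f (2 * k + 1)) - k * (2 * k + 1) * D * C := by ring
        rw [this, h4]
      rw [h10]
      have h11 : k * f (2 * k) + k * C ≤ (k : ℝ) * f (2 * k + 1) := by
        nlinarith
      have h12 : y * C + 2 * k * C ≤ (k : ℝ) * f (2 * k + 1) := by linarith
      have h13 : D * (k + 1) * (y * C + 2 * k * C) ≤ D * (k + 1) * (k * f (2 * k + 1)) :=
        mul_le_mul_of_nonneg_left h12 (by positivity)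
      have h14 : 0 ≤ D * y * C := by positivity
      nlinarith
    have h15 : 0 < (k : ℝ) * C := by positivity
    have h16 : ((1 + y) * D) * (k * C) ≤ ((2 * k + 1) * (f (2 * k + 1) - D)) * (k * C) := by
      linarith
    exact le_of_mul_le_mul_right h16 h15
  have h17 : ((2 * k + 1 : ℕ) : ℝ) * ((f (2 * k + 1) : ℝ) / D - 1) =
      ((2 * k + 1 : ℕ) : ℝ) * (f (2 * k + 1) - D) / D := by
    field_simp
  rw [h17, le_div_iff₀ hDpos]
  exact h8

theorem upper_real {n : ℕ} (hn : 2 ≤ n) :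
    (n : ℝ) * ((f n : ℝ) / ((n.choose (n / 2) : ℕ) : ℝ) - 1) ≤ n / ((n / 2 : ℕ) : ℝ) := by
  have h1 := meetCounts_bound (by omega) (isGreatest_f hn).1
  obtain ⟨C, hC⟩ : ∃ C : ℝ, C = ((n.choose (n / 2) : ℕ) : ℝ) := ⟨_, rfl⟩
  obtain ⟨h, hh⟩ : ∃ h : ℝ, h = ((n / 2 : ℕ) : ℝ) := ⟨_, rfl⟩
  have hCn : 0 < n.choose (n / 2) := Nat.choose_pos (Nat.div_le_self n 2)
  have hCpos : 0 < C := by
    rw [hC]
    exact_mod_cast hCn
  have hhpos : 0 < h := by
    rw [hh]
    have : 0 < n / 2 := by omega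
    exact_mod_cast this
  rw [← hC, ← hh]
  have h2 : (f n : ℝ) * h ≤ (h + 1) * (C - 1) := by
    rw [hC, hh]
    have h3 : ((f n * (n / 2) : ℕ) : ℝ) ≤ (((n / 2 + 1) * (n.choose (n / 2) - 1) : ℕ) : ℝ) := by
      exact_mod_cast h1
    rw [Nat.cast_mul, Nat.cast_mul, Nat.cast_sub hCn] at h3
    push_cast at h3 ⊢
    exact h3
  have h4 : (f n : ℝ) / C - 1 ≤ 1 / h := by
    rw [sub_le_iff_le_add, div_le_iff₀ hCpos]
    have h5 : (1 / h + 1) * C = (C + h * C) / h := by
      field_simp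
    rw [h5, le_div_iff₀ hhpos]
    nlinarith
  calc (n : ℝ) * ((f n : ℝ) / C - 1) ≤ n * (1 / h) :=
        mul_le_mul_of_nonneg_left h4 (Nat.cast_nonneg n)
    _ = n / h := by ring

theorem asymptotic :
    Tendsto (fun n : ℕ => (n : ℝ) * ((f n : ℝ) / ((n.choose (n / 2) : ℕ) : ℝ) - 1)) atTop
      (𝓝 2) := by
  rw [Metric.tendsto_atTop]
  intro ε hε
  obtain ⟨δ, hδ⟩ : ∃ δ, δ = min (ε / 4) 1 := ⟨_, rfl⟩
  have hδ0 : 0 < δ := by
    rw [hδ]
    exact lt_min (by linarith) one_pos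
  have hδ1 : δ ≤ 1 := by rw [hδ]; exact min_le_right _ _
  have hδ2 : δ ≤ ε / 4 := by rw [hδ]; exact min_le_left _ _
  obtain ⟨K, hK⟩ := eventually_atTop.1 (even_lower hδ0)
  obtain ⟨K2, hK2⟩ := exists_nat_gt (4 / ε)
  refine ⟨max (2 * K + 2) (K2 + 4), ?_⟩
  intro n hn
  have hn1 : 2 * K + 2 ≤ n := (le_max_left _ _).trans hn
  have hn2 : K2 + 4 ≤ n := (le_max_right _ _).trans hn
  have hup := upper_real (n := n) (by omega)
  have hup2 : (n : ℝ) / ((n / 2 : ℕ) : ℝ) < 2 + ε := by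
    have h1 : (n : ℝ) ≤ 2 * ((n / 2 : ℕ) : ℝ) + 1 := by
      have : n ≤ 2 * (n / 2) + 1 := by omega
      exact_mod_cast this
    have h2 : (K2 : ℝ) + 4 ≤ n := by exact_mod_cast hn2
    have h3 : (0 : ℝ) < 4 / ε := by positivity
    have h5 : (0 : ℝ) < ((n / 2 : ℕ) : ℝ) := by linarith
    rw [div_lt_iff₀ h5]
    have h6 : 4 / ε < 2 * ((n / 2 : ℕ) : ℝ) + 1 - 4 := by linarith
    have h7 : 4 < (2 * ((n / 2 : ℕ) : ℝ) - 3) * ε := by
      have h8 : 4 / ε < 2 * ((n / 2 : ℕ) : ℝ) - 3 := by linarith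
      rwa [div_lt_iff₀ hε] at h8
    nlinarith
  have hlow : 2 - 2 * δ ≤ (n : ℝ) * ((f n : ℝ) / ((n.choose (n / 2) : ℕ) : ℝ) - 1) := by
    rcases Nat.even_or_odd' n with ⟨k, hk | hk⟩
    · have h1 := hK k (by omega)
      have h2 : n / 2 = k := by omega
      rw [h2, hk]
      push_cast
      linarith
    · have h1 := hK k (by omega)
      have h2 : n / 2 = k := by omega
      have h3 := odd_from_even (k := k) (by omega) (by linarith : (0 : ℝ) ≤ 1 - δ) h1
      rw [h2, hk]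
      linarith
  rw [Real.dist_eq, abs_lt]
  constructor
  · linarith
  · linarith

end Pool.Agent.H153_MeetIrr
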