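import Pool.Agent.H153_MeetIrr.AsymCube

/-! The normalised weight can be made arbitrarily close to one. -/

namespace Pool.Agent.H153_MeetIrr

/-- `v` is approached by good pairs of small density -/
def T (v : ℝ) : Prop :=
  ∀ ε : ℝ, 0 < ε → ∃ a μ : ℝ, Good a μ ∧ v - ε ≤ a ∧ 0 ≤ μ ∧ μ ≤ ε

theorem T_zero : T 0 := fun ε hε => ⟨0, 0, good_zero, by linarith, le_refl 0, hε.le⟩

theorem T_mono {v v' : ℝ} (h : T v) (hv : v' ≤ v) : T v' := by
  intro ε hε
  obtain ⟨a, μ, h1, h2, h3, h4⟩ := h ε hε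
  exact ⟨a, μ, h1, by linarith, h3, h4⟩

theorem T_step {v : ℝ} (h : T v) (h0 : 0 ≤ v) (h1 : v < 1) : T (v + (1 - v) ^ 2 / 16) := by
  intro ε hε
  obtain ⟨w, hw⟩ : ∃ w, w = 1 - v := ⟨_, rfl⟩
  have hw0 : 0 < w := by rw [hw]; linarith
  have hw1 : w ≤ 1 := by rw [hw]; linarith
  rw [← hw]
  have hvw : v = 1 - w := by rw [hw]; ring
  -- choose s
  have hlim : Filter.Tendsto (fun s : ℕ => (s : ℝ) / 2 ^ s) Filter.atTop (nhds 0) := by
    have := tendsto_self_mul_const_pow_of_lt_one (r := (1 / 2 : ℝ)) (by norm_num) (by norm_num)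
    refine this.congr (fun s => ?_)
    rw [one_div, inv_pow]
    rfl
  have hev : ∀ᶠ s : ℕ in Filter.atTop, (s : ℝ) / 2 ^ s < w ^ 2 / 64 :=
    hlim.eventually_lt_const (by positivity)
  obtain ⟨S, hS⟩ := (hev.and ((Filter.eventually_ge_atTop (⌈32 / w⌉₊ + 1)).and
    (Filter.eventually_ge_atTop ⌈w / (2 * ε)⌉₊))).exists
  obtain ⟨hs1, hs2, hs3⟩ := hS
  have hsw : 32 / w ≤ (S : ℝ) := by
    have h2 := Nat.le_ceil (32 / w)
    have h3 : ((⌈32 / w⌉₊ + 1 : ℕ) : ℝ) ≤ S := by exact_mod_cast hs2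
    push_cast at h3
    linarith
  have hS1 : (1 : ℝ) ≤ S := by
    have h3 : ((⌈32 / w⌉₊ + 1 : ℕ) : ℝ) ≤ S := by exact_mod_cast hs2
    push_cast at h3
    have : (0 : ℝ) ≤ ⌈32 / w⌉₊ := Nat.cast_nonneg _
    linarith
  have hSpos : (0 : ℝ) < S := by linarith
  have hSw : 32 ≤ w * S := by
    rw [div_le_iff₀ hw0] at hsw
    linarith
  have hSe : w / 4 / S ≤ ε / 2 := by
    have h2 := Nat.le_ceil (w / (2 * ε))
    have h3 : ((⌈w / (2 * ε)⌉₊ : ℕ) : ℝ) ≤ S := by exact_mod_cast hs3
    have h4 : w / (2 * ε) ≤ S := h2.trans h3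
    rw [div_le_iff₀ (by positivity)] at h4
    rw [div_le_iff₀ hSpos]
    linarith
  obtain ⟨P, hP⟩ : ∃ P : ℝ, P = 2 ^ S := ⟨_, rfl⟩
  have hPpos : 0 < P := by rw [hP]; positivity
  have hSP : (S : ℝ) + 1 ≤ P := by
    rw [hP]
    exact_mod_cast Nat.lt_two_pow_self
  rw [← hP] at hs1
  -- the starting pair
  obtain ⟨e0, he0⟩ : ∃ e0 : ℝ, e0 = min (w ^ 2 / 64) (min (w / 4 / S) (ε / 2)) := ⟨_, rfl⟩
  have he0pos : 0 < e0 := by
    rw [he0]
    exact lt_min (by positivity) (lt_min (by positivity) (by positivity))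
  have he1 : e0 ≤ w ^ 2 / 64 := by rw [he0]; exact min_le_left _ _
  have he2 : e0 ≤ w / 4 / S := by
    rw [he0]; exact (min_le_right _ _).trans (min_le_left _ _)
  have he3 : e0 ≤ ε / 2 := by
    rw [he0]; exact (min_le_right _ _).trans (min_le_right _ _)
  obtain ⟨a0, m0, g0, ga, gm0, gm1⟩ := h e0 he0pos
  -- number of steps
  obtain ⟨N, hN⟩ : ∃ N : ℕ, N = ⌊w / 4 * P / S⌋₊ := ⟨_, rfl⟩
  have hN1 : (N : ℝ) ≤ w / 4 * P / S := by
    rw [hN]
    exact Nat.floor_le (by positivity)
  have hN2 : w / 4 * P / S < N + 1 := by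
    rw [hN]
    exact Nat.lt_floor_add_one _
  have key : ∀ i : ℕ, i ≤ N → ∃ a μ : ℝ, Good a μ ∧
      min (v + w ^ 2 / 16) (v - e0 + i * (S * (3 * w / 8) / P)) ≤ a ∧ 0 ≤ μ ∧
        μ ≤ m0 + i / P := by
    intro i
    induction i with
    | zero =>
      intro _
      refine ⟨a0, m0, g0, ?_, gm0, by simp⟩
      apply (min_le_right _ _).trans
      simp only [Nat.cast_zero, zero_mul, add_zero]
      exact ga
    | succ i ih =>
      intro hi
      obtain ⟨a, μ, g1, g2, g3, g4⟩ := ih (by omega)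
      refine ⟨_, _, good_step g1 S, ?_, ?_, ?_⟩
      · rw [← hP]
        obtain ⟨y, hy⟩ : ∃ y, y = min (v + w ^ 2 / 16)
          (v - e0 + i * (S * (3 * w / 8) / P)) := ⟨_, rfl⟩
        rw [← hy] at g2
        have hy1 : y ≤ v + w ^ 2 / 16 := by rw [hy]; exact min_le_left _ _
        have hSm : S * μ ≤ w / 2 := by
          have hiN : (i : ℝ) ≤ N := by
            have : i ≤ N := by omega
            exact_mod_cast this
          have h5 : (i : ℝ) / P ≤ w / 4 / S := by
            rw [div_le_iff₀ hPpos]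
            calc (i : ℝ) ≤ N := hiN
              _ ≤ w / 4 * P / S := hN1
              _ = w / 4 / S * P := by ring
          have h6 : μ ≤ 2 * (w / 4 / S) := by linarith
          calc S * μ ≤ S * (2 * (w / 4 / S)) := by
                apply mul_le_mul_of_nonneg_left h6 hSpos.le
            _ = w / 2 := by field_simp; norm_num
        -- numerator bound
        have h7 : S * (3 * w / 8) ≤ (S - 1) - (1 + S) * y - S * (S - 1) * μ := by
          have h8 : (S - 1) * (S * μ) ≤ (S - 1) * (w / 2) :=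
            mul_le_mul_of_nonneg_left hSm (by linarith)
          have h9 : (1 + S) * y ≤ (1 + S) * (v + w ^ 2 / 16) :=
            mul_le_mul_of_nonneg_left hy1 (by linarith)
          have h10 : w ^ 2 ≤ w := by nlinarith
          have h11 : (S : ℝ) * w ^ 2 ≤ S * w := mul_le_mul_of_nonneg_left h10 hSpos.le
          rw [hvw] at h9
          nlinarith
        have h12 : y + S * (3 * w / 8) / P ≤
            a + ((S - 1) - (1 + S) * a - S * (S - 1) * μ) / P := by
          have h13 : (1 + S) / P * (a - y) ≤ 1 * (a - y) := by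
            apply mul_le_mul_of_nonneg_right _ (by linarith)
            rw [div_le_one hPpos]
            linarith
          have h14 : S * (3 * w / 8) / P ≤ ((S - 1) - (1 + S) * y - S * (S - 1) * μ) / P :=
            div_le_div_of_nonneg_right h7 hPpos.le
          have h15 : ((S - 1) - (1 + S) * a - S * (S - 1) * μ) / P =
              ((S - 1) - (1 + S) * y - S * (S - 1) * μ) / P - (1 + S) / P * (a - y) := by
            field_simp
            ring
          rw [h15]
          linarith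
        refine le_trans ?_ h12
        have h16 : 0 ≤ S * (3 * w / 8) / P := by positivity
        rw [hy]
        rcases le_total (v + w ^ 2 / 16) (v - e0 + i * (S * (3 * w / 8) / P)) with h17 | h17
        · rw [min_eq_left h17]
          refine (min_le_left _ _).trans ?_
          linarith
        · rw [min_eq_right h17]
          refine (min_le_right _ _).trans ?_
          push_cast
          linarith
      · rw [← hP]
        have h5 : (1 + S) / P * μ ≤ 1 * μ := by
          apply mul_le_mul_of_nonneg_right _ g3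
          rw [div_le_one hPpos]
          linarith
        have h6 : (1 - (1 + S) * μ) / P = 1 / P - (1 + S) / P * μ := by
          field_simp
        rw [h6]
        have : 0 < 1 / P := by positivity
        linarith
      · rw [← hP]
        have h6 : (1 - (1 + S) * μ) / P = 1 / P - (1 + S) / P * μ := by
          field_simp
        rw [h6]
        have h7 : 0 ≤ (1 + S) / P * μ := by positivity
        have h8 : ((i + 1 : ℕ) : ℝ) / P = i / P + 1 / P := by
          push_cast
          ring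
        rw [h8]
        linarith
  obtain ⟨a, μ, g1, g2, g3, g4⟩ := key N le_rfl
  refine ⟨a, μ, g1, ?_, g3, ?_⟩
  · have h5 : w / 4 - w ^ 2 / 64 ≤ N * S / P := by
      have h6 : w / 4 * P / S - 1 ≤ N := by linarith
      have h7 : (w / 4 * P / S - 1) * S / P ≤ N * S / P := by
        apply div_le_div_of_nonneg_right _ hPpos.le
        exact mul_le_mul_of_nonneg_right h6 hSpos.le
      have h8 : (w / 4 * P / S - 1) * S / P = w / 4 - S / P := by
        field_simp
      rw [h8] at h7
      linarith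
    have h9 : v + w ^ 2 / 16 ≤ v - e0 + N * (S * (3 * w / 8) / P) := by
      have h10 : (N : ℝ) * (S * (3 * w / 8) / P) = (3 * w / 8) * (N * S / P) := by ring
      rw [h10]
      have h11 : (3 * w / 8) * (w / 4 - w ^ 2 / 64) ≤ (3 * w / 8) * (N * S / P) :=
        mul_le_mul_of_nonneg_left h5 (by positivity)
      have h12 : w ^ 3 ≤ w ^ 2 := by nlinarith [sq_nonneg w]
      nlinarith
    rw [min_eq_left h9] at g2
    linarith
  · have h5 : (N : ℝ) / P ≤ w / 4 / S := by
      rw [div_le_iff₀ hPpos]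
      calc (N : ℝ) ≤ w / 4 * P / S := hN1
        _ = w / 4 / S * P := by ring
    linarith

theorem T_seq (j : ℕ) : T (1 - 16 / (j + 16)) := by
  induction j with
  | zero =>
    have : (1 : ℝ) - 16 / ((0 : ℕ) + 16) = 0 := by norm_num
    rw [this]
    exact T_zero
  | succ j ih =>
    have hj : (0 : ℝ) ≤ j := Nat.cast_nonneg j
    have h1 : (0 : ℝ) ≤ 1 - 16 / (j + 16) := by
      rw [sub_nonneg, div_le_one (by linarith)]
      linarith
    have h2 : (1 : ℝ) - 16 / (j + 16) < 1 := by
      have : (0 : ℝ) < 16 / (j + 16) := by positivity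
      linarith
    refine T_mono (T_step ih h1 h2) ?_
    push_cast
    have h3 : (1 : ℝ) - (1 - 16 / (j + 16)) = 16 / (j + 16) := by ring
    rw [h3]
    have h4 : (1 : ℝ) - 16 / (j + 16) + (16 / (j + 16)) ^ 2 / 16 -
        (1 - 16 / (j + 1 + 16)) = 16 / ((j + 16) ^ 2 * (j + 17)) := by
      field_simp
      ring
    have h5 : (0 : ℝ) < 16 / ((j + 16) ^ 2 * (j + 17)) := by positivity
    linarith

theorem exists_good {ε : ℝ} (hε : 0 < ε) : ∃ a μ : ℝ, Good a μ ∧ 1 - ε ≤ a := by
  obtain ⟨j, hj⟩ := exists_nat_gt (16 / (ε / 2))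
  obtain ⟨a, μ, h1, h2, h3, h4⟩ := T_seq j (ε / 2) (by positivity)
  refine ⟨a, μ, h1, ?_⟩
  have h5 : (16 : ℝ) / (j + 16) ≤ ε / 2 := by
    have hj0 : (0 : ℝ) ≤ j := Nat.cast_nonneg j
    rw [div_le_iff₀ (by linarith)]
    rw [div_lt_iff₀ (by positivity)] at hj
    nlinarith
  linarith

end Pool.Agent.H153_MeetIrr
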