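import Mathlib

/-! Families of finite sets in which every member has a private element, that is an element
belonging to no smaller member. The main counting bound on such families. -/

namespace Pool.Agent.H153_MeetIrr

open Finset

variable {α : Type*} [DecidableEq α]

/-- Every member of the family has a private element: an element of it which lies in no member
of the family that is properly contained in it. -/
def Priv (F : Finset (Finset α)) : Prop :=
  ∀ A ∈ F, ∃ x ∈ A, ∀ B ∈ F, B ⊂ A → x ∉ B

/-- Union of the members contained in `A`. -/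
def intr (F : Finset (Finset α)) (A : Finset α) : Finset α :=
  (F.filter (fun B => B ⊆ A)).sup id

/-- Union of the members properly contained in `A`. -/
def intr' (F : Finset (Finset α)) (A : Finset α) : Finset α :=
  (F.filter (fun B => B ⊂ A)).sup id

theorem mem_intr {F : Finset (Finset α)} {A : Finset α} {x : α} :
    x ∈ intr F A ↔ ∃ B ∈ F, B ⊆ A ∧ x ∈ B := by
  simp only [intr, Finset.mem_sup, Finset.mem_filter, id]
  constructor
  · rintro ⟨B, ⟨h1, h2⟩, h3⟩
    exact ⟨B, h1, h2, h3⟩
  · rintro ⟨B, h1, h2, h3⟩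
    exact ⟨B, ⟨h1, h2⟩, h3⟩

theorem mem_intr' {F : Finset (Finset α)} {A : Finset α} {x : α} :
    x ∈ intr' F A ↔ ∃ B ∈ F, B ⊂ A ∧ x ∈ B := by
  simp only [intr', Finset.mem_sup, Finset.mem_filter, id]
  constructor
  · rintro ⟨B, ⟨h1, h2⟩, h3⟩
    exact ⟨B, h1, h2, h3⟩
  · rintro ⟨B, h1, h2, h3⟩
    exact ⟨B, ⟨h1, h2⟩, h3⟩

theorem intr_sub (F : Finset (Finset α)) (A : Finset α) : intr F A ⊆ A := by
  intro x hx
  obtain ⟨B, _, h2, h3⟩ := mem_intr.1 hx
  exact h2 h3

theorem intr'_sub_intr (F : Finset (Finset α)) (A : Finset α) : intr' F A ⊆ intr F A := by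
  intro x hx
  obtain ⟨B, h1, h2, h3⟩ := mem_intr'.1 hx
  exact mem_intr.2 ⟨B, h1, h2.subset, h3⟩

theorem intr'_sub (F : Finset (Finset α)) (A : Finset α) : intr' F A ⊆ A :=
  (intr'_sub_intr F A).trans (intr_sub F A)

theorem intr_mono {F : Finset (Finset α)} {A B : Finset α} (h : A ⊆ B) :
    intr F A ⊆ intr F B := by
  intro x hx
  obtain ⟨C, h1, h2, h3⟩ := mem_intr.1 hx
  exact mem_intr.2 ⟨C, h1, h2.trans h, h3⟩

theorem sub_intr_of_mem {F : Finset (Finset α)} {A B : Finset α} (hB : B ∈ F) (h : B ⊆ A) :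
    B ⊆ intr F A := fun _ hx => mem_intr.2 ⟨B, hB, h, hx⟩

theorem sub_intr'_of_mem {F : Finset (Finset α)} {A B : Finset α} (hB : B ∈ F) (h : B ⊂ A) :
    B ⊆ intr' F A := fun _ hx => mem_intr'.2 ⟨B, hB, h, hx⟩

theorem intr_of_mem {F : Finset (Finset α)} {A : Finset α} (hA : A ∈ F) : intr F A = A :=
  Finset.Subset.antisymm (intr_sub F A) (sub_intr_of_mem hA (Finset.Subset.refl A))

/-- A union-closed set strictly below `A` lies in `intr' F A`. -/
theorem sub_intr'_of_closed {F : Finset (Finset α)} {A D : Finset α} (hD : intr F D = D)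
    (h : D ⊂ A) : D ⊆ intr' F A := by
  intro x hx
  rw [← hD] at hx
  obtain ⟨B, h1, h2, h3⟩ := mem_intr.1 hx
  exact mem_intr'.2 ⟨B, h1, lt_of_le_of_lt h2 h, h3⟩

theorem sub_intr_of_closed {F : Finset (Finset α)} {A D : Finset α} (hD : intr F D = D)
    (h : D ⊆ A) : D ⊆ intr F A := by
  intro x hx
  rw [← hD] at hx
  obtain ⟨B, h1, h2, h3⟩ := mem_intr.1 hx
  exact mem_intr.2 ⟨B, h1, h2.trans h, h3⟩

theorem closed_union {F : Finset (Finset α)} {A B : Finset α} (hA : intr F A = A)
    (hB : intr F B = B) : intr F (A ∪ B) = A ∪ B := by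
  apply Finset.Subset.antisymm (intr_sub _ _)
  apply Finset.union_subset
  · exact sub_intr_of_closed hA Finset.subset_union_left
  · exact sub_intr_of_closed hB Finset.subset_union_right

theorem closed_of_red {F : Finset (Finset α)} {A : Finset α} (h : intr' F A = A) :
    intr F A = A := by
  apply Finset.Subset.antisymm (intr_sub _ _)
  conv_lhs => rw [← h]
  exact intr'_sub_intr F A

/-- closed and not a member implies reducible. -/
theorem red_of_closed {F : Finset (Finset α)} {A : Finset α} (h : intr F A = A) (hA : A ∉ F) :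
    intr' F A = A := by
  apply Finset.Subset.antisymm (intr'_sub _ _)
  intro x hx
  rw [← h] at hx
  obtain ⟨B, h1, h2, h3⟩ := mem_intr.1 hx
  refine mem_intr'.2 ⟨B, h1, ?_, h3⟩
  rcases eq_or_ssubset_of_subset h2 with h4 | h4
  · exact absurd (h4 ▸ h1) hA
  · exact h4

theorem not_red_of_mem {F : Finset (Finset α)} (hF : Priv F) {A : Finset α} (hA : A ∈ F) :
    intr' F A ≠ A := by
  intro h
  obtain ⟨x, hx, hx2⟩ := hF A hA
  rw [← h] at hx
  obtain ⟨B, h1, h2, h3⟩ := mem_intr'.1 hx
  exact hx2 B h1 h2 h3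

/-- two distinct closed lower neighbours make a set reducible. -/
theorem red_of_two {F : Finset (Finset α)} {A : Finset α} {x y : α} (hx : x ∈ A) (hy : y ∈ A)
    (hxy : x ≠ y) (h1 : intr F (A.erase x) = A.erase x) (h2 : intr F (A.erase y) = A.erase y) :
    intr' F A = A := by
  apply Finset.Subset.antisymm (intr'_sub _ _)
  intro z hz
  by_cases hzx : z = x
  · subst hzx
    exact sub_intr'_of_closed h2 (Finset.erase_ssubset hy) (Finset.mem_erase.2 ⟨hxy, hz⟩)
  · exact sub_intr'_of_closed h1 (Finset.erase_ssubset hx) (Finset.mem_erase.2 ⟨hzx, hz⟩)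

/-- The key local construction. `D` is closed with fewer than `k` elements, all sets with `k`
elements are closed, `Y₀` is such that `D ∪ Y₀` has interior `D`, and adding `x` destroys this.
Then there is a closed set `V`, `D ⊂ V ⊆ D ∪ Y₀ ∪ {x}`, containing `x`, all of whose
one-point deletions at points outside `D` have interior exactly `D`. -/
theorem exists_step {F : Finset (Finset α)} {k : ℕ}
    (hk : ∀ W : Finset α, W.card = k → intr F W = W)
    {D : Finset α} (hD : intr F D = D) (hDk : D.card < k) {Y₀ : Finset α} {x : α}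
    (hxD : x ∉ D) (hY : intr F (D ∪ Y₀) = D) (hx : intr F (D ∪ insert x Y₀) ≠ D) :
    ∃ V : Finset α, D ⊆ V ∧ x ∈ V ∧ V ⊆ D ∪ insert x Y₀ ∧ intr F V = V ∧ V.card ≤ k ∧
      ∀ y ∈ V, y ∉ D → intr F (V.erase y) = D := by
  classical
  -- the subsets of `insert x Y₀` whose addition changes the interior
  let S : Finset (Finset α) := (insert x Y₀).powerset.filter (fun Y => intr F (D ∪ Y) ≠ D)
  have hS : S.Nonempty := ⟨insert x Y₀, by
    simp only [S, Finset.mem_filter, Finset.mem_powerset]
    exact ⟨Finset.Subset.refl _, hx⟩⟩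
  obtain ⟨Y, hYS, hYmin⟩ := Finset.exists_min_image S Finset.card hS
  simp only [S, Finset.mem_filter, Finset.mem_powerset] at hYS hYmin
  obtain ⟨hY1, hY2⟩ := hYS
  have hDsub : ∀ Z : Finset α, D ⊆ intr F (D ∪ Z) := fun Z =>
    sub_intr_of_closed hD Finset.subset_union_left
  have hxY : x ∈ Y := by
    by_contra hxY
    apply hY2
    apply Finset.Subset.antisymm _ (hDsub Y)
    have : D ∪ Y ⊆ D ∪ Y₀ := by
      apply Finset.union_subset_union_right
      intro z hz
      rcases Finset.mem_insert.1 (hY1 hz) with h | h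
      · exact absurd (h ▸ hz) hxY
      · exact h
    calc intr F (D ∪ Y) ⊆ intr F (D ∪ Y₀) := intr_mono this
      _ = D := hY
  have herase : ∀ y ∈ D ∪ Y, y ∉ D → intr F ((D ∪ Y).erase y) = D := by
    intro y hy hyD
    have hyY : y ∈ Y := by
      rcases Finset.mem_union.1 hy with h | h
      · exact absurd h hyD
      · exact h
    have h1 : (D ∪ Y).erase y = D ∪ Y.erase y := by
      ext z
      simp only [Finset.mem_erase, Finset.mem_union]
      constructor
      · rintro ⟨h1, h2 | h2⟩
        · exact Or.inl h2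
        · exact Or.inr ⟨h1, h2⟩
      · rintro (h2 | ⟨h1, h2⟩)
        · exact ⟨fun h => hyD (h ▸ h2), Or.inl h2⟩
        · exact ⟨h1, Or.inr h2⟩
    rw [h1]
    by_contra hne
    have h2 := hYmin (Y.erase y) ⟨(Finset.erase_subset _ _).trans hY1, hne⟩
    have h3 : (Y.erase y).card < Y.card := Finset.card_erase_lt_of_mem hyY
    omega
  have hcl : intr F (D ∪ Y) = D ∪ Y := by
    have : ∃ B ∈ F, B ⊆ D ∪ Y ∧ ¬ B ⊆ D := by
      by_contra hcon
      push Not at hcon
      apply hY2
      apply Finset.Subset.antisymm _ (hDsub Y)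
      intro z hz
      obtain ⟨B, h1, h2, h3⟩ := mem_intr.1 hz
      exact hcon B h1 h2 h3
    obtain ⟨B, hB, hBV, hBD⟩ := this
    have hVB : ∀ y ∈ D ∪ Y, y ∉ D → y ∈ B := by
      intro y hy hyD
      by_contra hyB
      apply hBD
      have h1 : B ⊆ (D ∪ Y).erase y := fun z hz =>
        Finset.mem_erase.2 ⟨fun h => hyB (h ▸ hz), hBV hz⟩
      calc B ⊆ intr F ((D ∪ Y).erase y) := sub_intr_of_mem hB h1
        _ = D := herase y hy hyD
    have h2 : D ∪ Y = D ∪ B := by
      ext z
      constructor
      · intro hz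
        by_cases hzD : z ∈ D
        · exact Finset.mem_union_left _ hzD
        · exact Finset.mem_union_right _ (hVB z hz hzD)
      · intro hz
        rcases Finset.mem_union.1 hz with h | h
        · exact Finset.mem_union_left _ h
        · exact hBV h
    rw [h2]
    exact closed_union hD (intr_of_mem hB)
  refine ⟨D ∪ Y, Finset.subset_union_left, Finset.mem_union_right _ hxY,
    Finset.union_subset_union_right hY1, hcl, ?_, herase⟩
  by_contra hcard
  push Not at hcard
  have h1 : k ≤ ((D ∪ Y).erase x).card := by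
    rw [Finset.card_erase_of_mem (Finset.mem_union_right _ hxY)]
    omega
  obtain ⟨W, hW1, hW2⟩ := Finset.exists_subset_card_eq h1
  have h3 : W ⊆ D := by
    calc W ⊆ intr F ((D ∪ Y).erase x) := sub_intr_of_closed (hk W hW2) hW1
      _ = D := herase x (Finset.mem_union_right _ hxY) hxD
  have := Finset.card_le_card h3
  omega

end Pool.Agent.H153_MeetIrr
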