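import Pool.Agent.H153_MeetIrr.Core

/-! The counting bound for families with private elements, all of whose members have at most
`k` elements, where the ground set has `2k-1` or `2k` elements. -/

namespace Pool.Agent.H153_MeetIrr

open Finset

variable {α : Type*} [DecidableEq α] [Fintype α]

/-- Points outside `D` whose addition to `D` does not give a reducible set. -/
def X (F : Finset (Finset α)) (D : Finset α) : Finset α :=
  Finset.univ.filter (fun x => x ∉ D ∧ intr' F (insert x D) ≠ insert x D)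

theorem mem_X {F : Finset (Finset α)} {D : Finset α} {x : α} :
    x ∈ X F D ↔ x ∉ D ∧ intr' F (insert x D) ≠ insert x D := by
  simp [X]

/-- A maximal face. -/
theorem exists_face {F : Finset (Finset α)} {k : ℕ}
    (hk : ∀ W : Finset α, W.card = k → intr F W = W)
    {D : Finset α} (hD : intr F D = D) (hDk : D.card < k) :
    ∃ Y : Finset α, Y ⊆ X F D ∧ intr F (D ∪ Y) = D ∧
      (∀ x ∈ X F D, x ∉ Y → intr F (D ∪ insert x Y) ≠ D) ∧ D.card + Y.card < k := by
  let S : Finset (Finset α) := (X F D).powerset.filter (fun Y => intr F (D ∪ Y) = D)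
  have hS : S.Nonempty := ⟨∅, by simp [S, hD]⟩
  obtain ⟨Y, hYS, hYmax⟩ := Finset.exists_max_image S Finset.card hS
  simp only [S, Finset.mem_filter, Finset.mem_powerset] at hYS hYmax
  obtain ⟨hY1, hY2⟩ := hYS
  refine ⟨Y, hY1, hY2, ?_, ?_⟩
  · intro x hx hxY hne
    have h := hYmax (insert x Y) ⟨Finset.insert_subset hx hY1, hne⟩
    rw [Finset.card_insert_of_notMem hxY] at h
    omega
  · by_contra hcon
    have hdis : Disjoint D Y := by
      rw [Finset.disjoint_left]
      intro z hz hzY
      exact (mem_X.1 (hY1 hzY)).1 hz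
    have h1 : k ≤ (D ∪ Y).card := by
      rw [Finset.card_union_of_disjoint hdis]
      omega
    obtain ⟨W, hW1, hW2⟩ := Finset.exists_subset_card_eq h1
    have h3 : W ⊆ D := by
      calc W ⊆ intr F (D ∪ Y) := sub_intr_of_closed (hk W hW2) hW1
        _ = D := hY2
    have := Finset.card_le_card h3
    omega

/-- closed sets with between `1` and `k - 1` elements -/
def DD (F : Finset (Finset α)) (k : ℕ) : Finset (Finset α) :=
  Finset.univ.filter (fun D => intr F D = D ∧ 1 ≤ D.card ∧ D.card < k)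

/-- reducible sets with between `1` and `k` elements -/
def RR (F : Finset (Finset α)) (k : ℕ) : Finset (Finset α) :=
  Finset.univ.filter (fun A => intr' F A = A ∧ 1 ≤ A.card ∧ A.card ≤ k)

/-- points of `A` whose deletion gives a non-closed set -/
def ZZ (F : Finset (Finset α)) (A : Finset α) : Finset α :=
  A.filter (fun x => intr F (A.erase x) ≠ A.erase x)

theorem inj_count {F : Finset (Finset α)} (hF : Priv F) {k : ℕ}
    (hk : ∀ W : Finset α, W.card = k → intr F W = W)
    (Y : Finset α → Finset α)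
    (hY2 : ∀ D ∈ DD F k, intr F (D ∪ Y D) = D)
    (hY3 : ∀ D ∈ DD F k, ∀ x ∈ X F D, x ∉ Y D → intr F (D ∪ insert x (Y D)) ≠ D) :
    ∑ D ∈ DD F k, (X F D \ Y D).card ≤
      (F.filter (fun V => intr' F V ≠ ∅)).card + ∑ A ∈ RR F k, (ZZ F A).card := by
  classical
  have hstep : ∀ p : (Σ _ : Finset α, α), ∃ V : Finset α,
      p ∈ (DD F k).sigma (fun D => X F D \ Y D) →
      p.1 ⊆ V ∧ p.2 ∈ V ∧ V ⊆ p.1 ∪ insert p.2 (Y p.1) ∧ intr F V = V ∧ V.card ≤ k ∧
      ∀ y ∈ V, y ∉ p.1 → intr F (V.erase y) = p.1 := by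
    intro p
    by_cases hp : p ∈ (DD F k).sigma (fun D => X F D \ Y D)
    · obtain ⟨D, x⟩ := p
      rw [Finset.mem_sigma] at hp
      obtain ⟨hD, hx⟩ := hp
      simp only at hD hx
      rw [Finset.mem_sdiff] at hx
      have hD' := (Finset.mem_filter.1 hD).2
      obtain ⟨V, hV⟩ := exists_step hk hD'.1 hD'.2.2 (mem_X.1 hx.1).1 (hY2 D hD)
        (hY3 D hD x hx.1 hx.2)
      exact ⟨V, fun _ => hV⟩
    · exact ⟨∅, fun h => absurd h hp⟩
  choose V hV using hstep
  -- facts when V is a member
  have hmemF : ∀ p ∈ (DD F k).sigma (fun D => X F D \ Y D), V p ∈ F → intr' F (V p) = p.1 := by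
    intro p hp hVF
    obtain ⟨h1, h2, h3, h4, h5, h6⟩ := hV p hp
    obtain ⟨D, x⟩ := p
    rw [Finset.mem_sigma] at hp
    obtain ⟨hD, hx⟩ := hp
    simp only at hD hx h1 h2 h3 h6 ⊢
    rw [Finset.mem_sdiff] at hx
    have hxD := (mem_X.1 hx.1).1
    have hDcl := (Finset.mem_filter.1 hD).2.1
    have hDV : D ⊂ V ⟨D, x⟩ := by
      refine Finset.ssubset_iff_subset_ne.2 ⟨h1, ?_⟩
      intro h
      apply hxD
      rw [h]
      exact h2
    have hDi : D ⊆ intr' F (V ⟨D, x⟩) := sub_intr'_of_closed hDcl hDV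
    apply Finset.Subset.antisymm _ hDi
    intro z hz
    obtain ⟨B, hB1, hB2, hB3⟩ := mem_intr'.1 hz
    by_contra hzD
    have hVB : ∀ y ∈ V ⟨D, x⟩, y ∉ D → y ∈ B := by
      intro y hy hyD
      by_contra hyB
      have h7 : B ⊆ (V ⟨D, x⟩).erase y := fun w hw =>
        Finset.mem_erase.2 ⟨fun h => hyB (h ▸ hw), hB2.subset hw⟩
      have h8 : B ⊆ D := by
        calc B ⊆ intr F ((V ⟨D, x⟩).erase y) := sub_intr_of_mem hB1 h7
          _ = D := h6 y hy hyD
      exact hzD (h8 hB3)
    apply not_red_of_mem hF hVF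
    apply Finset.Subset.antisymm (intr'_sub _ _)
    intro w hw
    by_cases hwD : w ∈ D
    · exact hDi hwD
    · exact sub_intr'_of_mem hB1 hB2 (hVB w hw hwD)
  rw [← Finset.card_sigma, ← Finset.card_sigma, ← Finset.card_disjSum]
  apply Finset.card_le_card_of_injOn
    (fun p => if V p ∈ F then Sum.inl (V p) else Sum.inr ⟨V p, p.2⟩)
  · intro p hp
    have hp' : p ∈ (DD F k).sigma (fun D => X F D \ Y D) := hp
    obtain ⟨h1, h2, h3, h4, h5, h6⟩ := hV p hp'
    have hp2 := Finset.mem_sigma.1 hp'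
    have hD := (Finset.mem_filter.1 hp2.1).2
    have hx := Finset.mem_sdiff.1 hp2.2
    by_cases hVF : V p ∈ F
    · simp only [hVF, if_true]
      rw [Finset.mem_coe, Finset.inl_mem_disjSum, Finset.mem_filter]
      refine ⟨hVF, ?_⟩
      rw [hmemF p hp' hVF]
      intro h
      have := hD.2.1
      rw [h] at this
      simp at this
    · simp only [hVF, if_false]
      rw [Finset.mem_coe, Finset.inr_mem_disjSum, Finset.mem_sigma]
      refine ⟨?_, ?_⟩
      · simp only [RR, Finset.mem_filter, Finset.mem_univ, true_and]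
        exact ⟨red_of_closed h4 hVF, Finset.card_pos.2 ⟨_, h2⟩, h5⟩
      · simp only [ZZ, Finset.mem_filter]
        refine ⟨h2, ?_⟩
        rw [h6 p.2 h2 (mem_X.1 hx.1).1]
        intro h
        have h7 : V p = insert p.2 p.1 := by
          rw [h, Finset.insert_erase h2]
        apply (mem_X.1 hx.1).2
        rw [← h7]
        exact red_of_closed h4 hVF
  · intro p hp q hq hpq
    have hp' : p ∈ (DD F k).sigma (fun D => X F D \ Y D) := hp
    have hq' : q ∈ (DD F k).sigma (fun D => X F D \ Y D) := hq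
    obtain ⟨h1, h2, h3, h4, h5, h6⟩ := hV p hp'
    obtain ⟨g1, g2, g3, g4, g5, g6⟩ := hV q hq'
    have hp2 := Finset.mem_sigma.1 hp'
    have hq2 := Finset.mem_sigma.1 hq'
    have hpx := Finset.mem_sdiff.1 hp2.2
    have hqx := Finset.mem_sdiff.1 hq2.2
    simp only at hpq
    by_cases hVF : V p ∈ F
    · by_cases hVF' : V q ∈ F
      · simp only [hVF, hVF', if_true, Sum.inl.injEq] at hpq
        have e1 : p.1 = q.1 := by
          rw [← hmemF p hp' hVF, ← hmemF q hq' hVF', hpq]
        have e2 : p.2 = q.2 := by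
          have h7 : q.2 ∈ p.1 ∪ insert p.2 (Y p.1) := h3 (hpq ▸ g2)
          rw [Finset.mem_union, Finset.mem_insert] at h7
          rcases h7 with h7 | h7 | h7
          · rw [e1] at h7
            exact absurd h7 (mem_X.1 hqx.1).1
          · exact h7.symm
          · rw [e1] at h7
            exact absurd h7 hqx.2
        obtain ⟨p1, p2⟩ := p
        obtain ⟨q1, q2⟩ := q
        simp only at e1 e2
        rw [e1, e2]
      · simp only [hVF, hVF', if_true, if_false] at hpq
        cases hpq
    · by_cases hVF' : V q ∈ F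
      · simp only [hVF, hVF', if_true, if_false] at hpq
        cases hpq
      · simp only [hVF, hVF', if_false, Sum.inr.injEq, Sigma.mk.injEq, heq_eq_eq] at hpq
        obtain ⟨e1, e2⟩ := hpq
        have e3 : p.1 = q.1 := by
          rw [← h6 p.2 h2 (mem_X.1 hpx.1).1, ← g6 q.2 g2 (mem_X.1 hqx.1).1, e1, e2]
        obtain ⟨p1, p2⟩ := p
        obtain ⟨q1, q2⟩ := q
        simp only at e2 e3
        rw [e2, e3]

/-- points whose addition to `D` gives a reducible set -/
def Xr (F : Finset (Finset α)) (D : Finset α) : Finset α :=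
  Finset.univ.filter (fun x => x ∉ D ∧ intr' F (insert x D) = insert x D)

theorem card_Xr_add (F : Finset (Finset α)) (D : Finset α) :
    (Xr F D).card + (X F D).card + D.card = Fintype.card α := by
  have h1 : (Xr F D).card + (X F D).card = (Dᶜ).card := by
    rw [← Finset.card_union_of_disjoint]
    · congr 1
      ext x
      simp only [Xr, X, Finset.mem_union, Finset.mem_filter, Finset.mem_univ, true_and,
        Finset.mem_compl]
      tauto
    · rw [Finset.disjoint_left]
      intro x hx hx2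
      simp only [Xr, X, Finset.mem_filter, Finset.mem_univ, true_and] at hx hx2
      exact hx2.2 hx.2
  rw [h1, Finset.card_compl]
  have := Finset.card_le_univ D
  omega

theorem card_F_add {F : Finset (Finset α)} (hF : Priv F) {k : ℕ} (hk1 : 1 ≤ k)
    (hlev : ∀ A ∈ F, A.card ≤ k)
    (hk : ∀ W : Finset α, W.card = k → intr F W = W) :
    F.card + (RR F k).card = (DD F k).card + (Fintype.card α).choose k := by
  have h1 : F ∪ RR F k = DD F k ∪ Finset.powersetCard k Finset.univ := by
    ext A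
    simp only [RR, DD, Finset.mem_union, Finset.mem_filter, Finset.mem_univ, true_and,
      Finset.mem_powersetCard, Finset.subset_univ]
    constructor
    · rintro (h | ⟨h1, h2, h3⟩)
      · have h1 : 1 ≤ A.card := by
          obtain ⟨x, hx, _⟩ := hF A h
          exact Finset.card_pos.2 ⟨x, hx⟩
        rcases lt_or_eq_of_le (hlev A h) with h2 | h2
        · exact Or.inl ⟨intr_of_mem h, h1, h2⟩
        · exact Or.inr h2
      · rcases lt_or_eq_of_le h3 with h4 | h4
        · exact Or.inl ⟨closed_of_red h1, h2, h4⟩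
        · exact Or.inr h4
    · intro h
      have h2 : intr F A = A ∧ 1 ≤ A.card ∧ A.card ≤ k := by
        rcases h with ⟨h1, h2, h3⟩ | h
        · exact ⟨h1, h2, h3.le⟩
        · exact ⟨hk A h, by omega, by omega⟩
      by_cases hA : A ∈ F
      · exact Or.inl hA
      · exact Or.inr ⟨red_of_closed h2.1 hA, h2.2⟩
  have h2 : Disjoint F (RR F k) := by
    rw [Finset.disjoint_left]
    intro A hA hA2
    exact not_red_of_mem hF hA (Finset.mem_filter.1 hA2).2.1
  have h3 : Disjoint (DD F k) (Finset.powersetCard k (Finset.univ : Finset α)) := by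
    rw [Finset.disjoint_left]
    intro A hA hA2
    have := (Finset.mem_filter.1 hA).2.2.2
    have h4 := (Finset.mem_powersetCard.1 hA2).2
    omega
  have h4 := congrArg Finset.card h1
  rw [Finset.card_union_of_disjoint h2, Finset.card_union_of_disjoint h3,
    Finset.card_powersetCard, Finset.card_univ] at h4
  exact h4

theorem weight_count (F : Finset (Finset α)) (k : ℕ) :
    ∑ D ∈ DD F k, ((Xr F D).card : ℚ) / (D.card + 1) +
      ∑ A ∈ RR F k, ((ZZ F A).card : ℚ) / A.card ≤ (RR F k).card := by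
  classical
  -- split each reducible set by its points
  have h1 : ((RR F k).card : ℚ) = ∑ A ∈ RR F k,
      (((A.filter (fun x => intr F (A.erase x) = A.erase x)).card : ℚ) / A.card +
        ((ZZ F A).card : ℚ) / A.card) := by
    rw [Finset.card_eq_sum_ones]
    push_cast
    apply Finset.sum_congr rfl
    intro A hA
    have hA1 := (Finset.mem_filter.1 hA).2.2.1
    have h2 : (A.filter (fun x => intr F (A.erase x) = A.erase x)).card + (ZZ F A).card
        = A.card := Finset.card_filter_add_card_filter_not _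
    have h3 : (A.card : ℚ) ≠ 0 := by
      have : (0 : ℚ) < A.card := by exact_mod_cast hA1
      exact this.ne'
    rw [← add_div, eq_div_iff h3, one_mul]
    exact_mod_cast h2.symm
  rw [h1, Finset.sum_add_distrib]
  apply add_le_add_left
  -- double counting
  have h2 : ∑ D ∈ DD F k, ((Xr F D).card : ℚ) / (D.card + 1) =
      ∑ p ∈ (DD F k).sigma (fun D => Xr F D), (1 : ℚ) / (p.1.card + 1) := by
    rw [Finset.sum_sigma]
    apply Finset.sum_congr rfl
    intro D _
    simp only
    rw [Finset.sum_const, nsmul_eq_mul]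
    ring
  have h3 : ∑ A ∈ RR F k,
      ((A.filter (fun x => intr F (A.erase x) = A.erase x)).card : ℚ) / A.card =
      ∑ p ∈ (RR F k).sigma (fun A => A.filter (fun x => intr F (A.erase x) = A.erase x)),
        (1 : ℚ) / p.1.card := by
    rw [Finset.sum_sigma]
    apply Finset.sum_congr rfl
    intro D _
    simp only
    rw [Finset.sum_const, nsmul_eq_mul]
    ring
  rw [h2, h3]
  let i : (Σ _ : Finset α, α) → (Σ _ : Finset α, α) := fun p => ⟨insert p.2 p.1, p.2⟩
  have hinj : Set.InjOn i ((DD F k).sigma (fun D => Xr F D)) := by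
    intro p hp q hq hpq
    have hp2 := Finset.mem_sigma.1 (Finset.mem_coe.1 hp)
    have hq2 := Finset.mem_sigma.1 (Finset.mem_coe.1 hq)
    have hp3 := (Finset.mem_filter.1 hp2.2).2.1
    have hq3 := (Finset.mem_filter.1 hq2.2).2.1
    obtain ⟨p1, p2⟩ := p
    obtain ⟨q1, q2⟩ := q
    simp only [i, Sigma.mk.injEq, heq_eq_eq] at hpq
    simp only at hp3 hq3
    obtain ⟨e1, e2⟩ := hpq
    subst e2
    have : p1 = q1 := by
      rw [← Finset.erase_insert hp3, e1, Finset.erase_insert hq3]
    rw [this]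
  calc ∑ p ∈ (DD F k).sigma (fun D => Xr F D), (1 : ℚ) / (p.1.card + 1)
      = ∑ p ∈ (DD F k).sigma (fun D => Xr F D), (1 : ℚ) / ((i p).1.card) := by
        apply Finset.sum_congr rfl
        intro p hp
        have hp2 := Finset.mem_sigma.1 hp
        have hp3 := (Finset.mem_filter.1 hp2.2).2.1
        simp only [i]
        rw [Finset.card_insert_of_notMem hp3]
        push_cast
        rfl
    _ = ∑ q ∈ ((DD F k).sigma (fun D => Xr F D)).image i, (1 : ℚ) / (q.1.card) := by
        rw [Finset.sum_image hinj]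
    _ ≤ ∑ p ∈ (RR F k).sigma (fun A => A.filter (fun x => intr F (A.erase x) = A.erase x)),
        (1 : ℚ) / p.1.card := by
        apply Finset.sum_le_sum_of_subset_of_nonneg
        · intro q hq
          obtain ⟨p, hp, rfl⟩ := Finset.mem_image.1 hq
          have hp2 := Finset.mem_sigma.1 hp
          have hp3 := (Finset.mem_filter.1 hp2.2).2
          have hp4 := (Finset.mem_filter.1 hp2.1).2
          simp only [i, Finset.mem_sigma, RR, Finset.mem_filter, Finset.mem_univ, true_and]
          rw [Finset.card_insert_of_notMem hp3.1]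
          refine ⟨⟨hp3.2, by omega, by omega⟩, Finset.mem_insert_self _ _, ?_⟩
          rw [Finset.erase_insert hp3.1]
          exact hp4.1
        · intro p _ _
          positivity

/-- minimal members -/
theorem minimal_members {F : Finset (Finset α)} (hF : Priv F) {k : ℕ} (hk1 : 1 ≤ k)
    (hkn : k ≤ Fintype.card α)
    (hk : ∀ W : Finset α, W.card = k → intr F W = W) :
    Fintype.card α - k + 1 ≤ (F.filter (fun V => intr' F V = ∅)).card := by
  classical
  by_contra hcon
  push Not at hcon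
  -- choose a point in each minimal member
  have hch : ∀ V : Finset α, ∃ x : α, V ∈ F → x ∈ V := by
    intro V
    by_cases hV : V ∈ F
    · obtain ⟨x, hx, _⟩ := hF V hV
      exact ⟨x, fun _ => hx⟩
    · have : 0 < Fintype.card α := by omega
      obtain ⟨x⟩ := Fintype.card_pos_iff.1 this
      exact ⟨x, fun h => absurd h hV⟩
  choose h hh using hch
  have h1 : ((F.filter (fun V => intr' F V = ∅)).image h).card ≤ Fintype.card α - k :=
    le_trans Finset.card_image_le (by omega)
  have h2 : k ≤ (((F.filter (fun V => intr' F V = ∅)).image h)ᶜ).card := by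
    rw [Finset.card_compl]
    omega
  obtain ⟨W, hW1, hW2⟩ := Finset.exists_subset_card_eq h2
  have hWcl := hk W hW2
  have hWne : W.Nonempty := Finset.card_pos.1 (by omega)
  obtain ⟨x, hx⟩ := hWne
  rw [← hWcl] at hx
  obtain ⟨B, hB1, hB2, _⟩ := mem_intr.1 hx
  obtain ⟨C, hC, hCmin⟩ := Finset.exists_min_image (F.filter (fun C => C ⊆ W)) Finset.card
    ⟨B, Finset.mem_filter.2 ⟨hB1, hB2⟩⟩
  have hC' := Finset.mem_filter.1 hC
  have hCe : intr' F C = ∅ := by
    apply Finset.eq_empty_of_forall_notMem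
    intro z hz
    obtain ⟨E, hE1, hE2, _⟩ := mem_intr'.1 hz
    have := hCmin E (Finset.mem_filter.2 ⟨hE1, hE2.subset.trans hC'.2⟩)
    have h3 := Finset.card_lt_card hE2
    omega
  have h3 : h C ∈ C := hh C hC'.1
  have h4 := hW1 (hC'.2 h3)
  rw [Finset.mem_compl] at h4
  exact h4 (Finset.mem_image_of_mem h (Finset.mem_filter.2 ⟨hC'.1, hCe⟩))

theorem arith_ineq {n k i b c : ℕ} (hn1 : 2 * k ≤ n + 1) (hn2 : n ≤ 2 * k) (hik : i < k)
    (hb : b + i ≤ n) (hc : b ≤ c + (k - 1 - i)) :
    (1 : ℚ) - ((n - i - b : ℕ) : ℚ) / (i + 1) ≤ (c : ℚ) / ((n - k + 1 : ℕ) : ℚ) := by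
  obtain ⟨j, hj⟩ : ∃ j, k = i + 1 + j := ⟨k - (i + 1), by omega⟩
  obtain ⟨δ, hδ⟩ : ∃ δ, n + 1 = 2 * k + δ := ⟨n + 1 - 2 * k, by omega⟩
  have hδ1 : δ ≤ 1 := by omega
  obtain ⟨r, hr⟩ : ∃ r, n = i + b + r := ⟨n - i - b, by omega⟩
  have e1 : n - i - b = r := by omega
  have e2 : n - k + 1 = i + 1 + j + δ := by omega
  have hc' : b ≤ c + j := by omega
  rw [e1, e2]
  have hi : (0 : ℚ) < (i : ℚ) + 1 := by positivity
  have hn : (0 : ℚ) < ((i + 1 + j + δ : ℕ) : ℚ) := by positivity
  rw [le_div_iff₀ hn, ← sub_nonneg]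
  -- b + r = n - i = i + 1 + 2 j + δ
  have e3 : b + r = i + 1 + 2 * j + δ := by omega
  have e3q : (b : ℚ) + r = i + 1 + 2 * j + δ := by exact_mod_cast e3
  have hcq : (b : ℚ) ≤ c + j := by exact_mod_cast hc'
  have hr0 : (0 : ℚ) ≤ r := by positivity
  have hj0 : (0 : ℚ) ≤ j := by positivity
  have hδ0 : (0 : ℚ) ≤ δ := by positivity
  have hc0 : (0 : ℚ) ≤ c := by positivity
  have key : 0 ≤ (c : ℚ) * (i + 1) - ((i : ℚ) + 1 - r) * (i + 1 + j + δ) := by
    -- c ≥ b - j = i + 1 + j + δ - r
    have h1 : (i : ℚ) + 1 + j + δ - r ≤ c := by linarith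
    nlinarith [mul_nonneg hr0 hj0, mul_nonneg hr0 hδ0,
      mul_le_mul_of_nonneg_right h1 hi.le]
  have : (c : ℚ) - (1 - (r : ℚ) / (i + 1)) * ((i + 1 + j + δ : ℕ) : ℚ) =
      ((c : ℚ) * (i + 1) - ((i : ℚ) + 1 - r) * (i + 1 + j + δ)) / (i + 1) := by
    push_cast
    field_simp
  rw [this]
  positivity

/-- The counting bound for families whose members have at most `k` elements and for which
every `k`-set is a union of members. -/
theorem count_main {F : Finset (Finset α)} (hF : Priv F) {k : ℕ} (hk1 : 1 ≤ k)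
    (hn1 : 2 * k ≤ Fintype.card α + 1) (hn2 : Fintype.card α ≤ 2 * k)
    (hlev : ∀ A ∈ F, A.card ≤ k)
    (hk : ∀ W : Finset α, W.card = k → intr F W = W) :
    F.card * (Fintype.card α - k) ≤
      (Fintype.card α - k + 1) * ((Fintype.card α).choose k - 1) := by
  classical
  set n := Fintype.card α with hn
  have hkn : k ≤ n := by omega
  have hface : ∀ D : Finset α, ∃ Y : Finset α, D ∈ DD F k →
      (Y ⊆ X F D ∧ intr F (D ∪ Y) = D ∧
      (∀ x ∈ X F D, x ∉ Y → intr F (D ∪ insert x Y) ≠ D) ∧ D.card + Y.card < k) := by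
    intro D
    by_cases hD : D ∈ DD F k
    · have h := (Finset.mem_filter.1 hD).2
      obtain ⟨Y, hY⟩ := exists_face hk h.1 h.2.2
      exact ⟨Y, fun _ => hY⟩
    · exact ⟨∅, fun h => absurd h hD⟩
  choose Y hY using hface
  have c1 := inj_count hF hk Y (fun D hD => (hY D hD).2.1) (fun D hD => (hY D hD).2.2.1)
  have c2 := card_F_add hF hk1 hlev hk
  have c3 := weight_count F k
  have c4 := minimal_members hF hk1 hkn hk
  have c5 : (F.filter (fun V => intr' F V = ∅)).card +
      (F.filter (fun V => intr' F V ≠ ∅)).card = F.card :=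
    Finset.card_filter_add_card_filter_not _
  -- local inequality
  have c6 : ∀ D ∈ DD F k, (1 : ℚ) - ((Xr F D).card : ℚ) / (D.card + 1) ≤
      ((X F D \ Y D).card : ℚ) / ((n - k + 1 : ℕ) : ℚ) := by
    intro D hD
    have h1 := (Finset.mem_filter.1 hD).2
    have h2 := card_Xr_add F D
    have h3 : (X F D \ Y D).card + (Y D).card = (X F D).card :=
      Finset.card_sdiff_add_card_eq_card (hY D hD).1
    have h4 := (hY D hD).2.2.2
    have h5 : (Xr F D).card = n - D.card - (X F D).card := by omega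
    rw [h5]
    exact arith_ineq hn1 hn2 h1.2.2 (by omega) (by omega)
  have c7 : ∀ A ∈ RR F k, ((ZZ F A).card : ℚ) / ((n - k + 1 : ℕ) : ℚ) ≤
      ((ZZ F A).card : ℚ) / A.card := by
    intro A hA
    have h1 := (Finset.mem_filter.1 hA).2
    apply div_le_div_of_nonneg_left (by positivity)
    · exact_mod_cast h1.2.1
    · have : A.card ≤ n - k + 1 := by omega
      exact_mod_cast this
  have d6 := Finset.sum_le_sum c6
  have d7 := Finset.sum_le_sum c7
  rw [Finset.sum_sub_distrib, Finset.sum_const, nsmul_eq_mul, mul_one, ← Finset.sum_div] at d6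
  rw [← Finset.sum_div] at d7
  have hN : (0 : ℚ) < ((n - k + 1 : ℕ) : ℚ) := by positivity
  set N : ℚ := ((n - k + 1 : ℕ) : ℚ) with hNdef
  have c1q : ∑ D ∈ DD F k, ((X F D \ Y D).card : ℚ) ≤
      ((F.filter (fun V => intr' F V ≠ ∅)).card : ℚ) + ∑ A ∈ RR F k, ((ZZ F A).card : ℚ) := by
    exact_mod_cast c1
  have c2q : (F.card : ℚ) + (RR F k).card = (DD F k).card + (n.choose k : ℚ) := by
    exact_mod_cast c2
  have c4q : N ≤ ((F.filter (fun V => intr' F V = ∅)).card : ℚ) := by
    rw [hNdef]
    exact_mod_cast c4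
  have c5q : ((F.filter (fun V => intr' F V = ∅)).card : ℚ) +
      ((F.filter (fun V => intr' F V ≠ ∅)).card : ℚ) = F.card := by
    exact_mod_cast c5
  have e1 : (∑ D ∈ DD F k, ((X F D \ Y D).card : ℚ)) / N ≤
      (((F.filter (fun V => intr' F V ≠ ∅)).card : ℚ) +
        ∑ A ∈ RR F k, ((ZZ F A).card : ℚ)) / N := by
    gcongr
  rw [add_div] at e1
  have e2 : ((F.filter (fun V => intr' F V ≠ ∅)).card : ℚ) / N ≤ ((F.card : ℚ) - N) / N := by
    gcongr
    linarith
  have e3 : ((F.card : ℚ) - N) / N = F.card / N - 1 := by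
    field_simp
  have e4 : (F.card : ℚ) ≤ n.choose k - 1 + F.card / N := by
    linarith
  have hch : 1 ≤ n.choose k := Nat.choose_pos hkn
  have e5 : (F.card : ℚ) * (N - 1) ≤ N * (n.choose k - 1) := by
    have h1 : (F.card : ℚ) * N ≤ (n.choose k - 1 + F.card / N) * N := by
      gcongr
    have h2 : ((F.card : ℚ) / N) * N = F.card := by
      field_simp
    nlinarith
  have e6 : ((F.card * (n - k) : ℕ) : ℚ) ≤ (((n - k + 1) * (n.choose k - 1) : ℕ) : ℚ) := by
    rw [Nat.cast_mul, Nat.cast_mul, Nat.cast_sub hch]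
    have h1 : N - 1 = ((n - k : ℕ) : ℚ) := by
      rw [hNdef]
      push_cast
      ring
    rw [h1] at e5
    rw [Nat.cast_one]
    exact e5
  exact_mod_cast e6

end Pool.Agent.H153_MeetIrr
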