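import Mathlib

/-! Join-irreducible and meet-irreducible elements of finite lattices, and the extremal
function `f` of the problem. -/

namespace Pool.Agent.H153_MeetIrr

/-- `x` is join-irreducible: it covers exactly one element. -/
def JoinIrr {L : Type*} [Lattice L] (x : L) : Prop := ∃! y : L, y ⋖ x

/-- `x` is meet-irreducible: it is covered by exactly one element. -/
def MeetIrr {L : Type*} [Lattice L] (x : L) : Prop := ∃! y : L, x ⋖ y

/-- The set of all `m` such that some nonempty finite lattice has exactly `n` join-irreducible
elements and exactly `m` meet-irreducible elements. -/
def meetCounts (n : ℕ) : Set ℕ :=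
  {m | ∃ (L : Type) (_ : Lattice L), Finite L ∧ Nonempty L ∧
    Nat.card {x : L // JoinIrr x} = n ∧ Nat.card {x : L // MeetIrr x} = m}

/-- `f n` is the largest number of meet-irreducible elements of a finite lattice that has
exactly `n` join-irreducible elements. -/
noncomputable def f (n : ℕ) : ℕ := sSup (meetCounts n)

end Pool.Agent.H153_MeetIrr
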