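import Pool.Agent.H153_MeetIrr.Defs
import Pool.Agent.H153_MeetIrr.Core

/-! From a separating family of sets with private elements to a finite lattice. -/

namespace Pool.Agent.H153_MeetIrr

open Finset

variable {α : Type} [DecidableEq α] [Fintype α]

/-- the union-closed sets of a family, ordered by inclusion -/
def Cl (F : Finset (Finset α)) : Type := {A : Finset α // intr F A = A}

instance (F : Finset (Finset α)) : PartialOrder (Cl F) :=
  inferInstanceAs (PartialOrder {A : Finset α // intr F A = A})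

instance (F : Finset (Finset α)) : Finite (Cl F) :=
  inferInstanceAs (Finite {A : Finset α // intr F A = A})

omit [Fintype α] in
theorem intr_intr (F : Finset (Finset α)) (A : Finset α) : intr F (intr F A) = intr F A := by
  apply Finset.Subset.antisymm (intr_sub _ _)
  intro x hx
  obtain ⟨B, h1, h2, h3⟩ := mem_intr.1 hx
  exact mem_intr.2 ⟨B, h1, sub_intr_of_mem h1 h2, h3⟩

theorem intr'_closed (F : Finset (Finset α)) (A : Finset α) :
    intr F (intr' F A) = intr' F A := by
  apply Finset.Subset.antisymm (intr_sub _ _)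
  intro x hx
  obtain ⟨B, h1, h2, h3⟩ := mem_intr'.1 hx
  exact mem_intr.2 ⟨B, h1, sub_intr'_of_mem h1 h2, h3⟩

instance (F : Finset (Finset α)) : Lattice (Cl F) :=
  { (inferInstance : PartialOrder (Cl F)) with
    sup := fun A B => ⟨A.1 ∪ B.1, closed_union A.2 B.2⟩
    inf := fun A B => ⟨intr F (A.1 ∩ B.1), intr_intr F _⟩
    le_sup_left := fun A B => (Finset.subset_union_left : A.1 ⊆ A.1 ∪ B.1)
    le_sup_right := fun A B => (Finset.subset_union_right : B.1 ⊆ A.1 ∪ B.1)
    sup_le := fun A B C hA hB => (Finset.union_subset hA hB : A.1 ∪ B.1 ⊆ C.1)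
    inf_le_left := fun A B =>
      ((intr_sub F _).trans Finset.inter_subset_left : intr F (A.1 ∩ B.1) ⊆ A.1)
    inf_le_right := fun A B =>
      ((intr_sub F _).trans Finset.inter_subset_right : intr F (A.1 ∩ B.1) ⊆ B.1)
    le_inf := fun A B C hB hC =>
      (sub_intr_of_closed A.2 (Finset.subset_inter hB hC) : A.1 ⊆ intr F (B.1 ∩ C.1)) }

omit [Fintype α] in
theorem Cl.lt_iff {F : Finset (Finset α)} {A B : Cl F} : A < B ↔ A.1 ⊂ B.1 := Iff.rfl

omit [Fintype α] in
theorem Cl.le_iff {F : Finset (Finset α)} {A B : Cl F} : A ≤ B ↔ A.1 ⊆ B.1 := Iff.rfl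

/-- join-irreducibles of the lattice of closed sets: the members -/
theorem joinIrr_Cl {F : Finset (Finset α)} (hF : Priv F) (A : Cl F) :
    JoinIrr A ↔ A.1 ∈ F := by
  constructor
  · rintro ⟨D, hD, huniq⟩
    by_contra hA
    have h1 : intr' F A.1 = A.1 := red_of_closed A.2 hA
    have h2 : intr' F A.1 ⊆ D.1 := by
      intro x hx
      obtain ⟨B, hB1, hB2, hB3⟩ := mem_intr'.1 hx
      have hlt : (⟨B, intr_of_mem hB1⟩ : Cl F) < A := Cl.lt_iff.2 hB2
      obtain ⟨c, hc1, hc2⟩ := exists_le_covBy_of_lt hlt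
      have := huniq c hc2
      rw [this] at hc1
      exact (Cl.le_iff.1 hc1) hB3
    rw [h1] at h2
    exact absurd (Cl.le_iff.2 h2) (not_le_of_gt hD.lt)
  · intro hA
    have h1 : intr' F A.1 ≠ A.1 := not_red_of_mem hF hA
    have h2 : (⟨intr' F A.1, intr'_closed F A.1⟩ : Cl F) < A :=
      Cl.lt_iff.2 (Finset.ssubset_iff_subset_ne.2 ⟨intr'_sub F _, h1⟩)
    have h3 : ∀ D : Cl F, D < A → D ≤ (⟨intr' F A.1, intr'_closed F A.1⟩ : Cl F) := by
      intro D hD
      exact Cl.le_iff.2 (sub_intr'_of_closed D.2 (Cl.lt_iff.1 hD))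
    refine ⟨⟨intr' F A.1, intr'_closed F A.1⟩, ⟨h2, ?_⟩, ?_⟩
    · intro c hc hcA
      exact absurd (h3 c hcA) (not_le_of_gt hc)
    · intro y hy
      rcases eq_or_lt_of_le (h3 y hy.lt) with h4 | h4
      · exact h4
      · exact absurd h2 (hy.2 h4)

/-- separation: distinct points are separated by members in both directions -/
def Sep (F : Finset (Finset α)) : Prop := ∀ x y : α, x ≠ y → ∃ B ∈ F, y ∈ B ∧ x ∉ B

theorem closed_erase {F : Finset (Finset α)} (hS : Sep F) (x : α) :
    intr F (Finset.univ.erase x) = Finset.univ.erase x := by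
  apply Finset.Subset.antisymm (intr_sub _ _)
  intro y hy
  obtain ⟨B, h1, h2, h3⟩ := hS x y (Finset.ne_of_mem_erase hy).symm
  refine mem_intr.2 ⟨B, h1, ?_, h2⟩
  intro z hz
  exact Finset.mem_erase.2 ⟨fun h => h3 (h ▸ hz), Finset.mem_univ _⟩

theorem closed_univ {F : Finset (Finset α)} (hS : Sep F) (h2 : 2 ≤ Fintype.card α) :
    intr F (Finset.univ : Finset α) = Finset.univ := by
  apply Finset.Subset.antisymm (intr_sub _ _)
  intro y _
  have : Nontrivial α := Fintype.one_lt_card_iff_nontrivial.1 (by omega)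
  obtain ⟨x, hx⟩ := exists_ne y
  obtain ⟨B, h1, h2, h3⟩ := hS x y hx
  exact mem_intr.2 ⟨B, h1, Finset.subset_univ _, h2⟩

/-- meet-irreducibles of the lattice of closed sets: the complements of points -/
theorem meetIrr_Cl {F : Finset (Finset α)} (hS : Sep F) (h2 : 2 ≤ Fintype.card α) (A : Cl F) :
    MeetIrr A ↔ ∃ x : α, A.1 = Finset.univ.erase x := by
  constructor
  · rintro ⟨u, hu, huniq⟩
    by_contra hcon
    push Not at hcon
    have h3 : u.1 ⊆ A.1 := by
      intro x hx
      by_contra hxA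
      have h4 : A.1 ⊆ Finset.univ.erase x := by
        intro z hz
        exact Finset.mem_erase.2 ⟨fun h => hxA (h ▸ hz), Finset.mem_univ _⟩
      have h5 : A < (⟨Finset.univ.erase x, closed_erase hS x⟩ : Cl F) :=
        Cl.lt_iff.2 (Finset.ssubset_iff_subset_ne.2 ⟨h4, hcon x⟩)
      obtain ⟨c, hc1, hc2⟩ := exists_covBy_le_of_lt h5
      rw [huniq c hc1] at hc2
      exact (Finset.notMem_erase x _) ((Cl.le_iff.1 hc2) hx)
    exact absurd (Cl.le_iff.2 h3) (not_le_of_gt hu.lt)
  · rintro ⟨x, hx⟩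
    have h3 : ∀ D : Cl F, A < D → D = (⟨Finset.univ, closed_univ hS h2⟩ : Cl F) := by
      intro D hD
      apply Subtype.ext
      apply Finset.eq_univ_of_forall
      intro z
      have h4 := Cl.lt_iff.1 hD
      by_cases hz : z = x
      · subst hz
        obtain ⟨w, hw1, hw2⟩ := Finset.exists_of_ssubset h4
        rw [hx, Finset.mem_erase] at hw2
        push Not at hw2
        by_cases hwz : w = z
        · rw [← hwz]
          exact hw1
        · exact absurd (Finset.mem_univ w) (hw2 hwz)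
      · apply h4.subset
        rw [hx]
        exact Finset.mem_erase.2 ⟨hz, Finset.mem_univ _⟩
    have h4 : A < (⟨Finset.univ, closed_univ hS h2⟩ : Cl F) := by
      apply Cl.lt_iff.2
      rw [hx]
      exact Finset.erase_ssubset (Finset.mem_univ x)
    refine ⟨⟨Finset.univ, closed_univ hS h2⟩, ⟨h4, ?_⟩, ?_⟩
    · intro c hc hcA
      rw [h3 c hc] at hcA
      exact absurd hcA (lt_irrefl _)
    · intro y hy
      exact h3 y hy.lt

theorem joinIrr_dual {L : Type*} [Lattice L] (x : L) :
    JoinIrr (OrderDual.toDual x) ↔ MeetIrr x := by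
  constructor
  · rintro ⟨y, hy, hu⟩
    refine ⟨OrderDual.ofDual y, ?_, ?_⟩
    · exact ofDual_covBy_ofDual_iff.2 hy
    · intro z hz
      have := hu (OrderDual.toDual z) (toDual_covBy_toDual_iff.2 hz)
      rw [← this]
      rfl
  · rintro ⟨y, hy, hu⟩
    refine ⟨OrderDual.toDual y, ?_, ?_⟩
    · exact toDual_covBy_toDual_iff.2 hy
    · intro z hz
      have := hu (OrderDual.ofDual z) (ofDual_covBy_ofDual_iff.2 hz)
      rw [← this]
      rfl

theorem meetIrr_dual {L : Type*} [Lattice L] (x : L) :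
    MeetIrr (OrderDual.toDual x) ↔ JoinIrr x := by
  constructor
  · rintro ⟨y, hy, hu⟩
    refine ⟨OrderDual.ofDual y, ?_, ?_⟩
    · exact ofDual_covBy_ofDual_iff.2 hy
    · intro z hz
      have := hu (OrderDual.toDual z) (toDual_covBy_toDual_iff.2 hz)
      rw [← this]
      rfl
  · rintro ⟨y, hy, hu⟩
    refine ⟨OrderDual.toDual y, ?_, ?_⟩
    · exact toDual_covBy_toDual_iff.2 hy
    · intro z hz
      have := hu (OrderDual.ofDual z) (ofDual_covBy_ofDual_iff.2 hz)
      rw [← this]
      rfl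

theorem card_joinIrr_dual {L : Type*} [Lattice L] :
    Nat.card {x : Lᵒᵈ // JoinIrr x} = Nat.card {x : L // MeetIrr x} :=
  Nat.card_congr
    { toFun := fun x => ⟨OrderDual.ofDual x.1, (joinIrr_dual _).1 x.2⟩
      invFun := fun x => ⟨OrderDual.toDual x.1, (joinIrr_dual _).2 x.2⟩
      left_inv := fun _ => rfl
      right_inv := fun _ => rfl }

theorem card_meetIrr_dual {L : Type*} [Lattice L] :
    Nat.card {x : Lᵒᵈ // MeetIrr x} = Nat.card {x : L // JoinIrr x} :=
  Nat.card_congr
    { toFun := fun x => ⟨OrderDual.ofDual x.1, (meetIrr_dual _).1 x.2⟩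
      invFun := fun x => ⟨OrderDual.toDual x.1, (meetIrr_dual _).2 x.2⟩
      left_inv := fun _ => rfl
      right_inv := fun _ => rfl }

/-- A separating family with private elements on `n ≥ 2` points with `m` members gives a finite
lattice with `n` join-irreducible and `m` meet-irreducible elements. -/
theorem from_family {F : Finset (Finset α)} (hF : Priv F) (hS : Sep F)
    (h2 : 2 ≤ Fintype.card α) : F.card ∈ meetCounts (Fintype.card α) := by
  refine ⟨(Cl F)ᵒᵈ, inferInstance, inferInstance, ?_, ?_, ?_⟩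
  · exact ⟨OrderDual.toDual ⟨Finset.univ, closed_univ hS h2⟩⟩
  · rw [card_joinIrr_dual, ← Nat.card_eq_fintype_card (α := α)]
    symm
    apply Nat.card_congr
    apply Equiv.ofBijective
      (fun x : α => (⟨⟨Finset.univ.erase x, closed_erase hS x⟩,
        (meetIrr_Cl hS h2 _).2 ⟨x, rfl⟩⟩ : {A : Cl F // MeetIrr A}))
    constructor
    · intro x y hxy
      have h3 : (Finset.univ.erase x : Finset α) = Finset.univ.erase y := by
        have h4 := congrArg (fun z : {A : Cl F // MeetIrr A} => z.1.1) hxy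
        exact h4
      by_contra hne
      have : y ∈ (Finset.univ.erase x : Finset α) :=
        Finset.mem_erase.2 ⟨fun h => hne h.symm, Finset.mem_univ _⟩
      rw [h3] at this
      exact Finset.notMem_erase y _ this
    · rintro ⟨A, hA⟩
      obtain ⟨x, hx⟩ := (meetIrr_Cl hS h2 A).1 hA
      exact ⟨x, Subtype.ext (Subtype.ext hx.symm)⟩
  · rw [card_meetIrr_dual, ← Fintype.card_coe, ← Nat.card_eq_fintype_card]
    apply Nat.card_congr
    exact
    { toFun := fun x => ⟨x.1.1, (joinIrr_Cl hF x.1).1 x.2⟩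
      invFun := fun x => ⟨⟨x.1, intr_of_mem x.2⟩, (joinIrr_Cl hF _).2 x.2⟩
      left_inv := fun _ => rfl
      right_inv := fun _ => rfl }

end Pool.Agent.H153_MeetIrr
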