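import Pool.Agent.H153_MeetIrr.Defs
import Pool.Agent.H153_MeetIrr.Core

/-! From a finite lattice to a family of sets with private elements. -/

namespace Pool.Agent.H153_MeetIrr

open Finset

/-- In a finite lattice, if `b` is not below `a`, some join-irreducible element is below `b`
and not below `a`. -/
theorem exists_joinIrr {L : Type*} [Lattice L] [Finite L] {a b : L} (h : ¬ b ≤ a) :
    ∃ j : L, JoinIrr j ∧ j ≤ b ∧ ¬ j ≤ a := by
  classical
  have : Fintype L := Fintype.ofFinite L
  -- a minimal element below `b` and not below `a`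
  let S : Finset L := Finset.univ.filter (fun z => z ≤ b ∧ ¬ z ≤ a)
  have hS : S.Nonempty := ⟨b, by simp [S, h]⟩
  obtain ⟨j, hj⟩ := S.exists_minimal hS
  have hj1 : j ≤ b ∧ ¬ j ≤ a := by
    have := hj.prop
    simpa [S] using this
  have hlow : ∀ z, z < j → z ≤ a := by
    intro z hz
    by_contra hza
    have hzS : z ∈ S := by
      simp only [S, Finset.mem_filter, Finset.mem_univ, true_and]
      exact ⟨hz.le.trans hj1.1, hza⟩
    exact absurd (hj.le_of_le hzS hz.le) (not_le_of_gt hz)
  -- there is an element below `j`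
  have hne : ∃ z, z < j := by
    by_contra hcon
    push Not at hcon
    have h1 : j ⊓ a = j := by
      rcases eq_or_lt_of_le (inf_le_left : j ⊓ a ≤ j) with h2 | h2
      · exact h2
      · exact absurd h2 (hcon _)
    exact hj1.2 (inf_eq_left.1 h1)
  let T : Finset L := Finset.univ.filter (fun z => z < j)
  have hT : T.Nonempty := by
    obtain ⟨z, hz⟩ := hne
    exact ⟨z, by simp [T, hz]⟩
  obtain ⟨p, hp⟩ := T.exists_maximal hT
  have hpj : p < j := by
    have := hp.prop
    simpa [T] using this
  have hpmax : ∀ z, z < j → z ≤ p := by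
    intro z hz
    have h1 : z ⊔ p ≤ j := sup_le hz.le hpj.le
    have h2 : z ⊔ p ≤ a := sup_le (hlow z hz) (hlow p hpj)
    have h3 : z ⊔ p < j := by
      rcases eq_or_lt_of_le h1 with h4 | h4
      · rw [h4] at h2
        exact absurd h2 hj1.2
      · exact h4
    have h4 : z ⊔ p ∈ T := by simp [T, h3]
    have h5 := hp.le_of_ge h4 le_sup_right
    exact le_sup_left.trans h5
  refine ⟨j, ⟨p, ?_, ?_⟩, hj1.1, hj1.2⟩
  · refine ⟨hpj, ?_⟩
    intro c hc hcj
    exact absurd (hpmax c hcj) (not_le_of_gt hc)
  · intro y hy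
    have h1 := hpmax y hy.lt
    rcases eq_or_lt_of_le h1 with h2 | h2
    · exact h2
    · exact absurd hpj (hy.2 h2)

open Classical in
/-- the family of a lattice: for each meet-irreducible `m`, the join-irreducibles not
below `m` -/
noncomputable def fam (L : Type*) [Lattice L] [Fintype L] : Finset (Finset {x : L // JoinIrr x}) :=
  (Finset.univ : Finset {x : L // MeetIrr x}).image
    (fun m => Finset.univ.filter (fun j : {x : L // JoinIrr x} => ¬ j.1 ≤ m.1))

open Classical in
theorem fam_spec (L : Type*) [Lattice L] [Fintype L] :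
    Priv (fam L) ∧ (fam L).card = Nat.card {x : L // MeetIrr x} := by
  -- inclusion of the sets reverses the order
  have hle : ∀ m m' : L, (∀ j : {x : L // JoinIrr x}, ¬ j.1 ≤ m' → ¬ j.1 ≤ m) → m ≤ m' := by
    intro m m' h
    by_contra hcon
    obtain ⟨j, h1, h2, h3⟩ := exists_joinIrr hcon
    exact h ⟨j, h1⟩ h3 h2
  constructor
  · intro A hA
    obtain ⟨m, _, rfl⟩ := Finset.mem_image.1 hA
    obtain ⟨u, hu, huniq⟩ := m.2
    obtain ⟨j, hj1, hj2, hj3⟩ := exists_joinIrr (a := m.1) (b := u) (not_le_of_gt hu.lt)
    refine ⟨⟨j, hj1⟩, by simp [hj3], ?_⟩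
    intro B hB hBA
    obtain ⟨m', _, rfl⟩ := Finset.mem_image.1 hB
    simp only [Finset.mem_filter, Finset.mem_univ, true_and, not_not]
    have h1 : m.1 ≤ m'.1 := by
      apply hle
      intro i hi
      have := hBA.subset (Finset.mem_filter.2 ⟨Finset.mem_univ i, hi⟩)
      exact (Finset.mem_filter.1 this).2
    have h2 : m.1 ≠ m'.1 := by
      intro h
      have : m = m' := Subtype.ext h
      rw [this] at hBA
      exact absurd hBA (ssubset_irrefl _)
    obtain ⟨c, hc1, hc2⟩ := exists_covBy_le_of_lt (lt_of_le_of_ne h1 h2)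
    rw [huniq c hc1] at hc2
    exact hj2.trans hc2
  · rw [fam, Finset.card_image_of_injective, Finset.card_univ, Nat.card_eq_fintype_card]
    intro m m' h
    simp only at h
    apply Subtype.ext
    apply le_antisymm
    · apply hle
      intro i hi
      have : i ∈ Finset.univ.filter (fun j : {x : L // JoinIrr x} => ¬ j.1 ≤ m'.1) := by
        simp [hi]
      rw [← h] at this
      simpa using this
    · apply hle
      intro i hi
      have : i ∈ Finset.univ.filter (fun j : {x : L // JoinIrr x} => ¬ j.1 ≤ m.1) := by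
        simp [hi]
      rw [h] at this
      simpa using this

end Pool.Agent.H153_MeetIrr
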