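import Pool.Agent.H153_MeetIrr.Push
import Pool.Agent.H153_MeetIrr.ToFamily
import Pool.Agent.H153_MeetIrr.FromFamily

/-! The extremal function in terms of families with private elements. -/

namespace Pool.Agent.H153_MeetIrr

open Finset

/-- every value is bounded -/
theorem meetCounts_bound {n m : ℕ} (hn : 1 ≤ n) (hm : m ∈ meetCounts n) :
    m * (n / 2) ≤ (n / 2 + 1) * (n.choose (n / 2) - 1) := by
  classical
  obtain ⟨L, hL, hfin, hne, h1, h2⟩ := hm
  have : Fintype L := Fintype.ofFinite L
  have h3 := fam_spec L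
  have hcard : Fintype.card {x : L // JoinIrr x} = n := by
    rw [← Nat.card_eq_fintype_card]
    exact h1
  have h4 := priv_bound (F := fam L) (by convert h3.1) (by omega)
  rw [hcard, h3.2, h2] at h4
  exact h4

theorem meetCounts_bddAbove {n : ℕ} (hn : 2 ≤ n) : BddAbove (meetCounts n) := by
  refine ⟨(n / 2 + 1) * (n.choose (n / 2) - 1), ?_⟩
  intro m hm
  have h1 := meetCounts_bound (by omega) hm
  have h2 : 1 ≤ n / 2 := by omega
  calc m = m * 1 := (Nat.mul_one m).symm
    _ ≤ m * (n / 2) := Nat.mul_le_mul_left _ h2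
    _ ≤ _ := h1

/-- For every family with private elements on `n ≥ 2` points, some lattice with `n`
join-irreducibles has at least as many meet-irreducibles as the family has members. -/
theorem exists_lattice_of_priv {α : Type} [DecidableEq α] [Fintype α] {n : ℕ} (hn : 2 ≤ n)
    (hα : Fintype.card α = n) {F : Finset (Finset α)}
    (hF : Priv F) : ∃ m ∈ meetCounts n, F.card ≤ m := by
  obtain ⟨k, hk⟩ : ∃ k, k = (n + 1) / 2 := ⟨_, rfl⟩
  obtain ⟨F1, h1, h2, h3⟩ := push_all (α := α) (k := k)
    (by rw [hα]; omega) n F hF (fun A _ => by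
    have := Finset.card_le_univ A
    rw [hα] at this
    omega)
  obtain ⟨G, g1, g2, g3, g4⟩ := exists_extremal (α := α) k
  have hS : Sep G := by
    intro x y hxy
    -- a k-set containing y and avoiding x
    have h5 : k - 1 ≤ (((Finset.univ : Finset α).erase x).erase y).card := by
      rw [Finset.card_erase_of_mem (Finset.mem_erase.2 ⟨hxy.symm, Finset.mem_univ _⟩),
        Finset.card_erase_of_mem (Finset.mem_univ _), Finset.card_univ, hα]
      omega
    obtain ⟨W, hW1, hW2⟩ := Finset.exists_subset_card_eq h5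
    have hyW : y ∉ W := fun h => (Finset.notMem_erase y _) (hW1 h)
    have hxW : x ∉ insert y W := by
      rw [Finset.mem_insert]
      rintro (h | h)
      · exact hxy h
      · exact (Finset.notMem_erase x _) (Finset.mem_of_mem_erase (hW1 h))
    have h6 : (insert y W).card = k := by
      rw [Finset.card_insert_of_notMem hyW, hW2]
      omega
    have h7 := g4 _ h6
    have h8 : y ∈ intr G (insert y W) := by
      rw [h7]
      exact Finset.mem_insert_self _ _
    obtain ⟨B, b1, b2, b3⟩ := mem_intr.1 h8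
    exact ⟨B, b1, b3, fun h => hxW (b2 h)⟩
  have h9 := from_family g1 hS (by rw [hα]; exact hn)
  rw [hα] at h9
  exact ⟨G.card, h9, h2.trans (g3 F1 h1 h3)⟩

theorem meetCounts_nonempty {n : ℕ} (hn : 2 ≤ n) : (meetCounts n).Nonempty := by
  obtain ⟨m, hm, _⟩ := exists_lattice_of_priv (α := Fin n) hn (Fintype.card_fin n) (F := ∅)
    (fun A hA => absurd hA (Finset.notMem_empty A))
  exact ⟨m, hm⟩

theorem isGreatest_f {n : ℕ} (hn : 2 ≤ n) : IsGreatest (meetCounts n) (f n) :=
  ⟨Nat.sSup_mem (meetCounts_nonempty hn) (meetCounts_bddAbove hn),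
    fun _ hm => le_csSup (meetCounts_bddAbove hn) hm⟩

theorem le_f_of_priv {α : Type} [DecidableEq α] [Fintype α] {n : ℕ} (hn : 2 ≤ n)
    (hα : Fintype.card α = n) {F : Finset (Finset α)}
    (hF : Priv F) : F.card ≤ f n := by
  obtain ⟨m, hm, h⟩ := exists_lattice_of_priv hn hα hF
  exact h.trans ((isGreatest_f hn).2 hm)

/-- there is a family with private elements of size `f n` -/
theorem exists_priv_card_f {n : ℕ} (hn : 2 ≤ n) :
    ∃ (α : Type) (_ : DecidableEq α) (_ : Fintype α) (F : Finset (Finset α)),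
      Fintype.card α = n ∧ Priv F ∧ F.card = f n := by
  classical
  obtain ⟨L, hL, hfin, hne, h1, h2⟩ := (isGreatest_f hn).1
  have : Fintype L := Fintype.ofFinite L
  have h3 := fam_spec L
  refine ⟨{x : L // JoinIrr x}, Classical.decEq _, inferInstance, fam L, ?_, h3.1, ?_⟩
  · rw [← Nat.card_eq_fintype_card]
    exact h1
  · rw [h3.2, h2]

end Pool.Agent.H153_MeetIrr
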