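import Pool.Agent.H153_MeetIrr.Lower

/-! A better lower bound for even `n`: three special points, and codes on two levels. -/

namespace Pool.Agent.H153_MeetIrr

open Finset

section family

variable {α : Type} [DecidableEq α] [Fintype α] {G : Type} [AddCommGroup G] [DecidableEq G]

/-- full levels: sets of size `k-1` avoiding `S` and sets of size `k` meeting `S` -/
def lev (S : Finset α) (k : ℕ) : Finset (Finset α) :=
  Finset.univ.filter (fun A => (A.card = k - 1 ∧ Disjoint A S) ∨ (A.card = k ∧ ¬ Disjoint A S))

/-- positions for the code: sets of size `k-1` with at least two points in `S` and sets of size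
`k-2` avoiding `S` -/
def pos (S : Finset α) (k : ℕ) : Finset (Finset α) :=
  Finset.univ.filter (fun A => (A.card = k - 1 ∧ 2 ≤ (A ∩ S).card) ∨
    (A.card = k - 2 ∧ Disjoint A S))

/-- the code with label `r` -/
def cod (S : Finset α) (k : ℕ) (v : α → G) (r : G) : Finset (Finset α) :=
  (pos S k).filter (fun A => ∑ a ∈ A, v a = r)

theorem priv_three {S : Finset α} {k : ℕ} (hk : 3 ≤ k) {v : α → G}
    (hv : Function.Injective v)
    (hv2 : ∀ b ∉ S, ∀ s ∈ S, ∀ t ∈ S, s ≠ t → v b ≠ v s + v t) (r : G) :
    Priv (lev S k ∪ cod S k v r) := by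
  -- sums over one-point deletions
  have herase : ∀ (A B : Finset α), B ⊆ A → B.card + 1 = A.card →
      ∃ x ∈ A, B = A.erase x := by
    intro A B h1 h2
    have h3 : (A \ B).card = 1 := by
      rw [Finset.card_sdiff_of_subset h1]
      omega
    obtain ⟨x, hx⟩ := Finset.card_eq_one.1 h3
    have hxA : x ∈ A \ B := by rw [hx]; exact Finset.mem_singleton_self x
    rw [Finset.mem_sdiff] at hxA
    refine ⟨x, hxA.1, ?_⟩
    apply Finset.eq_of_subset_of_card_le
    · intro z hz
      exact Finset.mem_erase.2 ⟨fun h => hxA.2 (h ▸ hz), h1 hz⟩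
    · rw [Finset.card_erase_of_mem hxA.1]
      omega
  have huniq : ∀ (A : Finset α) (x y : α), x ∈ A → y ∈ A →
      ∑ a ∈ A.erase x, v a = r → ∑ a ∈ A.erase y, v a = r → x = y := by
    intro A x y hx hy h1 h2
    have e1 := Finset.sum_erase_add A v hx
    have e2 := Finset.sum_erase_add A v hy
    rw [h1] at e1
    rw [h2] at e2
    exact hv (add_left_cancel (e1.trans e2.symm))
  -- description of members by size
  have hmem : ∀ B ∈ lev S k ∪ cod S k v r,
      (B.card = k - 1 ∧ Disjoint B S) ∨ (B.card = k ∧ ¬ Disjoint B S) ∨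
      (B.card = k - 1 ∧ 2 ≤ (B ∩ S).card ∧ ∑ a ∈ B, v a = r) ∨
      (B.card = k - 2 ∧ Disjoint B S ∧ ∑ a ∈ B, v a = r) := by
    intro B hB
    rcases Finset.mem_union.1 hB with hB | hB
    · rcases (Finset.mem_filter.1 hB).2 with h | h
      · exact Or.inl h
      · exact Or.inr (Or.inl h)
    · obtain ⟨h1, h2⟩ := Finset.mem_filter.1 hB
      rcases (Finset.mem_filter.1 h1).2 with h | h
      · exact Or.inr (Or.inr (Or.inl ⟨h.1, h.2, h2⟩))
      · exact Or.inr (Or.inr (Or.inr ⟨h.1, h.2, h2⟩))
  have hsplit : ∀ A : Finset α, (A \ S).card + (A ∩ S).card = A.card := fun A =>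
    Finset.card_sdiff_add_card_inter A S
  have hsub : ∀ A B : Finset α, B ⊆ A → Disjoint B S → B ⊆ A \ S := by
    intro A B h1 h2 z hz
    exact Finset.mem_sdiff.2 ⟨h1 hz, Finset.disjoint_left.1 h2 hz⟩
  intro A hA
  rcases hmem A hA with ⟨hA1, hA2⟩ | ⟨hA1, hA2⟩ | ⟨hA1, hA2, hA3⟩ | ⟨hA1, hA2, hA3⟩
  · -- size k-1, avoiding S
    by_cases hex : ∃ B ∈ lev S k ∪ cod S k v r, B ⊂ A
    · obtain ⟨B, hB, hBA⟩ := hex
      have hlt := Finset.card_lt_card hBA
      have hB' : B.card = k - 2 ∧ ∑ a ∈ B, v a = r := by
        rcases hmem B hB with h | h | h | h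
        · omega
        · omega
        · omega
        · exact ⟨h.1, h.2.2⟩
      obtain ⟨x, hx, rfl⟩ := herase A B hBA.subset (by omega)
      refine ⟨x, hx, ?_⟩
      intro D hD hDA
      have hlt' := Finset.card_lt_card hDA
      have hD' : D.card = k - 2 ∧ ∑ a ∈ D, v a = r := by
        rcases hmem D hD with h | h | h | h
        · omega
        · omega
        · omega
        · exact ⟨h.1, h.2.2⟩
      obtain ⟨y, hy, rfl⟩ := herase A D hDA.subset (by omega)
      rw [huniq A x y hx hy hB'.2 hD'.2]
      exact Finset.notMem_erase y A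
    · have : A.Nonempty := Finset.card_pos.1 (by omega)
      obtain ⟨x, hx⟩ := this
      exact ⟨x, hx, fun D hD hDA => absurd ⟨D, hD, hDA⟩ hex⟩
  · -- size k, meeting S
    rw [Finset.not_disjoint_iff] at hA2
    obtain ⟨s, hsA, hsS⟩ := hA2
    have hsi : s ∈ A ∩ S := Finset.mem_inter.2 ⟨hsA, hsS⟩
    have hpos : 1 ≤ (A ∩ S).card := Finset.card_pos.2 ⟨s, hsi⟩
    by_cases hex : ∃ B ∈ lev S k ∪ cod S k v r, B ⊂ A ∧ s ∈ B
    · -- then a code set of size k-1 lies below
      obtain ⟨B, hB, hBA, hsB⟩ := hex
      have hlt := Finset.card_lt_card hBA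
      have hB' : B.card = k - 1 ∧ 2 ≤ (B ∩ S).card ∧ ∑ a ∈ B, v a = r := by
        rcases hmem B hB with h | h | h | h
        · exact absurd hsS (Finset.disjoint_left.1 h.2 hsB)
        · omega
        · exact h
        · exact absurd hsS (Finset.disjoint_left.1 h.2.1 hsB)
      obtain ⟨x, hx, rfl⟩ := herase A B hBA.subset (by omega)
      refine ⟨x, hx, ?_⟩
      intro D hD hDA hxD
      have hlt' := Finset.card_lt_card hDA
      have hAS : 2 ≤ (A ∩ S).card :=
        hB'.2.1.trans (Finset.card_le_card (Finset.inter_subset_inter_right hBA.subset))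
      have hsp := hsplit A
      rcases hmem D hD with h | h | h | h
      · -- size k-1 avoiding S: too large
        have := Finset.card_le_card (hsub A D hDA.subset h.2)
        omega
      · omega
      · obtain ⟨y, hy, rfl⟩ := herase A D hDA.subset (by omega)
        rw [huniq A x y hx hy hB'.2.2 h.2.2] at hxD
        exact (Finset.notMem_erase y A) hxD
      · -- D = A \ S
        have h1 := hsub A D hDA.subset h.2.1
        have h2 := Finset.card_le_card h1
        have h3 : D = A \ S := Finset.eq_of_subset_of_card_le h1 (by omega)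
        have h4 : (A ∩ S).card = 2 := by omega
        obtain ⟨a, b, hab, hABeq⟩ := Finset.card_eq_two.1 h4
        have haS : a ∈ S := by
          have : a ∈ A ∩ S := by rw [hABeq]; simp
          exact (Finset.mem_inter.1 this).2
        have hbS : b ∈ S := by
          have : b ∈ A ∩ S := by rw [hABeq]; simp
          exact (Finset.mem_inter.1 this).2
        have hxS : x ∉ S := Finset.disjoint_left.1 h.2.1 hxD
        apply hv2 x hxS a haS b hbS hab
        have e1 := Finset.sum_erase_add A v hx
        have e2 := Finset.sum_inter_add_sum_sdiff A S v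
        rw [hABeq, Finset.sum_pair hab, ← h3, h.2.2] at e2
        rw [hB'.2.2, ← e2, add_comm] at e1
        exact add_right_cancel e1
    · refine ⟨s, hsA, ?_⟩
      intro D hD hDA hsD
      exact hex ⟨D, hD, hDA, hsD⟩
  · -- code set of size k-1
    have : A.Nonempty := Finset.card_pos.1 (by omega)
    obtain ⟨x, hx⟩ := this
    refine ⟨x, hx, ?_⟩
    intro D hD hDA
    exfalso
    have hlt := Finset.card_lt_card hDA
    have hsp := hsplit A
    rcases hmem D hD with h | h | h | h
    · omega
    · omega
    · omega
    · have := Finset.card_le_card (hsub A D hDA.subset h.2.1)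
      omega
  · -- code set of size k-2
    have : A.Nonempty := Finset.card_pos.1 (by omega)
    obtain ⟨x, hx⟩ := this
    refine ⟨x, hx, ?_⟩
    intro D hD hDA
    exfalso
    have hlt := Finset.card_lt_card hDA
    rcases hmem D hD with h | h | h | h <;> omega

/-- pigeonhole over the labels -/
theorem exists_label [Fintype G] (S : Finset α) (k : ℕ) (v : α → G) :
    ∃ r : G, (pos S k).card ≤ Fintype.card G * (cod S k v r).card := by
  classical
  by_contra hcon
  push Not at hcon
  have h1 : (pos S k).card = ∑ r : G, (cod S k v r).card :=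
    Finset.card_eq_sum_card_fiberwise (f := fun A => ∑ a ∈ A, v a)
      (fun _ _ => Finset.mem_coe.2 (Finset.mem_univ _))
  have h2 : ∑ r : G, Fintype.card G * (cod S k v r).card < ∑ _r : G, (pos S k).card := by
    apply Finset.sum_lt_sum_of_nonempty Finset.univ_nonempty
    intro r _
    exact hcon r
  rw [← Finset.mul_sum, ← h1, Finset.sum_const, Finset.card_univ, smul_eq_mul] at h2
  exact absurd h2 (lt_irrefl _)

theorem card_avoid (S : Finset α) (t : ℕ) :
    (Finset.univ.filter (fun A : Finset α => A.card = t ∧ Disjoint A S)).card =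
      (Fintype.card α - S.card).choose t := by
  rw [← Finset.card_compl, ← Finset.card_powersetCard]
  congr 1
  ext A
  simp only [Finset.mem_filter, Finset.mem_univ, true_and, Finset.mem_powersetCard]
  constructor
  · rintro ⟨h1, h2⟩
    refine ⟨?_, h1⟩
    intro z hz
    exact Finset.mem_compl.2 (Finset.disjoint_left.1 h2 hz)
  · rintro ⟨h1, h2⟩
    refine ⟨h2, ?_⟩
    rw [Finset.disjoint_left]
    intro z hz
    exact Finset.mem_compl.1 (h1 hz)

theorem card_lev {S : Finset α} {k : ℕ} (hk : 1 ≤ k) :
    (lev S k).card + (Fintype.card α - S.card).choose k =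
      (Fintype.card α - S.card).choose (k - 1) + (Fintype.card α).choose k := by
  have h1 : (lev S k).card =
      (Finset.univ.filter (fun A : Finset α => A.card = k - 1 ∧ Disjoint A S)).card +
      (Finset.univ.filter (fun A : Finset α => A.card = k ∧ ¬ Disjoint A S)).card := by
    rw [← Finset.card_union_of_disjoint, lev, Finset.filter_or]
    rw [Finset.disjoint_left]
    intro A hA hA2
    have h1 := (Finset.mem_filter.1 hA).2.1
    have h2 := (Finset.mem_filter.1 hA2).2.1
    omega
  have h2 : (Finset.univ.filter (fun A : Finset α => A.card = k ∧ Disjoint A S)).card +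
      (Finset.univ.filter (fun A : Finset α => A.card = k ∧ ¬ Disjoint A S)).card =
      (Fintype.card α).choose k := by
    rw [← Finset.card_union_of_disjoint, ← Finset.card_univ, ← Finset.card_powersetCard]
    · congr 1
      ext A
      simp only [Finset.mem_union, Finset.mem_filter, Finset.mem_univ, true_and,
        Finset.mem_powersetCard, Finset.subset_univ]
      tauto
    · rw [Finset.disjoint_left]
      intro A hA hA2
      exact (Finset.mem_filter.1 hA2).2.2 (Finset.mem_filter.1 hA).2.2
  rw [card_avoid] at h1 h2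
  omega

theorem card_pos_ge {S : Finset α} {k : ℕ} (hk : 3 ≤ k) :
    (Fintype.card α).choose (k - 1) + (Fintype.card α - S.card).choose (k - 2) ≤
      (pos S k).card + (Fintype.card α - S.card).choose (k - 1) +
        S.card * (Fintype.card α - S.card).choose (k - 2) := by
  have h1 : (pos S k).card =
      (Finset.univ.filter (fun A : Finset α => A.card = k - 1 ∧ 2 ≤ (A ∩ S).card)).card +
      (Finset.univ.filter (fun A : Finset α => A.card = k - 2 ∧ Disjoint A S)).card := by
    rw [← Finset.card_union_of_disjoint, pos, Finset.filter_or]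
    rw [Finset.disjoint_left]
    intro A hA hA2
    have h1 := (Finset.mem_filter.1 hA).2.1
    have h2 := (Finset.mem_filter.1 hA2).2.1
    omega
  -- sets with exactly one point in S
  have h2 : (Finset.univ.filter (fun A : Finset α =>
      A.card = k - 1 ∧ (A ∩ S).card = 1)).card ≤
      S.card * (Fintype.card α - S.card).choose (k - 2) := by
    have h3 : Finset.univ.filter (fun A : Finset α => A.card = k - 1 ∧ (A ∩ S).card = 1) ⊆
        S.biUnion (fun s => (Finset.univ.filter (fun A : Finset α =>
          A.card = k - 2 ∧ Disjoint A S)).image (fun B => insert s B)) := by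
      intro A hA
      obtain ⟨hA1, hA2⟩ := (Finset.mem_filter.1 hA).2
      obtain ⟨s, hs⟩ := Finset.card_eq_one.1 hA2
      have hs2 : s ∈ A ∩ S := by rw [hs]; exact Finset.mem_singleton_self s
      rw [Finset.mem_inter] at hs2
      rw [Finset.mem_biUnion]
      refine ⟨s, hs2.2, ?_⟩
      rw [Finset.mem_image]
      refine ⟨A.erase s, ?_, Finset.insert_erase hs2.1⟩
      simp only [Finset.mem_filter, Finset.mem_univ, true_and]
      refine ⟨?_, ?_⟩
      · rw [Finset.card_erase_of_mem hs2.1]
        omega
      · rw [Finset.disjoint_left]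
        intro z hz hzS
        have : z ∈ A ∩ S := Finset.mem_inter.2 ⟨Finset.mem_of_mem_erase hz, hzS⟩
        rw [hs, Finset.mem_singleton] at this
        exact Finset.ne_of_mem_erase hz this
    calc _ ≤ _ := Finset.card_le_card h3
      _ ≤ ∑ s ∈ S, ((Finset.univ.filter (fun A : Finset α =>
          A.card = k - 2 ∧ Disjoint A S)).image (fun B => insert s B)).card :=
          Finset.card_biUnion_le
      _ ≤ ∑ s ∈ S, (Fintype.card α - S.card).choose (k - 2) := by
          apply Finset.sum_le_sum
          intro s _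
          rw [← card_avoid]
          exact Finset.card_image_le
      _ = _ := by rw [Finset.sum_const, smul_eq_mul]
  have h3 : (Fintype.card α).choose (k - 1) ≤
      (Finset.univ.filter (fun A : Finset α => A.card = k - 1 ∧ 2 ≤ (A ∩ S).card)).card +
      (Finset.univ.filter (fun A : Finset α => A.card = k - 1 ∧ Disjoint A S)).card +
      (Finset.univ.filter (fun A : Finset α => A.card = k - 1 ∧ (A ∩ S).card = 1)).card := by
    rw [← Finset.card_univ, ← Finset.card_powersetCard]
    refine le_trans ?_ (Nat.add_le_add_right (Finset.card_union_le _ _) _)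
    refine le_trans ?_ (Finset.card_union_le _ _)
    apply Finset.card_le_card
    intro A hA
    have hA1 := (Finset.mem_powersetCard.1 hA).2
    simp only [Finset.mem_union, Finset.mem_filter, Finset.mem_univ, true_and]
    by_cases hd : Disjoint A S
    · exact Or.inl (Or.inr ⟨hA1, hd⟩)
    · have : 0 < (A ∩ S).card := by
        rw [Finset.card_pos]
        rw [Finset.not_disjoint_iff] at hd
        obtain ⟨z, hz1, hz2⟩ := hd
        exact ⟨z, Finset.mem_inter.2 ⟨hz1, hz2⟩⟩
      by_cases h4 : (A ∩ S).card = 1
      · exact Or.inr ⟨hA1, h4⟩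
      · exact Or.inl (Or.inl ⟨hA1, by omega⟩)
  rw [card_avoid] at h1 h3
  omega

end family

end Pool.Agent.H153_MeetIrr
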