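import Pool.Agent.H153_MeetIrr.Lower3

/-! Explicit lower bounds for `f n`. -/

namespace Pool.Agent.H153_MeetIrr

open Finset

/-- labels: `0, 1, 2` for the special points and `4, …, 2k` for the others -/
def lab (k : ℕ) (i : Fin (2 * k)) : ℕ := if i.1 < 3 then i.1 else i.1 + 1

theorem lab_lt (k : ℕ) (i : Fin (2 * k)) : lab k i < 2 * k + 1 := by
  have := i.2
  unfold lab
  split_ifs <;> omega

theorem cast_inj {M a b : ℕ} (ha : a < M) (hb : b < M) (h : (a : ZMod M) = b) : a = b := by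
  have := (ZMod.natCast_eq_natCast_iff' a b M).1 h
  rwa [Nat.mod_eq_of_lt ha, Nat.mod_eq_of_lt hb] at this

theorem f_even_size {k : ℕ} (hk : 3 ≤ k) :
    ∃ F : ℕ, F ≤ f (2 * k) ∧
      (2 * k + 1) * ((2 * k - 3).choose (k - 1) + (2 * k).choose k) + (2 * k).choose (k - 1) ≤
      (2 * k + 1) * (F + (2 * k - 3).choose k) + (2 * k - 3).choose (k - 1) +
        2 * (2 * k - 3).choose (k - 2) := by
  classical
  let S : Finset (Fin (2 * k)) := Finset.univ.filter (fun i => i.1 < 3)
  have hS : S.card = 3 := by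
    have h1 : S = ({⟨0, by omega⟩, ⟨1, by omega⟩, ⟨2, by omega⟩} : Finset (Fin (2 * k))) := by
      ext i
      simp only [S, Finset.mem_filter, Finset.mem_univ, true_and, Finset.mem_insert,
        Finset.mem_singleton, Fin.ext_iff]
      omega
    rw [h1]
    rw [Finset.card_eq_three]
    refine ⟨_, _, _, ?_, ?_, ?_, rfl⟩ <;> simp [Fin.ext_iff]
  let v : Fin (2 * k) → ZMod (2 * k + 1) := fun i => (lab k i : ZMod (2 * k + 1))
  have hv : Function.Injective v := by
    intro i j hij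
    have h1 := cast_inj (lab_lt k i) (lab_lt k j) hij
    apply Fin.ext
    unfold lab at h1
    split_ifs at h1 <;> omega
  have hv2 : ∀ b ∉ S, ∀ s ∈ S, ∀ t ∈ S, s ≠ t → v b ≠ v s + v t := by
    intro b hb s hs t ht hst h
    simp only [S, Finset.mem_filter, Finset.mem_univ, true_and] at hb hs ht
    have hst' : s.1 ≠ t.1 := fun h => hst (Fin.ext h)
    have e1 : lab k s = s.1 := by unfold lab; rw [if_pos hs]
    have e2 : lab k t = t.1 := by unfold lab; rw [if_pos ht]
    have e3 : lab k b = b.1 + 1 := by unfold lab; rw [if_neg hb]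
    have h2 : ((lab k b : ℕ) : ZMod (2 * k + 1)) = ((lab k s + lab k t : ℕ) : ZMod (2 * k + 1)) := by
      rw [Nat.cast_add]
      exact h
    have h3 := cast_inj (lab_lt k b) (by omega) h2
    omega
  obtain ⟨r, hr⟩ := exists_label S k v
  have hF := priv_three hk hv hv2 r
  have h4 := le_f_of_priv (n := 2 * k) (by omega) (Fintype.card_fin _) hF
  refine ⟨_, h4, ?_⟩
  have hdis : Disjoint (lev S k) (cod S k v r) := by
    rw [Finset.disjoint_left]
    intro A hA hA2
    have h1 := (Finset.mem_filter.1 hA).2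
    have h2 := (Finset.mem_filter.1 (Finset.mem_filter.1 hA2).1).2
    rcases h1 with h1 | h1 <;> rcases h2 with h2 | h2
    · have h5 : A ∩ S = ∅ := Finset.disjoint_iff_inter_eq_empty.1 h1.2
      rw [h5] at h2
      simp at h2
    · omega
    · omega
    · omega
  rw [Finset.card_union_of_disjoint hdis]
  have h5 := card_lev (S := S) (k := k) (by omega)
  have h6 := card_pos_ge (S := S) (k := k) hk
  rw [hS, Fintype.card_fin] at h5 h6
  rw [ZMod.card] at hr
  have h7 : (2 * k + 1) * ((2 * k - 3).choose (k - 1) + (2 * k).choose k) =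
      (2 * k + 1) * ((lev S k).card + (2 * k - 3).choose k) := by
    rw [h5]
  rw [h7]
  have h8 : (2 * k + 1) * ((lev S k).card + (cod S k v r).card + (2 * k - 3).choose k) =
      (2 * k + 1) * ((lev S k).card + (2 * k - 3).choose k) +
        (2 * k + 1) * (cod S k v r).card := by ring
  rw [h8]
  omega

/-- `f(n) ≥ (1 + 9/(8(n+3))) C(n, n/2)` for even `n = 2k ≥ 6`. -/
theorem f_even_lower3 {k : ℕ} (hk : 3 ≤ k) :
    (16 * k + 33) * (2 * k).choose k ≤ 8 * (2 * k + 3) * f (2 * k) := by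
  obtain ⟨F, hF, h⟩ := f_even_size hk
  obtain ⟨j, rfl⟩ : ∃ j, k = j + 3 := ⟨k - 3, by omega⟩
  have e0 : 2 * (j + 3) - 3 = 2 * j + 3 := by omega
  have e1 : j + 3 - 1 = j + 2 := by omega
  have e2 : j + 3 - 2 = j + 1 := by omega
  rw [e0, e1, e2] at h
  -- binomial identities
  have b1 : (2 * j + 3).choose (j + 1) = (2 * j + 3).choose (j + 2) :=
    Nat.choose_symm_of_eq_add (by omega)
  have b2 : (2 * j + 3).choose (j + 3) * (j + 3) = (2 * j + 3).choose (j + 2) * (j + 1) := by
    have := Nat.choose_succ_right_eq (2 * j + 3) (j + 2)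
    have e : 2 * j + 3 - (j + 2) = j + 1 := by omega
    rw [e] at this
    exact this
  have b3 : (2 * (j + 3)).choose (j + 3) * (j + 3) = (2 * (j + 3)).choose (j + 2) * (j + 4) := by
    have := Nat.choose_succ_right_eq (2 * (j + 3)) (j + 2)
    have e : 2 * (j + 3) - (j + 2) = j + 4 := by omega
    rw [e] at this
    exact this
  -- `(j+3) C(2j+6, j+3) = 4 (2j+5) C(2j+3, j+2)`
  have b4 : (j + 3) * (2 * (j + 3)).choose (j + 3) =
      4 * (2 * j + 5) * (2 * j + 3).choose (j + 2) := by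
    have c1 : (2 * j + 4).choose (j + 2) = 2 * (2 * j + 3).choose (j + 2) := by
      have := Nat.choose_succ_succ (2 * j + 3) (j + 1)
      simp only [Nat.succ_eq_add_one] at this
      rw [show 2 * j + 3 + 1 = 2 * j + 4 from rfl, show j + 1 + 1 = j + 2 from rfl, b1] at this
      omega
    have c2 : (2 * j + 5).choose (j + 3) * (j + 3) = (2 * j + 5) * (2 * j + 4).choose (j + 2) := by
      have := Nat.add_one_mul_choose_eq (2 * j + 4) (j + 2)
      exact this.symm
    have c3 : (2 * (j + 3)).choose (j + 3) = 2 * (2 * j + 5).choose (j + 3) := by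
      have h1 := Nat.choose_succ_succ (2 * j + 5) (j + 2)
      simp only [Nat.succ_eq_add_one] at h1
      have h2 : (2 * j + 5).choose (j + 2) = (2 * j + 5).choose (j + 3) :=
        Nat.choose_symm_of_eq_add (by omega)
      rw [h2] at h1
      have e : 2 * (j + 3) = 2 * j + 5 + 1 := by omega
      rw [e]
      rw [show j + 2 + 1 = j + 3 from rfl] at h1
      omega
    calc (j + 3) * (2 * (j + 3)).choose (j + 3)
        = 2 * ((2 * j + 5).choose (j + 3) * (j + 3)) := by rw [c3]; ring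
      _ = 2 * ((2 * j + 5) * (2 * (2 * j + 3).choose (j + 2))) := by rw [c2, c1]
      _ = _ := by ring
  rw [b1] at h
  generalize (2 * j + 3).choose (j + 2) = a at *
  generalize (2 * j + 3).choose (j + 3) = b at *
  generalize (2 * (j + 3)).choose (j + 3) = c at *
  generalize (2 * (j + 3)).choose (j + 2) = d at *
  generalize f (2 * (j + 3)) = g at *
  -- pass to rationals
  have hq : ((2 * (j : ℚ) + 7) * (a + c) + d) ≤ (2 * (j : ℚ) + 7) * (F + b) + a + 2 * a := by
    have := h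
    have h' : ((2 * (j + 3) + 1) * (a + c) + d : ℕ) ≤
      ((2 * (j + 3) + 1) * (F + b) + a + 2 * a : ℕ) := this
    have h'' : (((2 * (j + 3) + 1) * (a + c) + d : ℕ) : ℚ) ≤
      (((2 * (j + 3) + 1) * (F + b) + a + 2 * a : ℕ) : ℚ) := by exact_mod_cast h'
    push_cast at h''
    linarith
  have hj : (0 : ℚ) ≤ j := by positivity
  have q2 : (b : ℚ) = a * (j + 1) / (j + 3) := by
    rw [eq_div_iff (by positivity)]
    exact_mod_cast b2
  have q3 : (d : ℚ) = c * (j + 3) / (j + 4) := by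
    rw [eq_div_iff (by positivity)]
    have : (c * (j + 3) : ℕ) = (d * (j + 4) : ℕ) := b3
    have h2 : ((c * (j + 3) : ℕ) : ℚ) = ((d * (j + 4) : ℕ) : ℚ) := by rw [this]
    push_cast at h2
    linarith
  have q4 : (a : ℚ) = (j + 3) * c / (4 * (2 * j + 5)) := by
    rw [eq_div_iff (by positivity)]
    have h2 : (((j + 3) * c : ℕ) : ℚ) = ((4 * (2 * j + 5) * a : ℕ) : ℚ) := by rw [b4]
    push_cast at h2
    linarith
  have hc : (0 : ℚ) ≤ c := by positivity
  -- F - c ≥ c (9k²-k+2) / (4(2k-1)(k+1)(2k+1)) with k = j+3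
  have key : (c : ℚ) * ((9 * (j + 3) ^ 2 - (j + 3) + 2) /
      (4 * (2 * j + 5) * (j + 4) * (2 * j + 7))) ≤ F - c := by
    have h1 : (2 * (j : ℚ) + 7) * (F - c) ≥ (2 * (j : ℚ) + 7) * (a - b) + d - 3 * a := by
      linarith
    have h2 : (2 * (j : ℚ) + 7) * (a - b) + d - 3 * a =
        (2 * (j : ℚ) + 7) * (c * ((9 * (j + 3) ^ 2 - (j + 3) + 2) /
          (4 * (2 * j + 5) * (j + 4) * (2 * j + 7)))) := by
      rw [q2, q3, q4]
      field_simp
      ring
    rw [h2] at h1
    exact le_of_mul_le_mul_left h1 (by positivity)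
  have key2 : (9 : ℚ) / (8 * (2 * j + 9)) ≤ (9 * (j + 3) ^ 2 - (j + 3) + 2) /
      (4 * (2 * j + 5) * (j + 4) * (2 * j + 7)) := by
    rw [div_le_div_iff₀ (by positivity) (by positivity)]
    nlinarith [mul_nonneg hj hj, mul_nonneg (mul_nonneg hj hj) hj]
  have key3 : (c : ℚ) * (9 / (8 * (2 * j + 9))) ≤ F - c :=
    (mul_le_mul_of_nonneg_left key2 hc).trans key
  have key4 : (c : ℚ) * 9 ≤ (8 * (2 * j + 9)) * (F - c) := by
    have h1 : (c : ℚ) * 9 = (8 * (2 * j + 9)) * (c * (9 / (8 * (2 * j + 9)))) := by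
      field_simp
    rw [h1]
    exact mul_le_mul_of_nonneg_left key3 (by positivity)
  have key5 : (((16 * (j + 3) + 33) * c : ℕ) : ℚ) ≤ ((8 * (2 * (j + 3) + 3) * F : ℕ) : ℚ) := by
    push_cast
    linarith
  have key6 : (16 * (j + 3) + 33) * c ≤ 8 * (2 * (j + 3) + 3) * F := by exact_mod_cast key5
  exact key6.trans (Nat.mul_le_mul_left _ hF)

/-- `f(n) ≥ (1 + 25/(16(n+1))) C(n, (n-1)/2)` for odd `n = 2k+1 ≥ 7`. -/
theorem f_odd_lower3 {k : ℕ} (hk : 3 ≤ k) :
    (16 * (2 * k + 1) + 41) * (2 * k + 1).choose k ≤ 16 * (2 * k + 2) * f (2 * k + 1) := by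
  have h1 := f_even_lower3 hk
  have h2 := f_succ (n := 2 * k) (by omega) k
  have h3 : (2 * k + 1).choose k * (k + 1) = (2 * k + 1) * (2 * k).choose k := by
    have := Nat.add_one_mul_choose_eq (2 * k) k
    rw [Nat.choose_symm_half] at this
    exact this.symm
  generalize (2 * k + 1).choose k = a at *
  generalize (2 * k).choose k = c at *
  generalize f (2 * k) = g at *
  generalize f (2 * k + 1) = g' at *
  have hk0 : (0 : ℚ) < k := by
    have : 0 < k := by omega
    exact_mod_cast this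
  have q1 : (16 * (k : ℚ) + 33) * c ≤ 8 * (2 * k + 3) * g := by exact_mod_cast h1
  have q2 : (g : ℚ) + c ≤ g' := by exact_mod_cast h2
  have q3 : (a : ℚ) * (k + 1) = (2 * k + 1) * c := by exact_mod_cast h3
  have hc : (0 : ℚ) ≤ c := by positivity
  have q4 : (c : ℚ) = a * (k + 1) / (2 * k + 1) := by
    rw [eq_div_iff (by positivity), q3]
    ring
  have ha : (0 : ℚ) ≤ a := by positivity
  -- 8(2k+3) g' ≥ (32k+57) c
  have q5 : (32 * (k : ℚ) + 57) * c ≤ 8 * (2 * k + 3) * g' := by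
    have : 8 * (2 * (k : ℚ) + 3) * (g + c) ≤ 8 * (2 * k + 3) * g' :=
      mul_le_mul_of_nonneg_left q2 (by positivity)
    linarith
  have q6 : ((32 * (k : ℚ) + 57) * (k + 1) / (8 * (2 * k + 3) * (2 * k + 1))) * a ≤ g' := by
    rw [q4] at q5
    have h4 : ((32 * (k : ℚ) + 57) * (k + 1) / (8 * (2 * k + 3) * (2 * k + 1))) * a =
        ((32 * (k : ℚ) + 57) * (a * (k + 1) / (2 * k + 1))) / (8 * (2 * k + 3)) := by
      field_simp
    rw [h4, div_le_iff₀ (by positivity)]
    linarith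
  have q7 : (16 * (2 * (k : ℚ) + 1) + 41) / (16 * (2 * k + 2)) ≤
      (32 * (k : ℚ) + 57) * (k + 1) / (8 * (2 * k + 3) * (2 * k + 1)) := by
    rw [div_le_div_iff₀ (by positivity) (by positivity)]
    nlinarith [mul_pos hk0 hk0, mul_pos (mul_pos hk0 hk0) hk0]
  have q8 : ((16 * (2 * (k : ℚ) + 1) + 41) / (16 * (2 * k + 2))) * a ≤ g' :=
    (mul_le_mul_of_nonneg_right q7 ha).trans q6
  have q9 : (16 * (2 * (k : ℚ) + 1) + 41) * a ≤ 16 * (2 * k + 2) * g' := by
    have h5 : (16 * (2 * (k : ℚ) + 1) + 41) * a =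
        16 * (2 * k + 2) * (((16 * (2 * (k : ℚ) + 1) + 41) / (16 * (2 * k + 2))) * a) := by
      field_simp
    rw [h5]
    exact mul_le_mul_of_nonneg_left q8 (by positivity)
  exact_mod_cast q9

end Pool.Agent.H153_MeetIrr
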