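import Pool.Agent.H153_MeetIrr.Count

/-! Reduction to families of small sets, and the bound for all families with private elements. -/

namespace Pool.Agent.H153_MeetIrr

open Finset

variable {α : Type*} [DecidableEq α] [Fintype α]

/-- Replace the members of the largest size `a` by their subsets of size `a - 1` containing the
private element. -/
theorem push_one {F : Finset (Finset α)} (hF : Priv F) {a : ℕ}
    (ha : Fintype.card α + 2 ≤ 2 * a) (hlev : ∀ A ∈ F, A.card ≤ a) :
    ∃ F' : Finset (Finset α), Priv F' ∧ F.card ≤ F'.card ∧ ∀ A ∈ F', A.card ≤ a - 1 := by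
  classical
  by_cases hne : Nonempty α
  swap
  · -- no points: the family is empty
    refine ⟨F, hF, le_rfl, fun A hA => ?_⟩
    obtain ⟨x, _⟩ := hF A hA
    exact absurd ⟨x⟩ hne
  have hch : ∀ A : Finset α, ∃ x : α, A ∈ F → (x ∈ A ∧ ∀ B ∈ F, B ⊂ A → x ∉ B) := by
    intro A
    by_cases hA : A ∈ F
    · obtain ⟨x, hx⟩ := hF A hA
      exact ⟨x, fun _ => hx⟩
    · obtain ⟨x⟩ := hne
      exact ⟨x, fun h => absurd h hA⟩
  choose x hx using hch
  let Fa : Finset (Finset α) := F.filter (fun A => A.card = a)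
  let Fb : Finset (Finset α) := F.filter (fun A => A.card < a)
  let N : Finset (Finset α) :=
    Fa.biUnion (fun A => (A.erase (x A)).image (fun y => A.erase y))
  have hN : ∀ D, D ∈ N ↔ ∃ A ∈ Fa, ∃ y ∈ A, y ≠ x A ∧ A.erase y = D := by
    intro D
    simp only [N, Finset.mem_biUnion, Finset.mem_image, Finset.mem_erase]
    constructor
    · rintro ⟨A, hA, y, ⟨h1, h2⟩, h3⟩
      exact ⟨A, hA, y, h2, h1, h3⟩
    · rintro ⟨A, hA, y, h2, h1, h3⟩
      exact ⟨A, hA, y, ⟨h1, h2⟩, h3⟩
  have hFa : ∀ A ∈ Fa, A ∈ F ∧ A.card = a := fun A hA => Finset.mem_filter.1 hA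
  have hNcard : ∀ D ∈ N, D.card = a - 1 := by
    intro D hD
    obtain ⟨A, hA, y, hy, _, rfl⟩ := (hN D).1 hD
    rw [Finset.card_erase_of_mem hy, (hFa A hA).2]
  have hNF : ∀ D ∈ N, D ∉ F := by
    intro D hD hDF
    obtain ⟨A, hA, y, hy, hyx, rfl⟩ := (hN D).1 hD
    have h1 := hx A (hFa A hA).1
    exact h1.2 _ hDF (Finset.erase_ssubset hy) (Finset.mem_erase.2 ⟨hyx.symm, h1.1⟩)
  have hcount : Fa.card * (a - 1) ≤ N.card * (Fintype.card α - (a - 1)) := by
    apply Finset.card_mul_le_card_mul (fun A D => ∃ y ∈ A, y ≠ x A ∧ A.erase y = D)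
    · intro A hA
      have h1 := hx A (hFa A hA).1
      have h2 : ((A.erase (x A)).image (fun y => A.erase y)).card = a - 1 := by
        rw [Finset.card_image_of_injOn, Finset.card_erase_of_mem h1.1, (hFa A hA).2]
        intro y hy z hz hyz
        have hy' := Finset.mem_of_mem_erase (Finset.mem_coe.1 hy)
        simp only at hyz
        by_contra hne2
        have : y ∈ A.erase z := Finset.mem_erase.2 ⟨hne2, hy'⟩
        rw [← hyz] at this
        exact (Finset.notMem_erase y A) this
      rw [← h2]
      apply Finset.card_le_card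
      intro D hD
      obtain ⟨y, hy, rfl⟩ := Finset.mem_image.1 hD
      rw [Finset.mem_erase] at hy
      rw [Finset.mem_bipartiteAbove]
      exact ⟨(hN _).2 ⟨A, hA, y, hy.2, hy.1, rfl⟩, y, hy.2, hy.1, rfl⟩
    · intro D hD
      have h2 : (Dᶜ.image (fun z => insert z D)).card ≤ Fintype.card α - (a - 1) := by
        apply le_trans Finset.card_image_le
        rw [Finset.card_compl, hNcard D hD]
      apply le_trans (Finset.card_le_card _) h2
      intro A hA
      rw [Finset.mem_bipartiteBelow] at hA
      obtain ⟨hA1, y, hy, _, h3⟩ := hA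
      rw [Finset.mem_image]
      refine ⟨y, ?_, ?_⟩
      · rw [Finset.mem_compl, ← h3]
        exact Finset.notMem_erase y A
      · rw [← h3, Finset.insert_erase hy]
  have hFaN : Fa.card ≤ N.card := by
    have h1 : Fintype.card α - (a - 1) ≤ a - 1 := by omega
    have h2 : Fa.card * (a - 1) ≤ N.card * (a - 1) :=
      hcount.trans (Nat.mul_le_mul_left _ h1)
    have h3 : 0 < a - 1 := by
      have : 0 < Fintype.card α := Fintype.card_pos_iff.2 hne
      omega
    exact Nat.le_of_mul_le_mul_right h2 h3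
  have hsplit : Fb.card + Fa.card = F.card := by
    have h1 : Fa = F.filter (fun A => ¬ A.card < a) := by
      apply Finset.filter_congr
      intro A hA
      have := hlev A hA
      omega
    rw [h1]
    exact Finset.card_filter_add_card_filter_not _
  have hdis : Disjoint Fb N := by
    rw [Finset.disjoint_left]
    intro D hD hD2
    exact hNF D hD2 (Finset.mem_filter.1 hD).1
  refine ⟨Fb ∪ N, ?_, ?_, ?_⟩
  · intro A hA
    rcases Finset.mem_union.1 hA with hA | hA
    · have hA' := Finset.mem_filter.1 hA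
      refine ⟨x A, (hx A hA'.1).1, ?_⟩
      intro B hB hBA
      rcases Finset.mem_union.1 hB with hB | hB
      · exact (hx A hA'.1).2 B (Finset.mem_filter.1 hB).1 hBA
      · have h1 := hNcard B hB
        have h2 := Finset.card_lt_card hBA
        omega
    · obtain ⟨C, hC, y, hy, hyx, rfl⟩ := (hN A).1 hA
      have hC' := hFa C hC
      have h1 := hx C hC'.1
      refine ⟨x C, Finset.mem_erase.2 ⟨hyx.symm, h1.1⟩, ?_⟩
      intro B hB hBA
      rcases Finset.mem_union.1 hB with hB | hB
      · exact h1.2 B (Finset.mem_filter.1 hB).1 (hBA.trans (Finset.erase_ssubset hy))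
      · have h3 := hNcard B hB
        have h2 := Finset.card_lt_card hBA
        rw [Finset.card_erase_of_mem hy, hC'.2] at h2
        omega
  · rw [Finset.card_union_of_disjoint hdis]
    omega
  · intro A hA
    rcases Finset.mem_union.1 hA with hA | hA
    · have := (Finset.mem_filter.1 hA).2
      omega
    · exact (hNcard A hA).le

theorem push_all {k : ℕ} (hk : Fintype.card α ≤ 2 * k) (m : ℕ) :
    ∀ F : Finset (Finset α), Priv F → (∀ A ∈ F, A.card ≤ k + m) →
    ∃ F' : Finset (Finset α), Priv F' ∧ F.card ≤ F'.card ∧ ∀ A ∈ F', A.card ≤ k := by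
  induction m with
  | zero => exact fun F hF hlev => ⟨F, hF, le_rfl, hlev⟩
  | succ m ih =>
    intro F hF hlev
    obtain ⟨F1, h1, h2, h3⟩ := push_one hF (a := k + (m + 1)) (by omega) hlev
    obtain ⟨F2, g1, g2, g3⟩ := ih F1 h1 (fun A hA => by have := h3 A hA; omega)
    exact ⟨F2, g1, h2.trans g2, g3⟩

/-- A largest family of sets with at most `k` elements makes every `k`-set closed. -/
theorem exists_extremal (k : ℕ) :
    ∃ F : Finset (Finset α), Priv F ∧ (∀ A ∈ F, A.card ≤ k) ∧
      (∀ G : Finset (Finset α), Priv G → (∀ A ∈ G, A.card ≤ k) → G.card ≤ F.card) ∧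
      ∀ W : Finset α, W.card = k → intr F W = W := by
  classical
  let S : Finset (Finset (Finset α)) :=
    Finset.univ.filter (fun F => Priv F ∧ ∀ A ∈ F, A.card ≤ k)
  have hS : S.Nonempty := ⟨∅, Finset.mem_filter.2 ⟨Finset.mem_univ _,
    fun A hA => absurd hA (Finset.notMem_empty A),
    fun A hA => absurd hA (Finset.notMem_empty A)⟩⟩
  obtain ⟨F, hFS, hmax⟩ := Finset.exists_max_image S Finset.card hS
  simp only [S, Finset.mem_filter, Finset.mem_univ, true_and] at hFS hmax
  refine ⟨F, hFS.1, hFS.2, fun G h1 h2 => hmax G ⟨h1, h2⟩, ?_⟩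
  intro W hW
  by_contra hne
  have hWF : W ∉ F := fun h => hne (intr_of_mem h)
  have hx : ∃ x ∈ W, x ∉ intr F W := by
    by_contra hcon
    push Not at hcon
    exact hne (Finset.Subset.antisymm (intr_sub F W) hcon)
  obtain ⟨x, hxW, hx⟩ := hx
  have h1 : Priv (insert W F) := by
    intro A hA
    rcases Finset.mem_insert.1 hA with rfl | hA
    · refine ⟨x, hxW, ?_⟩
      intro B hB hBW hxB
      rcases Finset.mem_insert.1 hB with rfl | hB
      · exact absurd hBW (ssubset_irrefl _)
      · exact hx (mem_intr.2 ⟨B, hB, hBW.subset, hxB⟩)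
    · obtain ⟨y, hy, hy2⟩ := hFS.1 A hA
      have h3 := hFS.2 A hA
      refine ⟨y, hy, ?_⟩
      intro B hB hBA
      rcases Finset.mem_insert.1 hB with rfl | hB
      · have h2 := Finset.card_lt_card hBA
        omega
      · exact hy2 B hB hBA
  have h2 := hmax (insert W F) ⟨h1, by
    intro A hA
    rcases Finset.mem_insert.1 hA with rfl | hA
    · exact hW.le
    · exact hFS.2 A hA⟩
  rw [Finset.card_insert_of_notMem hWF] at h2
  omega

/-- **Main bound** for families with private elements on a ground set with `n ≥ 1` elements. -/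
theorem priv_bound {F : Finset (Finset α)} (hF : Priv F) (hn : 1 ≤ Fintype.card α) :
    F.card * (Fintype.card α / 2) ≤
      (Fintype.card α / 2 + 1) * ((Fintype.card α).choose (Fintype.card α / 2) - 1) := by
  set n := Fintype.card α with hndef
  obtain ⟨k, hk⟩ : ∃ k, k = (n + 1) / 2 := ⟨_, rfl⟩
  obtain ⟨F1, h1, h2, h3⟩ := push_all (α := α) (k := k) (by omega) n F hF (fun A _ => by
    have := Finset.card_le_univ A
    omega)
  obtain ⟨G, g1, g2, g3, g4⟩ := exists_extremal (α := α) k
  have h4 := count_main g1 (k := k) (by omega) (by omega) (by omega) g2 g4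
  have h5 := g3 F1 h1 h3
  have e1 : Fintype.card α - k = Fintype.card α / 2 := by omega
  have e2 : (Fintype.card α).choose k = (Fintype.card α).choose (Fintype.card α / 2) := by
    rw [← e1]
    exact (Nat.choose_symm (by omega)).symm
  rw [e1, e2] at h4
  exact (Nat.mul_le_mul_right _ (h2.trans h5)).trans h4

end Pool.Agent.H153_MeetIrr
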