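import Pool.Agent.H153_MeetIrr.Star
import Pool.Agent.H153_MeetIrr.Lower

/-! The values `f n` for `n ≤ 7`. -/

namespace Pool.Agent.H153_MeetIrr

open Finset

/-- A graph on five vertices has two disjoint edges, or two disjoint pairs of vertices without
any edge between them. -/
theorem graph5 : ∀ e01 e02 e03 e04 e12 e13 e14 e23 e24 e34 : Bool,
    (
     (e01 && e23) || (e01 && e24) || (e01 && e34) || (e02 && e13) || (e02 && e14) ||
     (e02 && e34) || (e03 && e12) || (e03 && e14) || (e03 && e24) || (e04 && e12) ||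
     (e04 && e13) || (e04 && e23) || (e12 && e34) || (e13 && e24) || (e14 && e23) ||
     (!e02 && !e03 && !e12 && !e13) || (!e02 && !e04 && !e12 && !e14) ||
     (!e03 && !e04 && !e13 && !e14) || (!e01 && !e03 && !e12 && !e23) ||
     (!e01 && !e04 && !e12 && !e24) || (!e03 && !e04 && !e23 && !e24) ||
     (!e01 && !e02 && !e13 && !e23) || (!e01 && !e04 && !e13 && !e34) ||
     (!e02 && !e04 && !e23 && !e34) || (!e01 && !e02 && !e14 && !e24) ||
     (!e01 && !e03 && !e14 && !e34) || (!e02 && !e03 && !e24 && !e34) ||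
     (!e13 && !e14 && !e23 && !e24) || (!e12 && !e14 && !e23 && !e34) ||
     (!e12 && !e13 && !e24 && !e34)) = true := by
  decide

/-- weight of the reducible sets, `c = 5` minimal members -/
theorem small_five {α : Type*} [DecidableEq α] (U : Finset α) (hU : U.card ≤ 7)
    (M : Fin 5 → Finset α) (hMU : ∀ i, M i ⊆ U) (hne : ∀ i, (M i).Nonempty)
    (htau : ∀ H : Finset α, H ⊆ U → H.card ≤ 3 → ∃ i, Disjoint (M i) H) :
    ∃ i j, i ≠ j ∧ (M i ∪ M j).card ≤ 3 := by
  by_contra hcon
  push Not at hcon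
  let E : Fin 5 → Fin 5 → Bool := fun i j => !decide (Disjoint (M i) (M j))
  have hE1 : ∀ i j, E i j = true → ∃ x, x ∈ M i ∧ x ∈ M j := by
    intro i j h
    have h1 : ¬ Disjoint (M i) (M j) := by
      intro hd
      simp only [E, hd, decide_true, Bool.not_true] at h
      exact absurd h (by decide)
    rwa [Finset.not_disjoint_iff] at h1
  have hE2 : ∀ i j, E i j = false → Disjoint (M i) (M j) := by
    intro i j h
    by_contra hd
    simp only [E, hd, decide_false, Bool.not_false] at h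
    exact absurd h (by decide)
  have hsym : ∀ i j, E i j = E j i := by
    intro i j
    simp only [E, disjoint_comm]
  have hno2 : ∀ a b c d e : Fin 5, (∀ i : Fin 5, i = a ∨ i = b ∨ i = c ∨ i = d ∨ i = e) →
      E a b = true → E c d = true → False := by
    intro a b c d e hall h1 h2
    obtain ⟨x, hx1, hx2⟩ := hE1 a b h1
    obtain ⟨y, hy1, hy2⟩ := hE1 c d h2
    obtain ⟨z, hz⟩ := hne e
    obtain ⟨i, hi⟩ := htau {x, y, z} (by
      intro w hw
      simp only [Finset.mem_insert, Finset.mem_singleton] at hw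
      rcases hw with rfl | rfl | rfl
      · exact hMU a hx1
      · exact hMU c hy1
      · exact hMU e hz) Finset.card_le_three
    rw [Finset.disjoint_left] at hi
    rcases hall i with rfl | rfl | rfl | rfl | rfl
    · exact hi hx1 (by simp)
    · exact hi hx2 (by simp)
    · exact hi hy1 (by simp)
    · exact hi hy2 (by simp)
    · exact hi hz (by simp)
  have hnocross : ∀ a b c d : Fin 5, (a ≠ b ∧ c ≠ d) → E a c = false → E a d = false →
      E b c = false → E b d = false → False := by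
    intro a b c d hd h1 h2 h3 h4
    have h5 : Disjoint (M a ∪ M b) (M c ∪ M d) := by
      rw [Finset.disjoint_union_left, Finset.disjoint_union_right, Finset.disjoint_union_right]
      exact ⟨⟨hE2 _ _ h1, hE2 _ _ h2⟩, ⟨hE2 _ _ h3, hE2 _ _ h4⟩⟩
    have h6 : ((M a ∪ M b) ∪ (M c ∪ M d)).card ≤ U.card :=
      Finset.card_le_card (Finset.union_subset (Finset.union_subset (hMU a) (hMU b))
        (Finset.union_subset (hMU c) (hMU d)))
    rw [Finset.card_union_of_disjoint h5] at h6
    have h7 := hcon a b hd.1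
    have h8 := hcon c d hd.2
    omega
  have key := graph5 (E 0 1) (E 0 2) (E 0 3) (E 0 4) (E 1 2) (E 1 3) (E 1 4) (E 2 3) (E 2 4) (E 3 4)
  simp only [Bool.or_eq_true, Bool.and_eq_true, Bool.not_eq_true'] at key
  rcases key with ((((((((((((((((((((((((((((h | h) | h) | h) | h) | h) | h) | h) | h) | h) | h) | h) | h) | h) | h) | h) | h) | h) | h) | h) | h) | h) | h) | h) | h) | h) | h) | h) | h) | h
  · exact hno2 0 1 2 3 4 (by decide) h.1 h.2
  · exact hno2 0 1 2 4 3 (by decide) h.1 h.2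
  · exact hno2 0 1 3 4 2 (by decide) h.1 h.2
  · exact hno2 0 2 1 3 4 (by decide) h.1 h.2
  · exact hno2 0 2 1 4 3 (by decide) h.1 h.2
  · exact hno2 0 2 3 4 1 (by decide) h.1 h.2
  · exact hno2 0 3 1 2 4 (by decide) h.1 h.2
  · exact hno2 0 3 1 4 2 (by decide) h.1 h.2
  · exact hno2 0 3 2 4 1 (by decide) h.1 h.2
  · exact hno2 0 4 1 2 3 (by decide) h.1 h.2
  · exact hno2 0 4 1 3 2 (by decide) h.1 h.2
  · exact hno2 0 4 2 3 1 (by decide) h.1 h.2
  · exact hno2 1 2 3 4 0 (by decide) h.1 h.2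
  · exact hno2 1 3 2 4 0 (by decide) h.1 h.2
  · exact hno2 1 4 2 3 0 (by decide) h.1 h.2
  · exact hnocross 0 1 2 3 (by decide) h.1.1.1 h.1.1.2 h.1.2 h.2
  · exact hnocross 0 1 2 4 (by decide) h.1.1.1 h.1.1.2 h.1.2 h.2
  · exact hnocross 0 1 3 4 (by decide) h.1.1.1 h.1.1.2 h.1.2 h.2
  · exact hnocross 0 2 1 3 (by decide) h.1.1.1 h.1.1.2 ((hsym 2 1).trans h.1.2) h.2
  · exact hnocross 0 2 1 4 (by decide) h.1.1.1 h.1.1.2 ((hsym 2 1).trans h.1.2) h.2
  · exact hnocross 0 2 3 4 (by decide) h.1.1.1 h.1.1.2 h.1.2 h.2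
  · exact hnocross 0 3 1 2 (by decide) h.1.1.1 h.1.1.2 ((hsym 3 1).trans h.1.2) ((hsym 3 2).trans h.2)
  · exact hnocross 0 3 1 4 (by decide) h.1.1.1 h.1.1.2 ((hsym 3 1).trans h.1.2) h.2
  · exact hnocross 0 3 2 4 (by decide) h.1.1.1 h.1.1.2 ((hsym 3 2).trans h.1.2) h.2
  · exact hnocross 0 4 1 2 (by decide) h.1.1.1 h.1.1.2 ((hsym 4 1).trans h.1.2) ((hsym 4 2).trans h.2)
  · exact hnocross 0 4 1 3 (by decide) h.1.1.1 h.1.1.2 ((hsym 4 1).trans h.1.2) ((hsym 4 3).trans h.2)
  · exact hnocross 0 4 2 3 (by decide) h.1.1.1 h.1.1.2 ((hsym 4 2).trans h.1.2) ((hsym 4 3).trans h.2)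
  · exact hnocross 1 2 3 4 (by decide) h.1.1.1 h.1.1.2 h.1.2 h.2
  · exact hnocross 1 3 2 4 (by decide) h.1.1.1 h.1.1.2 ((hsym 3 2).trans h.1.2) h.2
  · exact hnocross 1 4 2 3 (by decide) h.1.1.1 h.1.1.2 ((hsym 4 2).trans h.1.2) ((hsym 4 3).trans h.2)

/-- weight of the reducible sets, four minimal members -/
theorem small_four {α : Type*} [DecidableEq α] (U : Finset α) (hU : U.card ≤ 7)
    (M : Fin 4 → Finset α) (hMU : ∀ i, M i ⊆ U) (hne : ∀ i, (M i).Nonempty)
    (htau : ∀ H : Finset α, H ⊆ U → H.card ≤ 3 → ∃ i, Disjoint (M i) H)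
    (R : Finset (Finset α)) (hR : ∀ i j, i ≠ j → (M i ∪ M j).card ≤ 3 → M i ∪ M j ∈ R) :
    2 ≤ ∑ A ∈ R, (4 - A.card) := by
  -- the members are pairwise disjoint
  have hdis : ∀ a b c d : Fin 4, (∀ i : Fin 4, i = a ∨ i = b ∨ i = c ∨ i = d) →
      Disjoint (M a) (M b) := by
    intro a b c d hall
    by_contra hd
    rw [Finset.not_disjoint_iff] at hd
    obtain ⟨x, hx1, hx2⟩ := hd
    obtain ⟨y, hy⟩ := hne c
    obtain ⟨z, hz⟩ := hne d
    obtain ⟨i, hi⟩ := htau {x, y, z} (by
      intro w hw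
      simp only [Finset.mem_insert, Finset.mem_singleton] at hw
      rcases hw with rfl | rfl | rfl
      · exact hMU a hx1
      · exact hMU c hy
      · exact hMU d hz) Finset.card_le_three
    rw [Finset.disjoint_left] at hi
    rcases hall i with rfl | rfl | rfl | rfl
    · exact hi hx1 (by simp)
    · exact hi hx2 (by simp)
    · exact hi hy (by simp)
    · exact hi hz (by simp)
  have h01 := hdis 0 1 2 3 (by decide)
  have h02 := hdis 0 2 1 3 (by decide)
  have h03 := hdis 0 3 1 2 (by decide)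
  have h12 := hdis 1 2 0 3 (by decide)
  have h13 := hdis 1 3 0 2 (by decide)
  have h23 := hdis 2 3 0 1 (by decide)
  have hsum : (M 0).card + (M 1).card + (M 2).card + (M 3).card ≤ 7 := by
    have h1 : Disjoint (M 0 ∪ M 1) (M 2 ∪ M 3) := by
      rw [Finset.disjoint_union_left, Finset.disjoint_union_right, Finset.disjoint_union_right]
      exact ⟨⟨h02, h03⟩, ⟨h12, h13⟩⟩
    have h2 : ((M 0 ∪ M 1) ∪ (M 2 ∪ M 3)).card ≤ U.card :=
      Finset.card_le_card (Finset.union_subset (Finset.union_subset (hMU 0) (hMU 1))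
        (Finset.union_subset (hMU 2) (hMU 3)))
    rw [Finset.card_union_of_disjoint h1, Finset.card_union_of_disjoint h01,
      Finset.card_union_of_disjoint h23] at h2
    omega
  have p0 : 1 ≤ (M 0).card := Finset.card_pos.2 (hne 0)
  have p1 : 1 ≤ (M 1).card := Finset.card_pos.2 (hne 1)
  have p2 : 1 ≤ (M 2).card := Finset.card_pos.2 (hne 2)
  have p3 : 1 ≤ (M 3).card := Finset.card_pos.2 (hne 3)
  -- one reducible pair of weight two
  have hone : ∀ i j : Fin 4, i ≠ j → Disjoint (M i) (M j) →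
      (M i).card + (M j).card ≤ 2 → 2 ≤ ∑ A ∈ R, (4 - A.card) := by
    intro i j hij hd hc
    have h1 : (M i ∪ M j).card ≤ 2 := by
      rw [Finset.card_union_of_disjoint hd]
      exact hc
    have h2 := hR i j hij (by omega)
    have h3 : 4 - (M i ∪ M j).card ≤ ∑ A ∈ R, (4 - A.card) :=
      Finset.single_le_sum (f := fun A : Finset α => 4 - A.card) (fun _ _ => Nat.zero_le _) h2
    omega
  -- two reducible sets of weight one
  have htwo : ∀ i j l : Fin 4, i ≠ j → i ≠ l → Disjoint (M i) (M j) → Disjoint (M i) (M l) →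
      Disjoint (M j) (M l) →
      (M i).card = 1 → (M j).card = 2 → (M l).card = 2 → 2 ≤ ∑ A ∈ R, (4 - A.card) := by
    intro i j l hij hil d1 d2 d3 c1 c2 c3
    have h1 : (M i ∪ M j).card = 3 := by
      rw [Finset.card_union_of_disjoint d1]
      omega
    have h2 : (M i ∪ M l).card = 3 := by
      rw [Finset.card_union_of_disjoint d2]
      omega
    have h3 := hR i j hij (by omega)
    have h4 := hR i l hil (by omega)
    have hne2 : M i ∪ M j ≠ M i ∪ M l := by
      intro h
      obtain ⟨z, hz⟩ := hne j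
      have : z ∈ M i ∪ M l := by
        rw [← h]
        exact Finset.mem_union_right _ hz
      rcases Finset.mem_union.1 this with h5 | h5
      · exact Finset.disjoint_left.1 d1 h5 hz
      · exact Finset.disjoint_left.1 d3 hz h5
    have h5 : ∑ A ∈ ({M i ∪ M j, M i ∪ M l} : Finset (Finset α)), (4 - A.card) ≤
        ∑ A ∈ R, (4 - A.card) := by
      apply Finset.sum_le_sum_of_subset
      intro A hA
      simp only [Finset.mem_insert, Finset.mem_singleton] at hA
      rcases hA with rfl | rfl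
      · exact h3
      · exact h4
    rw [Finset.sum_pair hne2, h1, h2] at h5
    omega
  have hcases : (M 0).card + (M 1).card ≤ 2 ∨ (M 0).card + (M 2).card ≤ 2 ∨
      (M 0).card + (M 3).card ≤ 2 ∨ (M 1).card + (M 2).card ≤ 2 ∨
      (M 1).card + (M 3).card ≤ 2 ∨ (M 2).card + (M 3).card ≤ 2 ∨
      ((M 0).card = 1 ∧ (M 1).card = 2 ∧ (M 2).card = 2) ∨
      ((M 1).card = 1 ∧ (M 0).card = 2 ∧ (M 2).card = 2) ∨
      ((M 2).card = 1 ∧ (M 0).card = 2 ∧ (M 1).card = 2) ∨
      ((M 3).card = 1 ∧ (M 0).card = 2 ∧ (M 1).card = 2) := by omega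
  rcases hcases with h | h | h | h | h | h | h | h | h | h
  · exact hone 0 1 (by decide) h01 h
  · exact hone 0 2 (by decide) h02 h
  · exact hone 0 3 (by decide) h03 h
  · exact hone 1 2 (by decide) h12 h
  · exact hone 1 3 (by decide) h13 h
  · exact hone 2 3 (by decide) h23 h
  · exact htwo 0 1 2 (by decide) (by decide) h01 h02 h12 h.1 h.2.1 h.2.2
  · exact htwo 1 0 2 (by decide) (by decide) h01.symm h12 h02 h.1 h.2.1 h.2.2
  · exact htwo 2 0 1 (by decide) (by decide) h02.symm h12.symm h01 h.1 h.2.1 h.2.2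
  · exact htwo 3 0 1 (by decide) (by decide) h03.symm h13.symm h01 h.1 h.2.1 h.2.2

/-- For `n ∈ {6, 7}` and `k = n - 3`: the loss in the refined inequality is at least `6`. -/
theorem loss_six {α : Type*} [DecidableEq α] [Fintype α] {F : Finset (Finset α)} (hF : Priv F)
    {k : ℕ} (hk3 : 3 ≤ k) (hn : Fintype.card α = k + 3) (hn7 : Fintype.card α ≤ 7)
    (hk : ∀ W : Finset α, W.card = k → intr F W = W) :
    6 ≤ (F.filter (fun V => intr' F V = ∅)).card + ∑ A ∈ RR F k, (4 - A.card) := by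
  classical
  have h4 := minimal_members hF (k := k) (by omega) (by omega) hk
  have e1 : Fintype.card α - k + 1 = 4 := by omega
  rw [e1] at h4
  by_cases h6 : 6 ≤ (F.filter (fun V => intr' F V = ∅)).card
  · exact h6.trans (Nat.le_add_right _ _)
  have hne : ∀ A ∈ F.filter (fun V => intr' F V = ∅), A.Nonempty := by
    intro A hA
    obtain ⟨x, hx, _⟩ := hF A (Finset.mem_filter.1 hA).1
    exact ⟨x, hx⟩
  have hred : ∀ A ∈ F.filter (fun V => intr' F V = ∅), ∀ B ∈ F.filter (fun V => intr' F V = ∅),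
      A ≠ B → (A ∪ B).card ≤ 3 → A ∪ B ∈ RR F k := by
    intro A hA B hB hAB hc
    simp only [RR, Finset.mem_filter, Finset.mem_univ, true_and]
    refine ⟨min_union_red hF hA hB hAB, ?_, by omega⟩
    exact Finset.card_pos.2 ((hne A hA).mono Finset.subset_union_left)
  have h5 : (F.filter (fun V => intr' F V = ∅)).card = 4 ∨
      (F.filter (fun V => intr' F V = ∅)).card = 5 := by omega
  rcases h5 with h5 | h5
  · let e := (Finset.equivFinOfCardEq h5).symm
    have h7 := small_four (Finset.univ : Finset α) (by rw [Finset.card_univ]; exact hn7)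
      (fun i => (e i).1) (fun i => Finset.subset_univ _) (fun i => hne _ (e i).2)
      (by
        intro H _ hH
        obtain ⟨A, hA, hAH⟩ := min_transversal (F := F) (k := k) (by omega) hk H (by omega)
        refine ⟨e.symm ⟨A, hA⟩, ?_⟩
        simpa using hAH)
      (RR F k)
      (by
        intro i j hij hc
        exact hred _ (e i).2 _ (e j).2 (fun h => hij (e.injective (Subtype.ext h))) hc)
    omega
  · let e := (Finset.equivFinOfCardEq h5).symm
    obtain ⟨i, j, hij, hc⟩ := small_five (Finset.univ : Finset α)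
      (by rw [Finset.card_univ]; exact hn7)
      (fun i => (e i).1) (fun i => Finset.subset_univ _) (fun i => hne _ (e i).2)
      (by
        intro H _ hH
        obtain ⟨A, hA, hAH⟩ := min_transversal (F := F) (k := k) (by omega) hk H (by omega)
        refine ⟨e.symm ⟨A, hA⟩, ?_⟩
        simpa using hAH)
    have h7 := hred _ (e i).2 _ (e j).2 (fun h => hij (e.injective (Subtype.ext h))) hc
    have h8 : 4 - ((e i).1 ∪ (e j).1).card ≤ ∑ A ∈ RR F k, (4 - A.card) :=
      Finset.single_le_sum (f := fun A : Finset α => 4 - A.card) (fun _ _ => Nat.zero_le _) h7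
    have h9 : ((e i).1 ∪ (e j).1).card ≤ 3 := hc
    omega

/-- `3 f(n) ≤ 4 C(n,3) - 6` for `n ∈ {6, 7}` -/
theorem f_six_seven {k : ℕ} (hk3 : 3 ≤ k) (hk4 : k ≤ 4) :
    3 * f (k + 3) + 6 ≤ 4 * (k + 3).choose k := by
  classical
  obtain ⟨α, _, _, F0, hα, hF0, hc⟩ := exists_priv_card_f (n := k + 3) (by omega)
  obtain ⟨F1, h1, h2, h3⟩ := push_all (α := α) (k := k) (by omega) (k + 3) F0 hF0
    (fun A _ => by
      have := Finset.card_le_univ A
      omega)
  obtain ⟨G, g1, g2, g3, g4⟩ := exists_extremal (α := α) k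
  have h5 := g3 F1 h1 h3
  have h6 := star g1 (k := k) (by omega) (by omega) g2 g4
  have h7 := loss_six g1 hk3 hα (by omega) g4
  have e1 : Fintype.card α - k = 3 := by omega
  rw [e1, hα] at h6
  have h8 : ∑ A ∈ RR G k, (4 - A.card) + ∑ A ∈ RR G k, A.card = 4 * (RR G k).card := by
    rw [← Finset.sum_add_distrib, Finset.card_eq_sum_ones, Finset.mul_sum]
    apply Finset.sum_congr rfl
    intro A hA
    have := (Finset.mem_filter.1 hA).2.2.2
    omega
  omega

end Pool.Agent.H153_MeetIrr
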