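import Pool.Agent.H153_MeetIrr.Small

/-! The values `f n` for `1 ≤ n ≤ 7`. -/

namespace Pool.Agent.H153_MeetIrr

open Finset

theorem covBy_bool : ∀ x y : Bool, x ⋖ y ↔ (x = false ∧ y = true) := by
  unfold CovBy
  decide

theorem one_mem_meetCounts : 1 ∈ meetCounts 1 := by
  refine ⟨Bool, inferInstance, inferInstance, inferInstance, ?_, ?_⟩
  · rw [Nat.card_eq_one_iff_unique]
    refine ⟨⟨?_⟩, ⟨⟨true, false, (covBy_bool _ _).2 ⟨rfl, rfl⟩,
      fun y hy => ((covBy_bool _ _).1 hy).1⟩⟩⟩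
    rintro ⟨x, y, hy, _⟩ ⟨x', y', hy', _⟩
    apply Subtype.ext
    exact ((covBy_bool _ _).1 hy).2.trans ((covBy_bool _ _).1 hy').2.symm
  · rw [Nat.card_eq_one_iff_unique]
    refine ⟨⟨?_⟩, ⟨⟨false, true, (covBy_bool _ _).2 ⟨rfl, rfl⟩,
      fun y hy => ((covBy_bool _ _).1 hy).2⟩⟩⟩
    rintro ⟨x, y, hy, _⟩ ⟨x', y', hy', _⟩
    apply Subtype.ext
    exact ((covBy_bool _ _).1 hy).1.trans ((covBy_bool _ _).1 hy').1.symm

theorem meetCounts_one_le {m : ℕ} (hm : m ∈ meetCounts 1) : m ≤ 1 := by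
  classical
  obtain ⟨L, hL, hfin, hne, h1, h2⟩ := hm
  have : Fintype L := Fintype.ofFinite L
  have h3 := fam_spec L
  have hcard : Fintype.card {x : L // JoinIrr x} = 1 := by
    rw [← Nat.card_eq_fintype_card]
    exact h1
  obtain ⟨j, hj⟩ := Fintype.card_eq_one_iff.1 hcard
  rw [← h2, ← h3.2]
  apply Finset.card_le_one.2
  have hmem : ∀ A ∈ fam L, A = {j} := by
    intro A hA
    obtain ⟨x, hx, _⟩ := h3.1 A hA
    rw [hj x] at hx
    apply Finset.Subset.antisymm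
    · intro y _
      rw [hj y]
      exact Finset.mem_singleton_self j
    · intro y hy
      rw [Finset.mem_singleton.1 hy]
      exact hx
  intro A hA B hB
  rw [hmem A hA, hmem B hB]

theorem isGreatest_one : IsGreatest (meetCounts 1) 1 :=
  ⟨one_mem_meetCounts, fun _ hm => meetCounts_one_le hm⟩

theorem f_one : f 1 = 1 := isGreatest_one.csSup_eq

/-- two disjoint triangles and all triples but the two triangles -/
def F6 : Finset (Finset (Fin 6)) :=
  (Finset.powersetCard 3 (Finset.univ : Finset (Fin 6)) \ {{0, 1, 2}, {3, 4, 5}}) ∪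
    {{0, 1}, {0, 2}, {1, 2}, {3, 4}, {3, 5}, {4, 5}}

set_option maxRecDepth 100000 in
theorem F6_card : F6.card = 24 := by decide +kernel

set_option maxRecDepth 100000 in
theorem F6_priv : Priv F6 := by
  unfold Priv
  decide +kernel

theorem F2_priv : Priv ({{0}, {1}} : Finset (Finset (Fin 2))) := by
  unfold Priv
  decide

theorem f_two_ge : 2 ≤ f 2 := by
  have h := le_f_of_priv (n := 2) le_rfl (Fintype.card_fin 2) F2_priv
  have : ({{0}, {1}} : Finset (Finset (Fin 2))).card = 2 := by decide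
  omega

theorem f_bound {n : ℕ} (hn : 2 ≤ n) :
    f n * (n / 2) ≤ (n / 2 + 1) * (n.choose (n / 2) - 1) :=
  meetCounts_bound (by omega) (isGreatest_f hn).1

theorem f_small : f 2 = 2 ∧ f 3 = 4 ∧ f 4 = 7 ∧ f 5 = 13 ∧ f 6 = 24 ∧ f 7 = 44 := by
  have c2 : Nat.choose 2 1 = 2 := by decide
  have c3 : Nat.choose 3 1 = 3 := by decide
  have c4 : Nat.choose 4 2 = 6 := by decide
  have c5 : Nat.choose 5 2 = 10 := by decide
  have c63 : Nat.choose 6 3 = 20 := by decide
  have c74 : Nat.choose 7 4 = 35 := by decide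
  have u2 : f 2 * 1 ≤ 2 * (Nat.choose 2 1 - 1) := f_bound (n := 2) (by omega)
  have u3 : f 3 * 1 ≤ 2 * (Nat.choose 3 1 - 1) := f_bound (n := 3) (by omega)
  have u4 : f 4 * 2 ≤ 3 * (Nat.choose 4 2 - 1) := f_bound (n := 4) (by omega)
  have u5 : f 5 * 2 ≤ 3 * (Nat.choose 5 2 - 1) := f_bound (n := 5) (by omega)
  have u6 : 3 * f 6 + 6 ≤ 4 * Nat.choose 6 3 := f_six_seven (k := 3) (by omega) (by omega)
  have u7 : 3 * f 7 + 6 ≤ 4 * Nat.choose 7 4 := f_six_seven (k := 4) (by omega) (by omega)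
  have l2 := f_two_ge
  have l3 : f 2 + Nat.choose 2 1 ≤ f 3 := f_succ (n := 2) (by omega) 1
  have l4 : f 3 + Nat.choose 3 1 ≤ f 4 := f_succ (n := 3) (by omega) 1
  have l5 : f 4 + Nat.choose 4 2 ≤ f 5 := f_succ (n := 4) (by omega) 2
  have l6 : 24 ≤ f 6 := by
    have h := le_f_of_priv (n := 6) (by omega) (Fintype.card_fin 6) F6_priv
    rwa [F6_card] at h
  have l7 : f 6 + Nat.choose 6 3 ≤ f 7 := f_succ (n := 6) (by omega) 3
  rw [c2] at u2 l3
  rw [c3] at u3 l4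
  rw [c4] at u4 l5
  rw [c5] at u5
  rw [c63] at u6 l7
  rw [c74] at u7
  refine ⟨by omega, by omega, by omega, by omega, by omega, by omega⟩

end Pool.Agent.H153_MeetIrr
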