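import Pool.Agent.H153_MeetIrr.Extremal

/-! A refined counting inequality, keeping the reducible sets. -/

namespace Pool.Agent.H153_MeetIrr

open Finset

variable {α : Type*} [DecidableEq α] [Fintype α]

/-- pairs (closed set, point giving a reducible set) inject into pairs (reducible set, point whose
deletion is closed) -/
theorem pair_count (F : Finset (Finset α)) (k : ℕ) :
    ∑ D ∈ DD F k, (Xr F D).card + ∑ A ∈ RR F k, (ZZ F A).card ≤ ∑ A ∈ RR F k, A.card := by
  classical
  have h1 : ∑ A ∈ RR F k, A.card = ∑ A ∈ RR F k,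
      ((A.filter (fun x => intr F (A.erase x) = A.erase x)).card + (ZZ F A).card) := by
    apply Finset.sum_congr rfl
    intro A _
    exact (Finset.card_filter_add_card_filter_not _).symm
  rw [h1, Finset.sum_add_distrib]
  apply Nat.add_le_add_right
  rw [← Finset.card_sigma, ← Finset.card_sigma]
  apply Finset.card_le_card_of_injOn
    (fun p : (Σ _ : Finset α, α) => (⟨insert p.2 p.1, p.2⟩ : (Σ _ : Finset α, α)))
  · intro p hp
    have hp2 := Finset.mem_sigma.1 (Finset.mem_coe.1 hp)
    have hp3 := (Finset.mem_filter.1 hp2.2).2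
    have hp4 := (Finset.mem_filter.1 hp2.1).2
    simp only [Finset.mem_coe, Finset.mem_sigma, RR, Finset.mem_filter, Finset.mem_univ, true_and]
    rw [Finset.card_insert_of_notMem hp3.1]
    refine ⟨⟨hp3.2, by omega, by omega⟩, Finset.mem_insert_self _ _, ?_⟩
    rw [Finset.erase_insert hp3.1]
    exact hp4.1
  · intro p hp q hq hpq
    have hp2 := Finset.mem_sigma.1 (Finset.mem_coe.1 hp)
    have hq2 := Finset.mem_sigma.1 (Finset.mem_coe.1 hq)
    have hp3 := (Finset.mem_filter.1 hp2.2).2.1
    have hq3 := (Finset.mem_filter.1 hq2.2).2.1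
    obtain ⟨p1, p2⟩ := p
    obtain ⟨q1, q2⟩ := q
    simp only [Sigma.mk.injEq, heq_eq_eq] at hpq
    simp only at hp3 hq3
    obtain ⟨e1, e2⟩ := hpq
    subst e2
    have : p1 = q1 := by
      rw [← Finset.erase_insert hp3, e1, Finset.erase_insert hq3]
    rw [this]

/-- **Refined inequality.** If the members of a family with private elements have at most `k`
elements and all `k`-sets are unions of members, then, with `N = n - k + 1`,
`(N - 1) |F| + #(minimal members) + Σ_{A reducible} N ≤ N C(n,k) + Σ_{A reducible} |A|`. -/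
theorem star {F : Finset (Finset α)} (hF : Priv F) {k : ℕ} (hk1 : 1 ≤ k)
    (hkn : k ≤ Fintype.card α)
    (hlev : ∀ A ∈ F, A.card ≤ k)
    (hk : ∀ W : Finset α, W.card = k → intr F W = W) :
    (Fintype.card α - k) * F.card + (F.filter (fun V => intr' F V = ∅)).card +
      (Fintype.card α - k + 1) * (RR F k).card ≤
      (Fintype.card α - k + 1) * ((Fintype.card α).choose k) + ∑ A ∈ RR F k, A.card := by
  classical
  set n := Fintype.card α with hn
  have hface : ∀ D : Finset α, ∃ Y : Finset α, D ∈ DD F k →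
      (Y ⊆ X F D ∧ intr F (D ∪ Y) = D ∧
      (∀ x ∈ X F D, x ∉ Y → intr F (D ∪ insert x Y) ≠ D) ∧ D.card + Y.card < k) := by
    intro D
    by_cases hD : D ∈ DD F k
    · have h := (Finset.mem_filter.1 hD).2
      obtain ⟨Y, hY⟩ := exists_face hk h.1 h.2.2
      exact ⟨Y, fun _ => hY⟩
    · exact ⟨∅, fun h => absurd h hD⟩
  choose Y hY using hface
  have c1 := inj_count hF hk Y (fun D hD => (hY D hD).2.1) (fun D hD => (hY D hD).2.2.1)
  have c2 := card_F_add hF hk1 hlev hk
  have c3 := pair_count F k
  have c5 : (F.filter (fun V => intr' F V = ∅)).card +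
      (F.filter (fun V => intr' F V ≠ ∅)).card = F.card :=
    Finset.card_filter_add_card_filter_not _
  have c6 : ∀ D ∈ DD F k, n - k + 1 ≤ (X F D \ Y D).card + (Xr F D).card := by
    intro D hD
    have h2 := card_Xr_add F D
    have h3 : (X F D \ Y D).card + (Y D).card = (X F D).card :=
      Finset.card_sdiff_add_card_eq_card (hY D hD).1
    have h4 := (hY D hD).2.2.2
    omega
  have d6 := Finset.sum_le_sum c6
  rw [Finset.sum_const, smul_eq_mul, Finset.sum_add_distrib] at d6
  -- combine
  have e1 : (DD F k).card * (n - k + 1) ≤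
      (F.filter (fun V => intr' F V ≠ ∅)).card + ∑ A ∈ RR F k, A.card := by omega
  have e2 : ((DD F k).card + n.choose k) * (n - k + 1) =
      (F.card + (RR F k).card) * (n - k + 1) := by rw [c2]
  have e3 : (F.card + (RR F k).card) * (n - k + 1) =
      (n - k) * F.card + F.card + (n - k + 1) * (RR F k).card := by ring
  have e4 : ((DD F k).card + n.choose k) * (n - k + 1) =
      (DD F k).card * (n - k + 1) + (n - k + 1) * n.choose k := by ring
  rw [e4, e3] at e2
  omega

/-- any `n - k` points miss some minimal member -/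
theorem min_transversal {F : Finset (Finset α)} {k : ℕ} (hk1 : 1 ≤ k)
    (hk : ∀ W : Finset α, W.card = k → intr F W = W) (H : Finset α)
    (hH : H.card + k ≤ Fintype.card α) :
    ∃ M ∈ F.filter (fun V => intr' F V = ∅), Disjoint M H := by
  classical
  have h2 : k ≤ (Hᶜ).card := by
    rw [Finset.card_compl]
    omega
  obtain ⟨W, hW1, hW2⟩ := Finset.exists_subset_card_eq h2
  have hWcl := hk W hW2
  have hWne : W.Nonempty := Finset.card_pos.1 (by omega)
  obtain ⟨x, hx⟩ := hWne
  rw [← hWcl] at hx
  obtain ⟨B, hB1, hB2, _⟩ := mem_intr.1 hx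
  obtain ⟨C, hC, hCmin⟩ := Finset.exists_min_image (F.filter (fun C => C ⊆ W)) Finset.card
    ⟨B, Finset.mem_filter.2 ⟨hB1, hB2⟩⟩
  have hC' := Finset.mem_filter.1 hC
  have hCe : intr' F C = ∅ := by
    apply Finset.eq_empty_of_forall_notMem
    intro z hz
    obtain ⟨E, hE1, hE2, _⟩ := mem_intr'.1 hz
    have := hCmin E (Finset.mem_filter.2 ⟨hE1, hE2.subset.trans hC'.2⟩)
    have h3 := Finset.card_lt_card hE2
    omega
  refine ⟨C, Finset.mem_filter.2 ⟨hC'.1, hCe⟩, ?_⟩
  rw [Finset.disjoint_left]
  intro z hz hzH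
  exact Finset.mem_compl.1 (hW1 (hC'.2 hz)) hzH

omit [Fintype α] in
/-- two minimal members are incomparable -/
theorem min_antichain {F : Finset (Finset α)} (hF : Priv F) {A B : Finset α}
    (hA : A ∈ F.filter (fun V => intr' F V = ∅)) (hB : B ∈ F.filter (fun V => intr' F V = ∅))
    (hAB : A ⊆ B) : A = B := by
  by_contra hne
  have h1 : A ⊂ B := Finset.ssubset_iff_subset_ne.2 ⟨hAB, hne⟩
  have hA' := Finset.mem_filter.1 hA
  have hB' := Finset.mem_filter.1 hB
  obtain ⟨x, hx, _⟩ := hF A hA'.1
  have : x ∈ intr' F B := mem_intr'.2 ⟨A, hA'.1, h1, hx⟩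
  rw [hB'.2] at this
  exact Finset.notMem_empty x this

/-- the union of two distinct minimal members is reducible -/
theorem min_union_red {F : Finset (Finset α)} (hF : Priv F) {A B : Finset α}
    (hA : A ∈ F.filter (fun V => intr' F V = ∅)) (hB : B ∈ F.filter (fun V => intr' F V = ∅))
    (hne : A ≠ B) : intr' F (A ∪ B) = A ∪ B := by
  have hA' := Finset.mem_filter.1 hA
  have hB' := Finset.mem_filter.1 hB
  have h1 : A ⊂ A ∪ B := by
    refine Finset.ssubset_iff_subset_ne.2 ⟨Finset.subset_union_left, ?_⟩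
    intro h
    apply hne
    symm
    apply min_antichain hF hB hA
    rw [h]
    exact Finset.subset_union_right
  have h2 : B ⊂ A ∪ B := by
    refine Finset.ssubset_iff_subset_ne.2 ⟨Finset.subset_union_right, ?_⟩
    intro h
    apply hne
    apply min_antichain hF hA hB
    rw [h]
    exact Finset.subset_union_left
  apply Finset.Subset.antisymm (intr'_sub _ _)
  exact Finset.union_subset (sub_intr'_of_mem hA'.1 h1) (sub_intr'_of_mem hB'.1 h2)

end Pool.Agent.H153_MeetIrr
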